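import Mathlib

/-!
# Derivations which do not vanish at a point (MP_562323_ag)

`S` a commutative `K`-algebra, `K` of characteristic zero, `m` an ideal, `D` a derivation with `D y - 1 ∈ m` for
some `y ∈ m`.
-/

set_option autoImplicit false

namespace Pool.Agent.H66.Rig

variable {K S : Type*} [Field K] [CommRing S] [Algebra K S]

theorem der_pow (D : Derivation K S S) (m : Ideal S) (k : ℕ) {g : S} (hg : g ∈ m ^ (k + 1)) :
    D g ∈ m ^ k := by
  induction k generalizing g with
  | zero => simp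
  | succ k ih =>
    rw [pow_succ] at hg
    refine Submodule.mul_induction_on hg (fun a ha b hb => ?_) (fun a b ha hb => ?_)
    · rw [Derivation.leibniz, smul_eq_mul, smul_eq_mul]
      refine Ideal.add_mem _ (Ideal.mul_mem_right _ _ ha) ?_
      rw [mul_comm, pow_succ]
      exact Ideal.mul_mem_mul (ih ha) hb
    · rw [map_add]
      exact Ideal.add_mem _ ha hb

theorem der_iter (D : Derivation K S S) (m : Ideal S) (j d : ℕ) {g : S} (hg : g ∈ m ^ (d + j)) :
    ((D : S →ₗ[K] S) ^ j) g ∈ m ^ d := by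
  induction j generalizing d g with
  | zero => simpa using hg
  | succ j ih =>
    rw [pow_succ', Module.End.mul_apply]
    refine der_pow D m d (ih (d + 1) ?_)
    rwa [show d + 1 + j = d + (j + 1) by omega]

/-- the integration operator -/
noncomputable def T (D : Derivation K S S) (y : S) (d : ℕ) : S →ₗ[K] S :=
  ∑ j ∈ Finset.range (d + 1), ((-1 : K) ^ j / (j + 1).factorial) •
    ((LinearMap.mulLeft K (y ^ (j + 1))) ∘ₗ ((D : S →ₗ[K] S) ^ j))

theorem T_apply (D : Derivation K S S) (y : S) (d : ℕ) (g : S) :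
    T D y d g = ∑ j ∈ Finset.range (d + 1), ((-1 : K) ^ j / (j + 1).factorial) •
      (y ^ (j + 1) * ((D : S →ₗ[K] S) ^ j) g) := by
  simp [T, LinearMap.sum_apply]

theorem smul_mem' (m : Ideal S) (c : K) {g : S} (hg : g ∈ m) : c • g ∈ m := by
  rw [Algebra.smul_def]
  exact Ideal.mul_mem_left _ _ hg

theorem T_mem (D : Derivation K S S) (m : Ideal S) {y : S} (hy : y ∈ m) (d : ℕ) {g : S}
    (hg : g ∈ m ^ d) : T D y d g ∈ m ^ (d + 1) := by
  rw [T_apply]
  refine Ideal.sum_mem _ fun j hj => smul_mem' _ _ ?_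
  have hj' : j ≤ d := by
    have := Finset.mem_range.1 hj
    omega
  have h1 : ((D : S →ₗ[K] S) ^ j) g ∈ m ^ (d - j) := by
    refine der_iter D m j (d - j) ?_
    rwa [Nat.sub_add_cancel hj']
  have h2 := Ideal.mul_mem_mul (Ideal.pow_mem_pow hy (j + 1)) h1
  rwa [← pow_add, show j + 1 + (d - j) = d + 1 by omega] at h2

theorem T_der [CharZero K] (D : Derivation K S S) (m : Ideal S) {y : S} (hy : y ∈ m)
    (hD : D y - 1 ∈ m) (d : ℕ) {g : S} (hg : g ∈ m ^ d) : D (T D y d g) - g ∈ m ^ (d + 1) := by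
  set A : ℕ → S := fun j => ((-1 : K) ^ j / j.factorial) • (y ^ j * ((D : S →ₗ[K] S) ^ j) g) with hA
  have h1 : D (T D y d g) = ∑ j ∈ Finset.range (d + 1), (A j - A (j + 1)) +
      ∑ j ∈ Finset.range (d + 1), A j * (D y - 1) := by
    rw [T_apply, map_sum, ← Finset.sum_add_distrib]
    refine Finset.sum_congr rfl fun j _ => ?_
    rw [Derivation.map_smul, Derivation.leibniz, Derivation.leibniz_pow, hA]
    simp only [smul_eq_mul, nsmul_eq_mul, Nat.add_sub_cancel, smul_add]
    have e1 : D (((D : S →ₗ[K] S) ^ j) g) = ((D : S →ₗ[K] S) ^ (j + 1)) g := by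
      rw [pow_succ', Module.End.mul_apply]
      rfl
    rw [e1]
    have e2 : ((-1 : K) ^ j / (j + 1).factorial) • ((((D : S →ₗ[K] S) ^ j) g) *
        (((j + 1 : ℕ) : S) * (y ^ j * D y))) =
        ((-1 : K) ^ j / j.factorial) • (y ^ j * ((D : S →ₗ[K] S) ^ j) g) * D y := by
      have e3 : ((j + 1 : ℕ) : S) = algebraMap K S ((j + 1 : ℕ) : K) := by
        rw [map_natCast]
      rw [Algebra.smul_def, Algebra.smul_def, e3]
      have e4 : algebraMap K S ((-1 : K) ^ j / (j + 1).factorial) *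
          algebraMap K S ((j + 1 : ℕ) : K) = algebraMap K S ((-1 : K) ^ j / j.factorial) := by
        rw [← map_mul]
        congr 1
        rw [Nat.factorial_succ]
        have h5 : ((j + 1 : ℕ) : K) ≠ 0 := Nat.cast_ne_zero.2 (Nat.succ_ne_zero j)
        have h6 : ((j.factorial : ℕ) : K) ≠ 0 := Nat.cast_ne_zero.2 (Nat.factorial_ne_zero j)
        rw [Nat.cast_mul]
        field_simp
      rw [← e4]
      ring
    have e5 : ((-1 : K) ^ j / (j + 1).factorial) • (y ^ (j + 1) * ((D : S →ₗ[K] S) ^ (j + 1)) g) =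
        - (((-1 : K) ^ (j + 1) / (j + 1).factorial) •
          (y ^ (j + 1) * ((D : S →ₗ[K] S) ^ (j + 1)) g)) := by
      rw [← neg_smul]
      congr 1
      rw [pow_succ]
      ring
    rw [e5, e2]
    ring
  have h2 : ∑ j ∈ Finset.range (d + 1), (A j - A (j + 1)) = A 0 - A (d + 1) :=
    Finset.sum_range_sub' A (d + 1)
  have h3 : A 0 = g := by
    simp [hA]
  rw [h1, h2, h3]
  have h4 : A (d + 1) ∈ m ^ (d + 1) := by
    rw [hA]
    exact smul_mem' _ _ (Ideal.mul_mem_right _ _ (Ideal.pow_mem_pow hy _))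
  have h5 : ∑ j ∈ Finset.range (d + 1), A j * (D y - 1) ∈ m ^ (d + 1) := by
    refine Ideal.sum_mem _ fun j hj => ?_
    rw [pow_succ]
    refine Ideal.mul_mem_mul ?_ hD
    have hj' : j ≤ d := by
      have := Finset.mem_range.1 hj
      omega
    have h1 : ((D : S →ₗ[K] S) ^ j) g ∈ m ^ (d - j) := by
      refine der_iter D m j (d - j) ?_
      rwa [Nat.sub_add_cancel hj']
    have h2 := Ideal.mul_mem_mul (Ideal.pow_mem_pow hy j) h1
    rw [← pow_add, show j + (d - j) = d by omega] at h2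
    exact smul_mem' _ _ h2
  have h6 : g - A (d + 1) + ∑ j ∈ Finset.range (d + 1), A j * (D y - 1) - g =
      (∑ j ∈ Finset.range (d + 1), A j * (D y - 1)) - A (d + 1) := by ring
  rw [h6]
  exact Ideal.sub_mem _ h5 h4

end Pool.Agent.H66.Rig
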