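import Mathlib
import Pool.Agent.H66.Rig.Gen

/-!
# The dimension estimate (MP_562323_ag)
-/

set_option autoImplicit false

namespace Pool.Agent.H66.Rig

variable {K S : Type*} [Field K] [CommRing S] [Algebra K S]

/-- the lifts -/
noncomputable def F (D : Derivation K S S) (y : S) (e : ℕ) : ℕ → (S →ₗ[K] S)
  | 0 => LinearMap.id
  | (i + 1) => T D y (e + i) ∘ₗ F D y e i

theorem F_mem (D : Derivation K S S) (m : Ideal S) {y : S} (hy : y ∈ m) (e i : ℕ) {u : S}
    (hu : u ∈ m ^ e) : F D y e i u ∈ m ^ (e + i) := by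
  induction i with
  | zero => simpa [F] using hu
  | succ i ih =>
    show T D y (e + i) (F D y e i u) ∈ m ^ (e + i + 1)
    exact T_mem D m hy (e + i) ih

theorem F_der [CharZero K] (D : Derivation K S S) (m : Ideal S) {y : S} (hy : y ∈ m)
    (hD : D y - 1 ∈ m) (e i : ℕ) {u : S} (hu : u ∈ m ^ e) :
    ((D : S →ₗ[K] S) ^ i) (F D y e i u) - u ∈ m ^ (e + 1) := by
  induction i with
  | zero => simp [F]
  | succ i ih =>
    have h1 := T_der D m hy hD (e + i) (F_mem D m hy e i hu)
    have h2 : ((D : S →ₗ[K] S) ^ i) (D (T D y (e + i) (F D y e i u)) - F D y e i u) ∈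
        m ^ (e + 1) := by
      refine der_iter D m i (e + 1) ?_
      rwa [show e + 1 + i = e + i + 1 by omega]
    have h3 : ((D : S →ₗ[K] S) ^ (i + 1)) (F D y e (i + 1) u) - u =
        ((D : S →ₗ[K] S) ^ i) (D (T D y (e + i) (F D y e i u)) - F D y e i u) +
        (((D : S →ₗ[K] S) ^ i) (F D y e i u) - u) := by
      rw [pow_succ, Module.End.mul_apply, map_sub]
      show ((D : S →ₗ[K] S) ^ i) (D (T D y (e + i) (F D y e i u))) - u = _
      ring
    rw [h3]
    exact Ideal.add_mem _ h2 ih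

theorem F_der_lt (D : Derivation K S S) (m : Ideal S) {y : S} (hy : y ∈ m) (e i l : ℕ)
    (hl : l < i) {u : S} (hu : u ∈ m ^ e) :
    ((D : S →ₗ[K] S) ^ l) (F D y e i u) ∈ m ^ (e + 1) := by
  refine der_iter D m l (e + 1) ?_
  exact Ideal.pow_le_pow_right (by omega) (F_mem D m hy e i hu)

/-- the sum of the lifts -/
noncomputable def Psi (D : Derivation K S S) (y : S) (e M : ℕ) (E : Submodule K S) :
    (Fin M → E) →ₗ[K] S :=
  ∑ i : Fin M, F D y e i ∘ₗ E.subtype ∘ₗ LinearMap.proj i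

theorem Psi_apply (D : Derivation K S S) (y : S) (e M : ℕ) (E : Submodule K S) (u : Fin M → E) :
    Psi D y e M E u = ∑ i : Fin M, F D y e i (u i : S) := by
  simp [Psi, LinearMap.sum_apply]

theorem Psi_zero [CharZero K] (D : Derivation K S S) (m : Ideal S) {y : S} (hy : y ∈ m)
    (hD : D y - 1 ∈ m) (e M : ℕ) (E : Submodule K S) (hE1 : ∀ u ∈ E, u ∈ m ^ e)
    (hE2 : ∀ u ∈ E, u ∈ m ^ (e + 1) → u = 0) (u : Fin M → E)
    (h : ∀ l < M, ((D : S →ₗ[K] S) ^ l) (Psi D y e M E u) ∈ m ^ (e + 1)) : u = 0 := by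
  have key : ∀ l, ∀ hl : l < M, u ⟨l, hl⟩ = 0 := by
    intro l
    induction l using Nat.strong_induction_on with
    | _ l ih =>
      intro hl
      have h1 := h l hl
      rw [Psi_apply, map_sum] at h1
      have h2 : ∑ i ∈ Finset.univ.erase (⟨l, hl⟩ : Fin M),
          ((D : S →ₗ[K] S) ^ l) (F D y e i (u i : S)) ∈ m ^ (e + 1) := by
        refine Ideal.sum_mem _ fun i hi => ?_
        have hne : (i : ℕ) ≠ l := by
          intro h3
          exact (Finset.mem_erase.1 hi).1 (Fin.ext h3)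
        rcases lt_or_gt_of_ne hne with h3 | h3
        · have h4 : u i = 0 := ih i h3 i.2
          rw [h4]
          simp
        · exact F_der_lt D m hy e i l h3 (hE1 _ (u i).2)
      rw [← Finset.add_sum_erase Finset.univ _ (Finset.mem_univ (⟨l, hl⟩ : Fin M))] at h1
      have h3 := (Ideal.add_mem_iff_left _ h2).1 h1
      have h4 := F_der D m hy hD e l (hE1 _ (u ⟨l, hl⟩).2)
      have h5 : ((u ⟨l, hl⟩ : E) : S) ∈ m ^ (e + 1) := by
        have h6 := Ideal.sub_mem _ h3 h4
        simpa using h6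
      exact Subtype.ext (hE2 _ (u ⟨l, hl⟩).2 h5)
  funext i
  exact key i i.2

/-- the corrected iterates -/
noncomputable def H (D : Derivation K S S) (P : S →ₗ[K] S) : ℕ → (S →ₗ[K] S)
  | 0 => LinearMap.id
  | (l + 1) => (D : S →ₗ[K] S) ∘ₗ P ∘ₗ H D P l

theorem H_succ (D : Derivation K S S) (P : S →ₗ[K] S) (l : ℕ) (g : S) :
    H D P (l + 1) g = D (P (H D P l g)) := rfl

theorem H_eq (D : Derivation K S S) (P : S →ₗ[K] S) (I : Ideal S)
    (hP : ∀ g ∈ I, P g = g) (g : S) (M : ℕ) (h : ∀ l < M, H D P l g ∈ I) :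
    ∀ l < M, H D P l g = ((D : S →ₗ[K] S) ^ l) g := by
  intro l
  induction l with
  | zero => intro _; simp [H]
  | succ l ih =>
    intro hl
    have h1 := ih (by omega)
    rw [H_succ, hP _ (h l (by omega)), h1, pow_succ', Module.End.mul_apply]
    rfl

/-- **The dimension estimate.** -/
theorem dim_le [CharZero K] (D : Derivation K S S) (m : Ideal S) {y : S} (hy : y ∈ m)
    (hD : D y - 1 ∈ m) (e : ℕ) (E : Submodule K S) (hE1 : ∀ u ∈ E, u ∈ m ^ e)
    (hE2 : ∀ u ∈ E, u ∈ m ^ (e + 1) → u = 0) (I : Ideal S) (hI : I ≤ m ^ (e + 1))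
    [Module.Finite K (S ⧸ I)] [Module.Finite K E] (R : Submodule K (S ⧸ I))
    (hR : ∀ g ∈ I, Ideal.Quotient.mk I (D g) ∈ R) :
    Module.finrank K E ≤ Module.finrank K R := by
  set π : S →ₗ[K] S ⧸ I := (Ideal.Quotient.mkₐ K I).toLinearMap with hπ
  have hπ' : ∀ g, π g = Ideal.Quotient.mk I g := fun g => rfl
  obtain ⟨σ, hσ⟩ := π.exists_rightInverse_of_surjective
    (LinearMap.range_eq_top.2 Ideal.Quotient.mk_surjective)
  have hσ' : ∀ a, π (σ a) = a := fun a => congrArg (fun f => f a) hσ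
  set P : S →ₗ[K] S := LinearMap.id - σ ∘ₗ π with hP
  have hPa : ∀ g, P g = g - σ (π g) := fun g => rfl
  have hPI : ∀ g, P g ∈ I := by
    intro g
    rw [← Ideal.Quotient.eq_zero_iff_mem, ← hπ', hPa, map_sub, hσ', sub_self]
  have hPid : ∀ g ∈ I, P g = g := by
    intro g hg
    rw [hPa, hπ', Ideal.Quotient.eq_zero_iff_mem.2 hg, map_zero, sub_zero]
  -- the injection
  have main : ∀ k : ℕ, (k + 1) * Module.finrank K E ≤
      Module.finrank K (S ⧸ I) + k * Module.finrank K R := by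
    intro k
    let Φ2 : (Fin (k + 1) → E) →ₗ[K] (Fin k → R) := LinearMap.pi fun l =>
      LinearMap.codRestrict R (π ∘ₗ H D P (l + 1) ∘ₗ Psi D y e (k + 1) E) (fun u => by
        show π (H D P ((l : ℕ) + 1) (Psi D y e (k + 1) E u)) ∈ R
        rw [H_succ]
        exact hR _ (hPI _))
    let Φ : (Fin (k + 1) → E) →ₗ[K] (S ⧸ I) × (Fin k → R) :=
      LinearMap.prod (π ∘ₗ Psi D y e (k + 1) E) Φ2
    have hinj : Function.Injective Φ := by
      rw [← LinearMap.ker_eq_bot, LinearMap.ker_eq_bot']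
      intro u hu
      have h1 : π (Psi D y e (k + 1) E u) = 0 := congrArg Prod.fst hu
      have h2 : ∀ l : Fin k, π (H D P ((l : ℕ) + 1) (Psi D y e (k + 1) E u)) = 0 := by
        intro l
        have h3 : Φ2 u = 0 := congrArg Prod.snd hu
        have h4 := congrFun h3 l
        exact congrArg Subtype.val h4
      have h3 : ∀ l < k + 1, H D P l (Psi D y e (k + 1) E u) ∈ I := by
        intro l hl
        rw [← Ideal.Quotient.eq_zero_iff_mem, ← hπ']
        cases l with
        | zero => exact h1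
        | succ l => exact h2 ⟨l, by omega⟩
      have h4 := H_eq D P I hPid _ (k + 1) h3
      refine Psi_zero D m hy hD e (k + 1) E hE1 hE2 u fun l hl => ?_
      rw [← h4 l hl]
      exact hI (h3 l hl)
    have h5 := LinearMap.finrank_le_finrank_of_injective hinj
    rw [Module.finrank_prod, Module.finrank_pi_fintype, Module.finrank_pi_fintype] at h5
    simpa using h5
  by_contra hcon
  push Not at hcon
  have h := main (Module.finrank K (S ⧸ I))
  nlinarith [h, hcon, Nat.zero_le (Module.finrank K (S ⧸ I))]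

end Pool.Agent.H66.Rig
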