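import Mathlib
import Pool.Agent.H12.Rig.Final
import Pool.Agent.H66.Rig.Main

/-!
# Finite schemes which are not rigid (MP_562323_ag)
-/

set_option autoImplicit false

namespace Pool.Agent.H66.Rig

open MvPolynomial

variable {K : Type*} [Field K] {n : ℕ}

/-- the ideal of the variables -/
noncomputable abbrev mm (K : Type*) [Field K] (n : ℕ) : Ideal (MvPolynomial (Fin n) K) :=
  Ideal.span (Set.range (X : Fin n → MvPolynomial (Fin n) K))

theorem sub_C_mem (f : MvPolynomial (Fin n) K) : f - C (coeff 0 f) ∈ mm K n := by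
  have h := (mem_pow_idealOfVars_iff (σ := Fin n) (R := K) 1 (f - C (coeff 0 f))).2
  rw [pow_one] at h
  refine h fun x hx => ?_
  by_contra hcon
  have h1 : x.degree = 0 := by omega
  have h2 : x = 0 := (Finsupp.degree_eq_zero_iff x).1 h1
  rw [MvPolynomial.mem_support_iff, h2, coeff_sub] at hx
  simp at hx

theorem X_mem (i : Fin n) : (X i : MvPolynomial (Fin n) K) ∈ mm K n :=
  Ideal.subset_span (Set.mem_range_self i)

theorem one_not_mem : (1 : MvPolynomial (Fin n) K) ∉ mm K n := by
  intro h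
  have h1 := (mem_pow_idealOfVars_iff (σ := Fin n) (R := K) 1 1).1 (by rwa [pow_one]) 0 (by simp)
  simp at h1

theorem finite_quot (I : Ideal (MvPolynomial (Fin n) K)) (q : ℕ) (hq : mm K n ^ q ≤ I) :
    Module.Finite K (MvPolynomial (Fin n) K ⧸ I) := by
  rw [Module.finite_def]
  set π : MvPolynomial (Fin n) K →ₗ[K] MvPolynomial (Fin n) K ⧸ I :=
    (Ideal.Quotient.mkₐ K I).toLinearMap with hπ
  have h1 : (⊤ : Submodule K (MvPolynomial (Fin n) K ⧸ I)) =
      ⨆ k ∈ Finset.range q, (Pool.Agent.H12.Rig.S K n k).map π := by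
    symm
    rw [eq_top_iff]
    intro a _
    obtain ⟨f, rfl⟩ := Ideal.Quotient.mk_surjective a
    have h2 : Ideal.Quotient.mk I f = ∑ k ∈ Finset.range (f.totalDegree + 1),
        π (homogeneousComponent k f) := by
      rw [← map_sum, ← Pool.Agent.H12.Rig.eq_sum_comp f]
      rfl
    rw [h2]
    refine Submodule.sum_mem _ fun k _ => ?_
    by_cases hk : k < q
    · refine Submodule.mem_iSup_of_mem k (Submodule.mem_iSup_of_mem (Finset.mem_range.2 hk) ?_)
      exact Submodule.mem_map_of_mem (homogeneousComponent_mem k f)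
    · have h3 : π (homogeneousComponent k f) = 0 := by
        refine Ideal.Quotient.eq_zero_iff_mem.2 (hq ?_)
        exact Pool.Agent.H12.Rig.form_mem_pow (by omega) (homogeneousComponent_mem k f)
      rw [h3]
      exact Submodule.zero_mem _
  rw [h1]
  refine Submodule.fg_biSup _ _ fun k _ => ?_
  exact Submodule.FG.map _ (homogeneousSubmodule_fg (Fin n) K k)

/-- the derivation with coefficients `a` -/
noncomputable def der (a : Fin n → MvPolynomial (Fin n) K) :
    Derivation K (MvPolynomial (Fin n) K) (MvPolynomial (Fin n) K) := mkDerivation K a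

theorem der_apply (a : Fin n → MvPolynomial (Fin n) K) (f : MvPolynomial (Fin n) K) :
    der a f = ∑ i, pderiv i f * a i := by
  have h : der a = ∑ i, a i • pderiv i := by
    refine MvPolynomial.derivation_ext fun j => ?_
    rw [der, mkDerivation_X]
    have h2 : (∑ i, a i • (pderiv i : Derivation K (MvPolynomial (Fin n) K) _)) (X j) =
        ∑ i, a i • pderiv i (X j) := by
      have h3 := map_sum (Derivation.coeFnAddMonoidHom (R := K) (A := MvPolynomial (Fin n) K)
        (M := MvPolynomial (Fin n) K)) (fun i => a i • pderiv i) Finset.univ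
      have h4 := congrFun h3 (X j)
      rw [Finset.sum_apply] at h4
      exact h4
    rw [h2, Finset.sum_eq_single j]
    · simp
    · intro b _ hb
      rw [pderiv_X_of_ne hb.symm, smul_zero]
    · intro h
      exact absurd (Finset.mem_univ j) h
  rw [h]
  have h3 := map_sum (Derivation.coeFnAddMonoidHom (R := K) (A := MvPolynomial (Fin n) K)
    (M := MvPolynomial (Fin n) K)) (fun i => a i • pderiv i) Finset.univ
  have h4 := congrFun h3 f
  rw [Finset.sum_apply] at h4
  refine Eq.trans h4 (Finset.sum_congr rfl fun i _ => ?_)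
  show a i • pderiv i f = pderiv i f * a i
  rw [smul_eq_mul, mul_comm]

/-- if all coefficients are in `m` then `D m^j ≤ m^j` -/
theorem der_mem_pow (a : Fin n → MvPolynomial (Fin n) K) (ha : ∀ i, a i ∈ mm K n) (j : ℕ)
    {f : MvPolynomial (Fin n) K} (hf : f ∈ mm K n ^ j) : der a f ∈ mm K n ^ j := by
  rw [der_apply]
  refine Ideal.sum_mem _ fun i _ => ?_
  cases j with
  | zero => simp
  | succ j =>
    rw [pow_succ]
    exact Ideal.mul_mem_mul (der_pow (pderiv i) _ j hf) (ha i)

/-- **(A)** -/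
theorem thmA [CharZero K] (e q j : ℕ) (I : Ideal (MvPolynomial (Fin n) K))
    (hq : mm K n ^ q ≤ I) (hI : I ≤ mm K n ^ (e + 1))
    (φ : I →ₗ[MvPolynomial (Fin n) K] (MvPolynomial (Fin n) K ⧸ I))
    (hφ : Module.finrank K (LinearMap.range (φ.restrictScalars K)) < (n + e - 1).choose e)
    (f : I) (hf : (f : MvPolynomial (Fin n) K) ∈ mm K n ^ j)
    (hf2 : ∀ g ∈ mm K n ^ j, φ f ≠ Ideal.Quotient.mk I g) :
    ¬ ∃ a : Fin n → MvPolynomial (Fin n) K ⧸ I, ∀ f : I,
        φ f = ∑ i : Fin n,
          Ideal.Quotient.mk I (pderiv i (f : MvPolynomial (Fin n) K)) * a i := by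
  rintro ⟨a, ha⟩
  choose b hb using fun i => Ideal.Quotient.mk_surjective (a i)
  have hD : ∀ g : I, φ g = Ideal.Quotient.mk I (der b g) := by
    intro g
    rw [ha g, der_apply, map_sum]
    refine Finset.sum_congr rfl fun i _ => ?_
    rw [map_mul, hb]
  by_cases hm : ∀ i, b i ∈ mm K n
  · exact hf2 _ (der_mem_pow b hm j hf) (hD f)
  · push Not at hm
    obtain ⟨i, hi⟩ := hm
    have hα : coeff 0 (b i) ≠ 0 := by
      intro h0
      have := sub_C_mem (b i)
      rw [h0, C_0, sub_zero] at this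
      exact hi this
    have hy : C (coeff 0 (b i))⁻¹ * (X i : MvPolynomial (Fin n) K) ∈ mm K n :=
      Ideal.mul_mem_left _ _ (X_mem i)
    have hDy : der b (C (coeff 0 (b i))⁻¹ * (X i : MvPolynomial (Fin n) K)) - 1 ∈ mm K n := by
      have h1 : der b (C (coeff 0 (b i))⁻¹ * (X i : MvPolynomial (Fin n) K)) - 1 =
          C (coeff 0 (b i))⁻¹ * (b i - C (coeff 0 (b i))) := by
        rw [← MvPolynomial.smul_eq_C_mul, Derivation.map_smul, der, mkDerivation_X, mul_sub,
          ← C_mul, inv_mul_cancel₀ hα, C_1, MvPolynomial.smul_eq_C_mul]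
      rw [h1]
      exact Ideal.mul_mem_left _ _ (sub_C_mem _)
    haveI := finite_quot I q hq
    have h1 := dim_le (der b) (mm K n) hy hDy e (Pool.Agent.H12.Rig.S K n e)
      (fun u hu => Pool.Agent.H12.Rig.form_mem_pow le_rfl hu)
      (fun u hu hu2 => Pool.Agent.H12.Rig.form_pow_zero (Nat.lt_succ_self e) hu hu2) I hI
      (LinearMap.range (φ.restrictScalars K)) (fun g hg => ⟨⟨g, hg⟩, hD ⟨g, hg⟩⟩)
    rw [Pool.Agent.H12.Rig.finrank_S] at h1
    omega

end Pool.Agent.H66.Rig
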