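import Mathlib
import Pool.Agent.H66.Rig.Poly

/-!
# Generators and socle elements (MP_562323_ag)
-/

set_option autoImplicit false

namespace Pool.Agent.H66.Rig

open MvPolynomial

variable {K : Type*} [Field K] {n : ℕ}

/-- the property that some linear map is not induced by a derivation -/
def NotRigid (I : Ideal (MvPolynomial (Fin n) K)) : Prop :=
  ∃ φ : I →ₗ[MvPolynomial (Fin n) K] (MvPolynomial (Fin n) K ⧸ I),
    ¬ ∃ a : Fin n → MvPolynomial (Fin n) K ⧸ I, ∀ f : I,
      φ f = ∑ i : Fin n,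
        Ideal.Quotient.mk I (pderiv i (f : MvPolynomial (Fin n) K)) * a i

theorem mul_socle {I : Ideal (MvPolynomial (Fin n) K)} {s : MvPolynomial (Fin n) K}
    (hs : ∀ i, X i * s ∈ I) {p : MvPolynomial (Fin n) K} (hp : p ∈ mm K n) : p * s ∈ I := by
  have h : mm K n ≤ I.colon {s} := by
    rw [Ideal.span_le]
    rintro _ ⟨i, rfl⟩
    exact Submodule.mem_colon_singleton.2 (hs i)
  exact Submodule.mem_colon_singleton.1 (h hp)

/-- one variable -/
theorem one_var (I : Ideal (MvPolynomial (Fin 1) K)) (q : ℕ) (hq : mm K 1 ^ q ≤ I)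
    (hI : I ≤ mm K 1 ^ 2) : NotRigid I := by
  haveI : IsPrincipalIdealRing (MvPolynomial (Fin 1) K) :=
    IsPrincipalIdealRing.of_surjective (uniqueAlgEquiv K (Fin 1)).symm
      (uniqueAlgEquiv K (Fin 1)).symm.surjective
  obtain ⟨p, hp⟩ := (IsPrincipalIdealRing.principal I).principal
  have hp0 : p ≠ 0 := by
    rintro rfl
    have h1 : (X 0 : MvPolynomial (Fin 1) K) ^ q ∈ I := hq (Ideal.pow_mem_pow (X_mem 0) q)
    rw [hp] at h1
    simp at h1
  subst hp
  refine ⟨Submodule.mkQ _ ∘ₗ (LinearEquiv.toSpanNonzeroSingleton (MvPolynomial (Fin 1) K)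
    (MvPolynomial (Fin 1) K) p hp0).symm.toLinearMap, ?_⟩
  rintro ⟨a, ha⟩
  obtain ⟨b, hb⟩ := Ideal.Quotient.mk_surjective (a 0)
  have h1 := ha ⟨p, Submodule.mem_span_singleton_self p⟩
  have h2 : (LinearEquiv.toSpanNonzeroSingleton (MvPolynomial (Fin 1) K)
    (MvPolynomial (Fin 1) K) p hp0).symm ⟨p, Submodule.mem_span_singleton_self p⟩ = 1 := by
    rw [LinearEquiv.symm_apply_eq]
    ext1
    simp
  rw [LinearMap.comp_apply, LinearEquiv.coe_coe, h2, Fin.sum_univ_one, ← hb, ← map_mul] at h1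
  have h3 : (1 : MvPolynomial (Fin 1) K) - pderiv 0 p * b ∈
      Submodule.span (MvPolynomial (Fin 1) K) {p} := (Ideal.Quotient.mk_eq_mk_iff_sub_mem _ _).1 h1
  have h4 : pderiv 0 p ∈ mm K 1 ^ 1 :=
    der_pow (pderiv 0) _ 1 (hI (Submodule.mem_span_singleton_self p))
  rw [pow_one] at h4
  have h5 : (1 : MvPolynomial (Fin 1) K) - pderiv 0 p * b ∈ mm K 1 :=
    Ideal.pow_le_self (by norm_num) (hI h3)
  refine one_not_mem (K := K) (n := 1) ?_
  have h6 := Ideal.add_mem _ h5 (Ideal.mul_mem_right b _ h4)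
  rwa [sub_add_cancel] at h6

/-- **(B)** -/
theorem thmB [CharZero K] (hn : 1 ≤ n) (q j : ℕ) (I : Ideal (MvPolynomial (Fin n) K))
    (hq : mm K n ^ q ≤ I) (hI : I ≤ mm K n ^ 2)
    (f : MvPolynomial (Fin n) K) (hf : f ∈ I) (hf1 : f ∈ mm K n ^ j) (hf2 : f ∉ mm K n * I)
    (s : MvPolynomial (Fin n) K) (hs : ∀ i, X i * s ∈ I) (hs2 : s ∉ I ⊔ mm K n ^ j) :
    NotRigid I := by
  rcases Nat.lt_or_ge 1 n with hn2 | hn2
  swap
  · obtain rfl : n = 1 := by omega
    exact one_var I q hq hI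
  -- the functional
  obtain ⟨lam, hlf, hl⟩ := Submodule.exists_le_ker_of_notMem
    (p := (mm K n * I).restrictScalars K) (v := f) hf2
  have hl' : ∀ g ∈ mm K n * I, lam g = 0 := fun g hg => hl hg
  let φ : I →ₗ[MvPolynomial (Fin n) K] (MvPolynomial (Fin n) K ⧸ I) :=
    { toFun := fun g => lam (g : MvPolynomial (Fin n) K) • Ideal.Quotient.mk I s
      map_add' := fun g h => by simp [add_smul]
      map_smul' := fun p g => by
        have h1 : lam (p * (g : MvPolynomial (Fin n) K)) =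
            coeff 0 p * lam (g : MvPolynomial (Fin n) K) := by
          have h2 : p * (g : MvPolynomial (Fin n) K) =
              (p - C (coeff 0 p)) * (g : MvPolynomial (Fin n) K) +
                coeff 0 p • (g : MvPolynomial (Fin n) K) := by
            rw [MvPolynomial.smul_eq_C_mul]
            ring
          rw [h2, map_add, hl' _ (Ideal.mul_mem_mul (sub_C_mem p) g.2), zero_add, map_smul,
            smul_eq_mul]
        have h3 : Ideal.Quotient.mk I (p * s) = coeff 0 p • Ideal.Quotient.mk I s := by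
          have h4 : p * s = (p - C (coeff 0 p)) * s + coeff 0 p • s := by
            rw [MvPolynomial.smul_eq_C_mul]
            ring
          rw [h4, map_add, Ideal.Quotient.eq_zero_iff_mem.2 (mul_socle hs (sub_C_mem p)),
            zero_add]
          rfl
        show lam (p * (g : MvPolynomial (Fin n) K)) • Ideal.Quotient.mk I s =
          p • (lam (g : MvPolynomial (Fin n) K) • Ideal.Quotient.mk I s)
        have h5 : p • (lam (g : MvPolynomial (Fin n) K) • Ideal.Quotient.mk I s) =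
            lam (g : MvPolynomial (Fin n) K) • Ideal.Quotient.mk I (p * s) := by
          rw [smul_comm]
          rfl
        rw [h1, h5, h3, smul_smul, mul_comm] }
  have hφ : ∀ g : I, φ g = lam (g : MvPolynomial (Fin n) K) • Ideal.Quotient.mk I s :=
    fun g => rfl
  haveI := finite_quot I q hq
  refine ⟨φ, thmA 1 q j I hq hI φ ?_ ⟨f, hf⟩ hf1 ?_⟩
  · have h1 : LinearMap.range (φ.restrictScalars K) ≤
        Submodule.span K {Ideal.Quotient.mk I s} := by
      rintro _ ⟨g, rfl⟩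
      exact Submodule.smul_mem _ _ (Submodule.mem_span_singleton_self _)
    have h2 := Submodule.finrank_mono h1
    have h3 := finrank_span_le_card (R := K) ({Ideal.Quotient.mk I s} : Set _)
    simp only [Set.toFinset_singleton, Finset.card_singleton] at h3
    rw [Nat.choose_one_right]
    omega
  · intro g hg h1
    rw [hφ] at h1
    refine hs2 ?_
    have h2 : (lam f)⁻¹ • (lam f • s - g) ∈ I := by
      refine smul_mem' _ _ ?_
      rw [← Ideal.Quotient.eq_zero_iff_mem, map_sub, sub_eq_zero]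
      exact h1
    have h3 : s = (lam f)⁻¹ • (lam f • s - g) + (lam f)⁻¹ • g := by
      rw [smul_sub, smul_smul, inv_mul_cancel₀ hlf, one_smul]
      ring
    rw [h3]
    exact Submodule.add_mem_sup h2 (smul_mem' _ _ hg)

/-- **(C)** -/
theorem thmC [CharZero K] (J : Ideal (MvPolynomial (Fin n) K)) (hJ : J ≤ mm K n ^ 2) (s : ℕ)
    (hs : 2 ≤ s) (h : ¬ mm K n ^ s ≤ J ⊔ mm K n ^ (s + 1)) : NotRigid (J ⊔ mm K n ^ s) := by
  obtain ⟨f, hf, hf2⟩ := Set.not_subset.1 h
  have hn : 1 ≤ n := by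
    by_contra hcon
    obtain rfl : n = 0 := by omega
    have h1 : mm K 0 = ⊥ := by
      rw [mm, Set.range_eq_empty, Ideal.span_empty]
    refine h ?_
    rw [h1]
    obtain ⟨t, rfl⟩ : ∃ t, s = t + 1 := ⟨s - 1, by omega⟩
    rw [pow_succ, Ideal.mul_bot]
    exact bot_le
  obtain ⟨r, rfl⟩ : ∃ r, s = r + 1 := ⟨s - 1, by omega⟩
  have hle : mm K n * (J ⊔ mm K n ^ (r + 1)) ≤ J ⊔ mm K n ^ (r + 1 + 1) := by
    rw [Ideal.mul_sup]
    refine sup_le_sup Ideal.mul_le_right (le_of_eq ?_)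
    rw [pow_succ' _ (r + 1)]
  have h2 : ¬ mm K n ^ r ≤ J ⊔ mm K n ^ (r + 1) := by
    intro h3
    refine h (le_trans (le_trans (le_of_eq (pow_succ' _ r)) ?_) hle)
    exact Ideal.mul_mono le_rfl h3
  obtain ⟨t, ht, ht2⟩ := Set.not_subset.1 h2
  refine thmB hn (r + 1) (r + 1) (J ⊔ mm K n ^ (r + 1)) le_sup_right ?_ f
    (Ideal.mem_sup_right hf) hf (fun h3 => hf2 (hle h3)) t (fun i => ?_) ?_
  · exact sup_le hJ (Ideal.pow_le_pow_right hs)
  · refine Ideal.mem_sup_right ?_
    rw [pow_succ']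
    exact Ideal.mul_mem_mul (X_mem i) ht
  · rwa [sup_assoc, sup_idem]

end Pool.Agent.H66.Rig
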