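import Mathlib

/-!
# Two commuting operators: dimensions of the socle layers (MP_562323_ag)
-/

set_option autoImplicit false

namespace Pool.Agent.H66.Rig.Two

open Module

variable {K M N : Type*} [Field K] [AddCommGroup M] [Module K M] [AddCommGroup N] [Module K N]

theorem finrank_map_add [FiniteDimensional K M] (A : Submodule K M) (g : M →ₗ[K] N) :
    finrank K (A.map g) + finrank K (A ⊓ LinearMap.ker g : Submodule K M) = finrank K A := by
  have h1 := LinearMap.finrank_range_add_finrank_ker (g.domRestrict A)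
  have h2 : LinearMap.range (g.domRestrict A) = A.map g := by
    rw [LinearMap.range_domRestrict]
  have h3 : finrank K (LinearMap.ker (g.domRestrict A)) =
      finrank K (A ⊓ LinearMap.ker g : Submodule K M) := by
    have h4 : (LinearMap.ker (g.domRestrict A)).map A.subtype = A ⊓ LinearMap.ker g := by
      ext m
      constructor
      · rintro ⟨a, ha, rfl⟩
        exact ⟨a.2, ha⟩
      · rintro ⟨h, h'⟩
        exact ⟨⟨m, h⟩, h', rfl⟩
    rw [← h4]
    exact LinearEquiv.finrank_eq (Submodule.equivMapOfInjective A.subtype A.injective_subtype _)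
  rw [← h2, ← h3, h1]

theorem finrank_prod' [FiniteDimensional K M] [FiniteDimensional K N] (A : Submodule K M)
    (B : Submodule K N) : finrank K (A.prod B) = finrank K A + finrank K B := by
  have h1 := finrank_map_add (A.prod B) (LinearMap.fst K M N)
  have h2 : (A.prod B).map (LinearMap.fst K M N) = A := by
    ext m
    constructor
    · rintro ⟨⟨a, b⟩, ⟨ha, _⟩, rfl⟩
      exact ha
    · intro hm
      exact ⟨(m, 0), ⟨hm, B.zero_mem⟩, rfl⟩
  have h3 : (A.prod B ⊓ LinearMap.ker (LinearMap.fst K M N) : Submodule K (M × N)) =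
      B.map (LinearMap.inr K M N) := by
    ext ⟨m, b⟩
    constructor
    · rintro ⟨⟨_, hb⟩, hm⟩
      have hm' : m = 0 := hm
      exact ⟨b, hb, by rw [hm']; rfl⟩
    · rintro ⟨b', hb', h⟩
      have h4 : (0 : M) = m := congrArg Prod.fst h
      have h5 : b' = b := congrArg Prod.snd h
      subst h5
      exact ⟨⟨by rw [← h4]; exact A.zero_mem, hb'⟩, h4.symm⟩
  rw [h2, h3] at h1
  rw [← h1]
  congr 1
  exact (LinearEquiv.finrank_eq (Submodule.equivMapOfInjective _ LinearMap.inr_injective _)).symm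

theorem step [FiniteDimensional K M] (T : M →ₗ[K] M) (A B C : Submodule K M)
    (hAB : A ≤ B.comap T) (hCB : C ≤ B) :
    finrank K A + finrank K C ≤ finrank K (A ⊓ C.comap T : Submodule K M) + finrank K B := by
  have h1 := finrank_map_add A (C.mkQ ∘ₗ T)
  have h2 := finrank_map_add B C.mkQ
  have h3 : LinearMap.ker (C.mkQ ∘ₗ T) = C.comap T := by
    rw [LinearMap.ker_comp, Submodule.ker_mkQ]
  rw [h3] at h1
  rw [Submodule.ker_mkQ, inf_eq_right.2 hCB] at h2
  have h4 : A.map (C.mkQ ∘ₗ T) ≤ B.map C.mkQ := by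
    rintro _ ⟨a, ha, rfl⟩
    exact ⟨T a, hAB ha, rfl⟩
  have h5 := Submodule.finrank_mono h4
  omega

/-- the elements killed by all products of `k` operators -/
def V (x y : M →ₗ[K] M) : ℕ → Submodule K M
  | 0 => ⊥
  | k + 1 => (V x y k).comap x ⊓ (V x y k).comap y

theorem V_mono (x y : M →ₗ[K] M) (k : ℕ) : V x y k ≤ V x y (k + 1) := by
  induction k with
  | zero => exact bot_le
  | succ k ih => exact inf_le_inf (Submodule.comap_mono ih) (Submodule.comap_mono ih)

theorem three_le [FiniteDimensional K M] (x y : M →ₗ[K] M) (hxy : ∀ m, x (y m) = y (x m)) :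
    finrank K (V x y 3) ≤ 2 * finrank K (V x y 2) := by
  have h12 := V_mono x y 1
  -- (i)
  have h1 := step x (V x y 3) (V x y 2) (V x y 1) inf_le_left h12
  -- (ii)
  have h2 := step y (V x y 3 ⊓ (V x y 1).comap x) (V x y 2 ⊓ LinearMap.ker x) (V x y 1)
    (by
      rintro m ⟨hm, hm'⟩
      refine ⟨hm.2, ?_⟩
      show x (y m) = 0
      rw [hxy]
      exact hm'.2)
    (by
      intro m hm
      exact ⟨h12 hm, hm.1⟩)
  have h2' : finrank K ((V x y 3 ⊓ (V x y 1).comap x) ⊓ (V x y 1).comap y : Submodule K M) ≤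
      finrank K (V x y 2) := Submodule.finrank_mono (by
    rintro m ⟨⟨_, hm⟩, hm'⟩
    exact ⟨hm, hm'⟩)
  -- (iii)
  have h3 := step y (V x y 2 ⊓ LinearMap.ker x) (V x y 1) ⊥
    (by
      rintro m ⟨hm, _⟩
      exact hm.2) bot_le
  have h3' : finrank K ((V x y 2 ⊓ LinearMap.ker x) ⊓ (⊥ : Submodule K M).comap y :
      Submodule K M) ≤ finrank K (V x y 1) := Submodule.finrank_mono (by
    rintro m ⟨⟨_, hm⟩, hm'⟩
    exact ⟨hm, hm'⟩)
  rw [finrank_bot] at h3
  omega

theorem three_le' [FiniteDimensional K M] (x y l : M →ₗ[K] M)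
    (hl : V x y 3 ≤ (V x y 2).comap l) (hl2 : V x y 3 ⊓ (V x y 1).comap l ≤ V x y 2) :
    finrank K (V x y 3) + finrank K (V x y 1) ≤ 2 * finrank K (V x y 2) := by
  have h1 := step l (V x y 3) (V x y 2) (V x y 1) hl (V_mono x y 1)
  have h2 := Submodule.finrank_mono hl2
  omega

end Pool.Agent.H66.Rig.Two
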