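import Mathlib
import Pool.Agent.H66.Rig.TwoA
import Pool.Agent.H66.Rig.Socle

/-!
# Modules over algebras in two variables: a cocycle which is not induced by a derivation (MP_562323_ag)
-/

set_option autoImplicit false

namespace Pool.Agent.H66.Rig.Two

open Module MvPolynomial

variable {K M : Type*} [Field K] [AddCommGroup M] [Module K M]

section act

variable (A : MvPolynomial (Fin 2) K →ₐ[K] Module.End K M)

/-- the socle layers of `M` -/
noncomputable abbrev W (k : ℕ) : Submodule K M := V (A (X 0)) (A (X 1)) k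

theorem act_comm (g h : MvPolynomial (Fin 2) K) (u : M) : A g (A h u) = A h (A g u) := by
  rw [← Module.End.mul_apply, ← map_mul, mul_comm, map_mul, Module.End.mul_apply]

theorem W_stable (c : MvPolynomial (Fin 2) K) (k : ℕ) : ∀ u ∈ W A k, A c u ∈ W A k := by
  induction k with
  | zero =>
    intro u hu
    rw [show u = 0 from hu, map_zero]
    exact Submodule.zero_mem _
  | succ k ih =>
    rintro u ⟨h0, h1⟩
    refine ⟨?_, ?_⟩
    · show A (X 0) (A c u) ∈ W A k
      rw [act_comm]
      exact ih _ h0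
    · show A (X 1) (A c u) ∈ W A k
      rw [act_comm]
      exact ih _ h1

theorem W_mul (g : MvPolynomial (Fin 2) K) (hg : g ∈ mm K 2) (k : ℕ) (u : M)
    (hu : u ∈ W A (k + 1)) : A g u ∈ W A k := by
  have hg' : g ∈ Ideal.span (Set.range (X : Fin 2 → MvPolynomial (Fin 2) K)) := hg
  rw [Ideal.mem_span_range_iff_exists_fun] at hg'
  obtain ⟨c, hc⟩ := hg'
  rw [Fin.sum_univ_two] at hc
  rw [← hc, map_add, map_mul, map_mul, LinearMap.add_apply]
  exact Submodule.add_mem _ (W_stable A _ k _ hu.1) (W_stable A _ k _ hu.2)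

theorem W_pow (j : ℕ) : ∀ (g : MvPolynomial (Fin 2) K), g ∈ mm K 2 ^ j → ∀ (k : ℕ) (u : M),
    u ∈ W A (j + k) → A g u ∈ W A k := by
  induction j with
  | zero =>
    intro g _ k u hu
    rw [zero_add] at hu
    exact W_stable A g k u hu
  | succ j ih =>
    intro g hg k u hu
    rw [pow_succ] at hg
    refine Submodule.mul_induction_on hg ?_ ?_
    · intro a ha b hb
      rw [map_mul, Module.End.mul_apply]
      refine ih a ha k _ ?_
      refine W_mul A b hb (j + k) u ?_
      rwa [show j + k + 1 = j + 1 + k by ring]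
    · intro a b ha hb
      rw [map_add, LinearMap.add_apply]
      exact Submodule.add_mem _ ha hb

/-- Nakayama's lemma -/
theorem exists_functional [Nontrivial M] (N : ℕ) (hN : ∀ g ∈ mm K 2 ^ N, A g = 0) :
    ∃ l : M →ₗ[K] K, l ≠ 0 ∧ (∀ u, l (A (X 0) u) = 0) ∧ ∀ u, l (A (X 1) u) = 0 := by
  let P : Submodule K M := LinearMap.range (A (X 0)) ⊔ LinearMap.range (A (X 1))
  have hP : P < ⊤ := by
    rw [lt_top_iff_ne_top]
    intro hP
    have key : ∀ k : ℕ, Submodule.span K {u : M | ∃ g ∈ mm K 2 ^ k, ∃ v, u = A g v} = ⊤ := by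
      intro k
      induction k with
      | zero =>
        rw [Submodule.eq_top_iff']
        intro u
        refine Submodule.subset_span ⟨1, ?_, u, ?_⟩
        · rw [pow_zero, Ideal.one_eq_top]
          trivial
        · rw [map_one]
          rfl
      | succ k ih =>
        have hX : ∀ i : Fin 2, LinearMap.range (A (X i)) ≤
            Submodule.span K {u : M | ∃ g ∈ mm K 2 ^ (k + 1), ∃ v, u = A g v} := by
          intro i
          rw [LinearMap.range_eq_map, ← ih, Submodule.map_span_le]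
          rintro _ ⟨g, hg, v, rfl⟩
          refine Submodule.subset_span ⟨X i * g, ?_, v, ?_⟩
          · rw [pow_succ']
            exact Ideal.mul_mem_mul (Ideal.subset_span ⟨i, rfl⟩) hg
          · rw [map_mul]
            rfl
        rw [eq_top_iff, ← hP]
        exact sup_le (hX 0) (hX 1)
    have h1 := key N
    have h2 : Submodule.span K {u : M | ∃ g ∈ mm K 2 ^ N, ∃ v, u = A g v} ≤ ⊥ := by
      rw [Submodule.span_le]
      rintro _ ⟨g, hg, v, rfl⟩
      rw [hN g hg]
      rfl
    rw [h1] at h2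
    exact bot_ne_top (le_antisymm bot_le h2)
  obtain ⟨l, hl, hlP⟩ := Submodule.exists_le_ker_of_lt_top P hP
  refine ⟨l, hl, fun u => hlP (Submodule.mem_sup_left ⟨u, rfl⟩), fun u =>
    hlP (Submodule.mem_sup_right ⟨u, rfl⟩)⟩

end act

theorem exists_socle (I0 : Ideal (MvPolynomial (Fin 2) K)) (h1 : I0 ≠ ⊤) (N : ℕ)
    (hN : mm K 2 ^ N ≤ I0) :
    ∃ s : MvPolynomial (Fin 2) K, s ∉ I0 ∧ X 0 * s ∈ I0 ∧ X 1 * s ∈ I0 := by
  classical
  have hex : ∃ k, mm K 2 ^ k ≤ I0 := ⟨N, hN⟩
  have h2 := Nat.find_spec hex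
  obtain ⟨k, hk⟩ : ∃ k, Nat.find hex = k + 1 := by
    refine Nat.exists_eq_succ_of_ne_zero ?_
    intro h0
    rw [h0, pow_zero, Ideal.one_eq_top] at h2
    exact h1 (top_le_iff.1 h2)
  have h3 := Nat.find_min hex (show k < Nat.find hex by omega)
  obtain ⟨s, hs, hsI⟩ := Set.not_subset.1 h3
  refine ⟨s, hsI, ?_, ?_⟩
  · refine h2 ?_
    rw [hk, pow_succ']
    exact Ideal.mul_mem_mul (Ideal.subset_span ⟨0, rfl⟩) hs
  · refine h2 ?_
    rw [hk, pow_succ']
    exact Ideal.mul_mem_mul (Ideal.subset_span ⟨1, rfl⟩) hs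

end Pool.Agent.H66.Rig.Two
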