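import Mathlib
import Pool.Agent.H66.Rig.TwoB

/-!
# Modules over algebras in two variables: the dimension count (MP_562323_ag)
-/

set_option autoImplicit false

namespace Pool.Agent.H66.Rig.Two

open Module MvPolynomial

variable {K M : Type*} [Field K] [AddCommGroup M] [Module K M]

section

variable (A : MvPolynomial (Fin 2) K →ₐ[K] Module.End K M) (I0 : Ideal (MvPolynomial (Fin 2) K))

theorem pd_self (i : Fin 2) (f : MvPolynomial (Fin 2) K) :
    pderiv i (X i * f) = X i * pderiv i f + f := by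
  rw [Derivation.leibniz, pderiv_X_self, smul_eq_mul, smul_eq_mul, mul_one]

theorem pd_ne (i k : Fin 2) (h : k ≠ i) (f : MvPolynomial (Fin 2) K) :
    pderiv i (X k * f) = X k * pderiv i f := by
  rw [Derivation.leibniz, pderiv_X_of_ne h, smul_zero, add_zero, smul_eq_mul]

theorem exists_lift (D : MvPolynomial (Fin 2) K →ₗ[K] M) (h : ∀ g ∈ I0, D g = 0) :
    ∃ ψ : (MvPolynomial (Fin 2) K ⧸ I0) →ₗ[K] M, ∀ f, ψ (Ideal.Quotient.mk I0 f) = D f := by
  obtain ⟨s, hs⟩ := LinearMap.exists_rightInverse_of_surjective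
    (Ideal.Quotient.mkₐ K I0).toLinearMap
    (LinearMap.range_eq_top.2 (Ideal.Quotient.mkₐ_surjective K I0))
  refine ⟨D ∘ₗ s, fun f => ?_⟩
  have h1 : Ideal.Quotient.mk I0 (s (Ideal.Quotient.mk I0 f)) = Ideal.Quotient.mk I0 f :=
    LinearMap.congr_fun hs (Ideal.Quotient.mk I0 f)
  have h2 := h _ ((Ideal.Quotient.mk_eq_mk_iff_sub_mem _ _).1 h1)
  rw [map_sub, sub_eq_zero] at h2
  exact h2

/-- multiplication by a variable on `B = K[x, y] / I0` -/
noncomputable def LX (i : Fin 2) :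
    (MvPolynomial (Fin 2) K ⧸ I0) →ₗ[K] (MvPolynomial (Fin 2) K ⧸ I0) :=
  LinearMap.mulLeft K (Ideal.Quotient.mk I0 (X i))

theorem LX_mk (i : Fin 2) (f : MvPolynomial (Fin 2) K) :
    LX I0 i (Ideal.Quotient.mk I0 f) = Ideal.Quotient.mk I0 (X i * f) := by
  show Ideal.Quotient.mk I0 (X i) * Ideal.Quotient.mk I0 f = _
  rw [map_mul]

/-- the second map of the Koszul complex of `Hom (B, M)` -/
noncomputable def G : (((MvPolynomial (Fin 2) K ⧸ I0) →ₗ[K] M) ×
    ((MvPolynomial (Fin 2) K ⧸ I0) →ₗ[K] M)) →ₗ[K] ((MvPolynomial (Fin 2) K ⧸ I0) →ₗ[K] M) where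
  toFun p := A (X 0) ∘ₗ p.2 - p.2 ∘ₗ LX I0 0 - (A (X 1) ∘ₗ p.1 - p.1 ∘ₗ LX I0 1)
  map_add' p q := by
    refine LinearMap.ext fun b => ?_
    simp only [LinearMap.sub_apply, LinearMap.comp_apply, LinearMap.add_apply, Prod.fst_add,
      Prod.snd_add, map_add]
    abel
  map_smul' c p := by
    refine LinearMap.ext fun b => ?_
    simp only [LinearMap.sub_apply, LinearMap.comp_apply, LinearMap.smul_apply, Prod.smul_fst,
      Prod.smul_snd, map_smul, RingHom.id_apply, smul_sub]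

variable (hA : ∀ g ∈ I0, A g = 0)

/-- the action of `B` -/
noncomputable def A' : (MvPolynomial (Fin 2) K ⧸ I0) →ₐ[K] Module.End K M :=
  Ideal.Quotient.liftₐ I0 A hA

theorem A'_mk (f : MvPolynomial (Fin 2) K) : A' A I0 hA (Ideal.Quotient.mk I0 f) = A f :=
  Ideal.Quotient.liftₐ_apply I0 A hA _

/-- the maps induced by coboundaries and derivations -/
noncomputable def Gam : (((MvPolynomial (Fin 2) K ⧸ I0) →ₗ[K] M) × (M × M)) →ₗ[K]
    (((MvPolynomial (Fin 2) K ⧸ I0) →ₗ[K] M) × ((MvPolynomial (Fin 2) K ⧸ I0) →ₗ[K] M)) where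
  toFun t := (t.1 ∘ₗ LX I0 0 - A (X 0) ∘ₗ t.1 + (A' A I0 hA).toLinearMap.flip t.2.1,
    t.1 ∘ₗ LX I0 1 - A (X 1) ∘ₗ t.1 + (A' A I0 hA).toLinearMap.flip t.2.2)
  map_add' p q := by
    refine Prod.ext ?_ ?_
    · refine LinearMap.ext fun b => ?_
      simp only [LinearMap.sub_apply, LinearMap.comp_apply, LinearMap.add_apply, Prod.fst_add,
        Prod.snd_add, map_add]
      abel
    · refine LinearMap.ext fun b => ?_
      simp only [LinearMap.sub_apply, LinearMap.comp_apply, LinearMap.add_apply, Prod.fst_add,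
        Prod.snd_add, map_add]
      abel
  map_smul' c p := by
    refine Prod.ext ?_ ?_
    · refine LinearMap.ext fun b => ?_
      simp only [LinearMap.sub_apply, LinearMap.comp_apply, LinearMap.smul_apply, Prod.smul_fst,
        Prod.smul_snd, map_smul, RingHom.id_apply, smul_sub, LinearMap.add_apply, smul_add]
    · refine LinearMap.ext fun b => ?_
      simp only [LinearMap.sub_apply, LinearMap.comp_apply, LinearMap.smul_apply, Prod.smul_fst,
        Prod.smul_snd, map_smul, RingHom.id_apply, smul_sub, LinearMap.add_apply, smul_add]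

theorem Gam_fst (t : ((MvPolynomial (Fin 2) K ⧸ I0) →ₗ[K] M) × (M × M))
    (f : MvPolynomial (Fin 2) K) :
    (Gam A I0 hA t).1 (Ideal.Quotient.mk I0 f) = t.1 (Ideal.Quotient.mk I0 (X 0 * f)) -
      A (X 0) (t.1 (Ideal.Quotient.mk I0 f)) + A f t.2.1 := by
  show t.1 (LX I0 0 (Ideal.Quotient.mk I0 f)) - A (X 0) (t.1 (Ideal.Quotient.mk I0 f)) +
    A' A I0 hA (Ideal.Quotient.mk I0 f) t.2.1 = _
  rw [LX_mk, A'_mk]

theorem Gam_snd (t : ((MvPolynomial (Fin 2) K ⧸ I0) →ₗ[K] M) × (M × M))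
    (f : MvPolynomial (Fin 2) K) :
    (Gam A I0 hA t).2 (Ideal.Quotient.mk I0 f) = t.1 (Ideal.Quotient.mk I0 (X 1 * f)) -
      A (X 1) (t.1 (Ideal.Quotient.mk I0 f)) + A f t.2.2 := by
  show t.1 (LX I0 1 (Ideal.Quotient.mk I0 f)) - A (X 1) (t.1 (Ideal.Quotient.mk I0 f)) +
    A' A I0 hA (Ideal.Quotient.mk I0 f) t.2.2 = _
  rw [LX_mk, A'_mk]

theorem finrank_ker_G [FiniteDimensional K M] [FiniteDimensional K (MvPolynomial (Fin 2) K ⧸ I0)]
    [Nontrivial M] (h1 : I0 ≠ ⊤) (N : ℕ) (hN : mm K 2 ^ N ≤ I0) (hA : ∀ g ∈ I0, A g = 0) :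
    finrank K (MvPolynomial (Fin 2) K ⧸ I0) * finrank K M + 1 ≤
      finrank K (LinearMap.ker (G A I0)) := by
  obtain ⟨l, hl0, hlx, hly⟩ := exists_functional A N fun g hg => hA g (hN hg)
  obtain ⟨s, hs, hsx, hsy⟩ := exists_socle I0 h1 N hN
  let F : ((MvPolynomial (Fin 2) K ⧸ I0) →ₗ[K] M) →ₗ[K] K :=
    l ∘ₗ (LinearMap.applyₗ (Ideal.Quotient.mk I0 s))
  have hF : ∀ γ, F γ = l (γ (Ideal.Quotient.mk I0 s)) := fun γ => rfl
  have hF0 : F ≠ 0 := by
    obtain ⟨m, hm⟩ : ∃ m, l m ≠ 0 := by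
      by_contra hcon
      push Not at hcon
      exact hl0 (LinearMap.ext hcon)
    obtain ⟨μ, hμ⟩ : ∃ μ : Dual K (MvPolynomial (Fin 2) K ⧸ I0), μ (Ideal.Quotient.mk I0 s) ≠ 0 := by
      by_contra hcon
      push Not at hcon
      have := (Module.forall_dual_apply_eq_zero_iff K _).1 hcon
      exact hs (Ideal.Quotient.eq_zero_iff_mem.1 this)
    intro hcon
    have h2 : F (μ.smulRight m) = 0 := by rw [hcon]; rfl
    rw [hF, LinearMap.smulRight_apply, map_smul, smul_eq_mul, mul_eq_zero] at h2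
    rcases h2 with h2 | h2
    · exact hμ h2
    · exact hm h2
  have hrange : LinearMap.range (G A I0) ≤ LinearMap.ker F := by
    rintro _ ⟨⟨α, β⟩, rfl⟩
    rw [LinearMap.mem_ker, hF]
    show l (A (X 0) (β (Ideal.Quotient.mk I0 s)) - β (LX I0 0 (Ideal.Quotient.mk I0 s)) -
      (A (X 1) (α (Ideal.Quotient.mk I0 s)) - α (LX I0 1 (Ideal.Quotient.mk I0 s)))) = 0
    rw [LX_mk, LX_mk, Ideal.Quotient.eq_zero_iff_mem.2 hsx, Ideal.Quotient.eq_zero_iff_mem.2 hsy]
    simp only [map_zero, map_sub, hlx, hly, sub_zero]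
  have h3 := Submodule.finrank_mono hrange
  have h4 := LinearMap.finrank_range_add_finrank_ker F
  have h5 : finrank K (LinearMap.range F) = 1 := by
    rw [LinearMap.range_eq_top.2 (LinearMap.surjective hF0), finrank_top, finrank_self]
  have h6 := LinearMap.finrank_range_add_finrank_ker (G A I0)
  rw [Module.finrank_prod, Module.finrank_linearMap] at h6
  rw [Module.finrank_linearMap] at h4
  omega

/-- the pairs which define derivations on `K[x, y] / I0` -/
def Dd : Submodule K (M × M) where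
  carrier := {t | ∀ g ∈ I0, A (pderiv 0 g) t.1 + A (pderiv 1 g) t.2 = 0}
  add_mem' := by
    intro a b ha hb g hg
    rw [Prod.fst_add, Prod.snd_add, map_add, map_add, add_add_add_comm, ha g hg, hb g hg, add_zero]
  zero_mem' := by
    intro g _
    rw [Prod.fst_zero, Prod.snd_zero, map_zero, map_zero, add_zero]
  smul_mem' := by
    intro c a ha g hg
    rw [Prod.smul_fst, Prod.smul_snd, map_smul, map_smul, ← smul_add, ha g hg, smul_zero]

theorem finrank_ker_Gam [FiniteDimensional K M]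
    [FiniteDimensional K (MvPolynomial (Fin 2) K ⧸ I0)] :
    finrank K M + finrank K (Dd A I0) ≤ finrank K (LinearMap.ker (Gam A I0 hA)) := by
  let pr : (((MvPolynomial (Fin 2) K ⧸ I0) →ₗ[K] M) × (M × M)) →ₗ[K] M × (M × M) :=
    LinearMap.prod ((LinearMap.applyₗ (Ideal.Quotient.mk I0 1)) ∘ₗ LinearMap.fst K _ _)
      (LinearMap.snd K _ _)
  have h1 : Submodule.prod (⊤ : Submodule K M) (Dd A I0) ≤
      (LinearMap.ker (Gam A I0 hA)).map pr := by
    rintro ⟨m, u, v⟩ ⟨-, huv⟩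
    let D : MvPolynomial (Fin 2) K →ₗ[K] M :=
      A.toLinearMap.flip m - (A.toLinearMap.flip u ∘ₗ (pderiv 0).toLinearMap) -
        (A.toLinearMap.flip v ∘ₗ (pderiv 1).toLinearMap)
    have hD : ∀ f, D f = A f m - A (pderiv 0 f) u - A (pderiv 1 f) v := fun f => rfl
    obtain ⟨ψ, hψ⟩ := exists_lift I0 D (by
      intro g hg
      have h2 : A (pderiv 0 g) u + A (pderiv 1 g) v = 0 := huv g hg
      rw [hD, hA g hg, LinearMap.zero_apply, zero_sub, ← neg_add', h2, neg_zero])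
    refine ⟨(ψ, (u, v)), ?_, ?_⟩
    · show Gam A I0 hA (ψ, (u, v)) = 0
      refine Prod.ext ?_ ?_
      · refine LinearMap.ext fun b => ?_
        obtain ⟨f, rfl⟩ := Ideal.Quotient.mk_surjective b
        rw [Gam_fst]
        show ψ (Ideal.Quotient.mk I0 (X 0 * f)) - A (X 0) (ψ (Ideal.Quotient.mk I0 f)) + A f u = 0
        rw [hψ, hψ, hD, hD, pd_self, pd_ne 1 0 (by decide)]
        simp only [map_mul, map_add, map_sub, LinearMap.add_apply, Module.End.mul_apply]
        abel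
      · refine LinearMap.ext fun b => ?_
        obtain ⟨f, rfl⟩ := Ideal.Quotient.mk_surjective b
        rw [Gam_snd]
        show ψ (Ideal.Quotient.mk I0 (X 1 * f)) - A (X 1) (ψ (Ideal.Quotient.mk I0 f)) + A f v = 0
        rw [hψ, hψ, hD, hD, pd_self, pd_ne 0 1 (by decide)]
        simp only [map_mul, map_add, map_sub, LinearMap.add_apply, Module.End.mul_apply]
        abel
    · show (ψ (Ideal.Quotient.mk I0 1), (u, v)) = (m, (u, v))
      rw [hψ, hD, (pderiv 0).map_one_eq_zero, (pderiv 1).map_one_eq_zero, map_one, map_zero,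
        LinearMap.zero_apply, sub_zero, LinearMap.zero_apply, sub_zero]
      rfl
  have h2 := Submodule.finrank_mono h1
  have h3 : finrank K ((LinearMap.ker (Gam A I0 hA)).map pr) ≤
      finrank K (LinearMap.ker (Gam A I0 hA)) := Submodule.finrank_map_le _ _
  rw [finrank_prod'] at h2
  rw [finrank_top] at h2
  omega

/-- the pairs in the second socle layer killed by the derivatives of `f` -/
noncomputable def hh (f : MvPolynomial (Fin 2) K) : M × M →ₗ[K] M :=
  (A (pderiv 0 f)) ∘ₗ LinearMap.fst K M M + (A (pderiv 1 f)) ∘ₗ LinearMap.snd K M M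

theorem hh_apply (f : MvPolynomial (Fin 2) K) (t : M × M) :
    hh A f t = A (pderiv 0 f) t.1 + A (pderiv 1 f) t.2 := rfl

noncomputable def Tt (f : MvPolynomial (Fin 2) K) : Submodule K (M × M) :=
  (W A 2).prod (W A 2) ⊓ LinearMap.ker (hh A f)

theorem finrank_Dd [FiniteDimensional K M] (hA : ∀ g ∈ I0, A g = 0)
    (p q : K) (hp : p ≠ 0) (hq : q ≠ 0)
    (hE : ∀ g ∈ I0, C p * X 0 * pderiv 0 g + C q * X 1 * pderiv 1 g ∈ I0)
    (f : MvPolynomial (Fin 2) K)
    (hf : ∀ g ∈ I0, ∃ c : K, g - C c * f ∈ mm K 2 ^ 3) :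
    finrank K M + finrank K (Tt A f) ≤ finrank K (Dd A I0) + finrank K (W A 3) := by
  let κ : M × (M × M) →ₗ[K] M × M :=
    LinearMap.prod (p • (A (X 0)) ∘ₗ LinearMap.fst K _ _ + LinearMap.fst K _ _ ∘ₗ LinearMap.snd K _ _)
      (q • (A (X 1)) ∘ₗ LinearMap.fst K _ _ + LinearMap.snd K _ _ ∘ₗ LinearMap.snd K _ _)
  have hκ : ∀ m a b, κ (m, (a, b)) = (p • A (X 0) m + a, q • A (X 1) m + b) := fun _ _ _ => rfl
  let P : Submodule K (M × (M × M)) := Submodule.prod ⊤ (Tt A f)
  have h1 := finrank_map_add P κ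
  have h2 : finrank K P = finrank K M + finrank K (Tt A f) := by
    rw [finrank_prod', finrank_top]
  have h3 : P.map κ ≤ Dd A I0 := by
    rintro _ ⟨⟨m, a, b⟩, ⟨-, ⟨ha, hb⟩, hab⟩, rfl⟩
    have hab' : A (pderiv 0 f) a + A (pderiv 1 f) b = 0 := hab
    rw [hκ]
    intro g hg
    show A (pderiv 0 g) (p • A (X 0) m + a) + A (pderiv 1 g) (q • A (X 1) m + b) = 0
    have h4 : A (C p * X 0 * pderiv 0 g + C q * X 1 * pderiv 1 g) m = 0 := by
      rw [hA _ (hE g hg)]
      rfl
    have hC : ∀ (c : K) (v : M), A (C c) v = c • v := by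
      intro c v
      have : A (C c) = algebraMap K _ c := AlgHom.commutes A c
      rw [this]
      rfl
    have h5 : A (pderiv 0 g) (p • A (X 0) m) + A (pderiv 1 g) (q • A (X 1) m) = 0 := by
      rw [map_add, map_mul, map_mul, map_mul, map_mul, LinearMap.add_apply] at h4
      simp only [Module.End.mul_apply, hC] at h4
      rw [map_smul, map_smul, act_comm A (pderiv 0 g), act_comm A (pderiv 1 g)]
      exact h4
    obtain ⟨c, hc⟩ := hf g hg
    have h6 : ∀ i : Fin 2, ∀ v ∈ W A 2, A (pderiv i g) v = c • A (pderiv i f) v := by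
      intro i v hv
      have h7 : pderiv i (g - C c * f) ∈ mm K 2 ^ 2 := der_pow (pderiv i) _ 2 hc
      have h8 : A (pderiv i (g - C c * f)) v = 0 := W_pow A 2 _ h7 0 v hv
      rw [map_sub, pderiv_C_mul, map_sub, LinearMap.sub_apply, sub_eq_zero] at h8
      rw [h8, MvPolynomial.C_mul', map_smul]
      rfl
    rw [map_add, map_add, add_add_add_comm, h5, zero_add, h6 0 a ha, h6 1 b hb, ← smul_add, hab',
      smul_zero]
  have h4 := Submodule.finrank_mono h3
  have h5 : finrank K (P ⊓ LinearMap.ker κ : Submodule K (M × (M × M))) ≤ finrank K (W A 3) := by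
    have h6 := finrank_map_add (P ⊓ LinearMap.ker κ : Submodule K (M × (M × M)))
      (LinearMap.fst K M (M × M))
    have h7 : (P ⊓ LinearMap.ker κ : Submodule K (M × (M × M))).map (LinearMap.fst K M (M × M)) ≤
        W A 3 := by
      rintro _ ⟨⟨m, a, b⟩, ⟨⟨-, ⟨ha, hb⟩, -⟩, hk⟩, rfl⟩
      have hk' : (p • A (X 0) m + a, q • A (X 1) m + b) = (0 : M × M) := hk
      have hk1 : p • A (X 0) m + a = 0 := congrArg Prod.fst hk'
      have hk2 : q • A (X 1) m + b = 0 := congrArg Prod.snd hk'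
      refine ⟨?_, ?_⟩
      · show A (X 0) m ∈ W A 2
        have h8 : A (X 0) m = p⁻¹ • (-a) := by
          rw [← eq_neg_of_add_eq_zero_left hk1, smul_smul, inv_mul_cancel₀ hp, one_smul]
        rw [h8]
        exact Submodule.smul_mem _ _ (Submodule.neg_mem _ ha)
      · show A (X 1) m ∈ W A 2
        have h8 : A (X 1) m = q⁻¹ • (-b) := by
          rw [← eq_neg_of_add_eq_zero_left hk2, smul_smul, inv_mul_cancel₀ hq, one_smul]
        rw [h8]
        exact Submodule.smul_mem _ _ (Submodule.neg_mem _ hb)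
    have h8 : ((P ⊓ LinearMap.ker κ) ⊓ LinearMap.ker (LinearMap.fst K M (M × M)) :
        Submodule K (M × (M × M))) = ⊥ := by
      rw [eq_bot_iff]
      rintro ⟨m, a, b⟩ ⟨⟨-, hk⟩, hm⟩
      have hk' : (p • A (X 0) m + a, q • A (X 1) m + b) = (0 : M × M) := hk
      have hm' : m = 0 := hm
      subst hm'
      rw [map_zero, map_zero, smul_zero, smul_zero, zero_add, zero_add] at hk'
      have hk1 : a = 0 := congrArg Prod.fst hk'
      have hk2 : b = 0 := congrArg Prod.snd hk'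
      subst hk1
      subst hk2
      exact Submodule.zero_mem _
    rw [h8, finrank_bot, add_zero] at h6
    rw [← h6]
    exact Submodule.finrank_mono h7
  omega

/-- `T` for `f` of order at least three -/
theorem finrank_Tt_three [FiniteDimensional K M] (f : MvPolynomial (Fin 2) K)
    (hf : f ∈ mm K 2 ^ 3) : finrank K (W A 3) ≤ finrank K (Tt A f) := by
  have h1 : Tt A f = (W A 2).prod (W A 2) := by
    rw [Tt, inf_eq_left]
    rintro ⟨a, b⟩ ⟨ha, hb⟩
    show A (pderiv 0 f) a + A (pderiv 1 f) b = 0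
    have h2 : A (pderiv 0 f) a = 0 := W_pow A 2 _ (der_pow (pderiv 0) _ 2 hf) 0 a ha
    have h3 : A (pderiv 1 f) b = 0 := W_pow A 2 _ (der_pow (pderiv 1) _ 2 hf) 0 b hb
    rw [h2, h3, add_zero]
  rw [h1, finrank_prod']
  have h2 : finrank K (W A 3) ≤ 2 * finrank K (W A 2) :=
    three_le (A (X 0)) (A (X 1)) (fun m => act_comm A _ _ m)
  omega

theorem finrank_Tt_two [FiniteDimensional K M] (f : MvPolynomial (Fin 2) K)
    (hf : f ∈ mm K 2 ^ 2) (l : M →ₗ[K] M) (hl : W A 3 ≤ (W A 2).comap l)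
    (hl2 : W A 3 ⊓ (W A 1).comap l ≤ W A 2) : finrank K (W A 3) ≤ finrank K (Tt A f) := by
  have h1 : finrank K (W A 3) + finrank K (W A 1) ≤ 2 * finrank K (W A 2) :=
    three_le' (A (X 0)) (A (X 1)) l hl hl2
  have h2 := finrank_map_add ((W A 2).prod (W A 2)) (hh A f)
  have h3 : ((W A 2).prod (W A 2)).map (hh A f) ≤ W A 1 := by
    rintro _ ⟨⟨a, b⟩, ⟨ha, hb⟩, rfl⟩
    rw [hh_apply]
    have h4 : pderiv 0 f ∈ mm K 2 ^ 1 := der_pow (pderiv 0) _ 1 hf
    have h5 : pderiv 1 f ∈ mm K 2 ^ 1 := der_pow (pderiv 1) _ 1 hf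
    exact Submodule.add_mem _ (W_pow A 1 _ h4 1 a ha) (W_pow A 1 _ h5 1 b hb)
  have h4 := Submodule.finrank_mono h3
  rw [finrank_prod'] at h2
  have h5 : finrank K (Tt A f) = finrank K ((W A 2).prod (W A 2) ⊓ LinearMap.ker (hh A f) :
    Submodule K (M × M)) := rfl
  omega

end

end Pool.Agent.H66.Rig.Two
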