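import Mathlib
import Pool.Agent.H66.Rig.TwoC
import Pool.Agent.H12.Rig.Psi

/-!
# Cocycles with values in a module, polynomials in two variables (MP_562323_ag)
-/

set_option autoImplicit false

namespace Pool.Agent.H66.Rig.Two

open Module MvPolynomial

variable {K M : Type*} [Field K] [AddCommGroup M] [Module K M]

/-- a cocycle is a coboundary of a linear map on polynomials -/
theorem exists_PsiP (A : MvPolynomial (Fin 2) K →ₐ[K] Module.End K M)
    (α β : MvPolynomial (Fin 2) K →ₗ[K] M)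
    (hc : ∀ r, A (X 0) (β r) + α (X 1 * r) = A (X 1) (α r) + β (X 0 * r)) :
    ∃ Ψ : MvPolynomial (Fin 2) K →ₗ[K] M, Ψ 1 = 0 ∧
      (∀ f, Ψ (X 0 * f) = A (X 0) (Ψ f) + α f) ∧ (∀ f, Ψ (X 1 * f) = A (X 1) (Ψ f) + β f) := by
  let Dt : Fin 2 → MvPolynomial (Fin 2) K →ₗ[K] M := ![α, β]
  have hAc : ∀ (a b : Fin 2) (v : M), A (X a) (A (X b) v) = A (X b) (A (X a) v) := by
    intro a b v
    have h : A (X a) * A (X b) = A (X b) * A (X a) := by
      rw [← map_mul, ← map_mul, mul_comm]
    exact LinearMap.congr_fun h v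
  have hc' : ∀ a b f, A (X a) (Dt b f) + Dt a (X b * f) = A (X b) (Dt a f) + Dt b (X a * f) := by
    intro a b f
    fin_cases a <;> fin_cases b
    · rfl
    · exact hc f
    · exact (hc f).symm
    · rfl
  let Y : Fin 2 → Module.End K (MvPolynomial (Fin 2) K × M) := fun b =>
    LinearMap.prod (LinearMap.mulLeft K (X b) ∘ₗ LinearMap.fst K _ _)
      (A (X b) ∘ₗ LinearMap.snd K _ _ + Dt b ∘ₗ LinearMap.fst K _ _)
  have hY : ∀ b f v, Y b (f, v) = (X b * f, A (X b) v + Dt b f) := fun b f v => rfl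
  have hYc : ∀ a b, Y a * Y b = Y b * Y a := by
    intro a b
    refine LinearMap.ext fun ⟨f, v⟩ => ?_
    show Y a (Y b (f, v)) = Y b (Y a (f, v))
    rw [hY, hY, hY, hY]
    refine Prod.ext ?_ ?_
    · show X a * (X b * f) = X b * (X a * f)
      ring
    · show A (X a) (A (X b) v + Dt b f) + Dt a (X b * f) =
        A (X b) (A (X a) v + Dt a f) + Dt b (X a * f)
      rw [map_add, map_add, hAc a b v, add_assoc, add_assoc, hc' a b f]
  obtain ⟨F, hF⟩ := Pool.Agent.H12.Rig.exists_algHom (K := K) Y hYc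
  have h1 : ∀ f, (F f (1, 0)).1 = f := by
    intro f
    induction f using MvPolynomial.induction_on with
    | C c =>
      have : F (C c) = algebraMap K _ c := by
        rw [← MvPolynomial.algebraMap_eq]
        exact AlgHom.commutes F c
      rw [this]
      show (c • ((1 : MvPolynomial (Fin 2) K), (0 : M))).1 = C c
      show c • (1 : MvPolynomial (Fin 2) K) = C c
      rw [MvPolynomial.smul_eq_C_mul, mul_one]
    | add p q hp hq =>
      rw [map_add, LinearMap.add_apply, Prod.fst_add, hp, hq]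
    | mul_X p a hp =>
      rw [mul_comm, map_mul, hF]
      show (Y a (F p (1, 0))).1 = X a * p
      have : F p (1, 0) = ((F p (1, 0)).1, (F p (1, 0)).2) := rfl
      rw [this, hY, hp]
  have key : ∀ a f, (F (X a * f) (1, 0)).2 = A (X a) (F f (1, 0)).2 + Dt a f := by
    intro a f
    rw [map_mul, hF]
    show (Y a (F f (1, 0))).2 = _
    have : F f (1, 0) = ((F f (1, 0)).1, (F f (1, 0)).2) := rfl
    rw [this, hY, h1]
  refine ⟨LinearMap.snd K _ _ ∘ₗ LinearMap.applyₗ
    ((1 : MvPolynomial (Fin 2) K), (0 : M)) ∘ₗ F.toLinearMap, ?_, ?_, ?_⟩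
  · show (F 1 (1, 0)).2 = 0
    rw [map_one]
    rfl
  · intro f
    exact key 0 f
  · intro f
    exact key 1 f

end Pool.Agent.H66.Rig.Two
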