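import Mathlib
import Pool.Agent.H66.Rig.TwoC

/-!
# Modules over algebras in two variables: quadratic forms, the abstract theorem (MP_562323_ag)
-/

set_option autoImplicit false

namespace Pool.Agent.H66.Rig.Two

open Module MvPolynomial

variable {K M : Type*} [Field K] [AddCommGroup M] [Module K M]

/-- the quadratic part of `f` -/
theorem quad (f : MvPolynomial (Fin 2) K) (hf : f ∈ mm K 2 ^ 2) :
    ∃ a b c : K, f - (C a * X 0 * X 0 + C b * X 0 * X 1 + C c * X 1 * X 1) ∈ mm K 2 ^ 3 := by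
  classical
  refine ⟨coeff (Finsupp.single 0 2) f, coeff (Finsupp.single 0 1 + Finsupp.single 1 1) f,
    coeff (Finsupp.single 1 2) f, ?_⟩
  have e1 : ∀ a : K, (C a * X 0 * X 0 : MvPolynomial (Fin 2) K) = monomial (Finsupp.single 0 2) a := by
    intro a
    rw [mul_assoc, X, monomial_mul, mul_one, C_mul_monomial, mul_one, ← Finsupp.single_add]
  have e2 : ∀ a : K, (C a * X 0 * X 1 : MvPolynomial (Fin 2) K) =
      monomial (Finsupp.single 0 1 + Finsupp.single 1 1) a := by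
    intro a
    rw [mul_assoc, X, X, monomial_mul, mul_one, C_mul_monomial, mul_one]
  have e3 : ∀ a : K, (C a * X 1 * X 1 : MvPolynomial (Fin 2) K) = monomial (Finsupp.single 1 2) a := by
    intro a
    rw [mul_assoc, X, monomial_mul, mul_one, C_mul_monomial, mul_one, ← Finsupp.single_add]
  rw [e1, e2, e3]
  apply (mem_pow_idealOfVars_iff (σ := Fin 2) (R := K) 3 _).2
  intro d hd
  rw [MvPolynomial.mem_support_iff] at hd
  by_contra hcon
  apply hd
  have hdeg : d.degree = d 0 + d 1 := by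
    rw [Finsupp.degree_eq_sum, Fin.sum_univ_two]
  have hf2 : d.degree < 2 → coeff d f = 0 := by
    intro h
    by_contra h2
    have := (mem_pow_idealOfVars_iff (σ := Fin 2) (R := K) 2 f).1 hf d
      (MvPolynomial.mem_support_iff.2 h2)
    omega
  rw [coeff_sub, coeff_add, coeff_add, coeff_monomial, coeff_monomial, coeff_monomial]
  have key : ∀ u v : ℕ, Finsupp.single (0 : Fin 2) u + Finsupp.single 1 v = d ↔ d 0 = u ∧ d 1 = v := by
    intro u v
    constructor
    · rintro rfl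
      constructor
      · simp
      · simp
    · rintro ⟨h0, h1⟩
      ext i
      fin_cases i
      · simp [h0]
      · simp [h1]
  have k1 : Finsupp.single (0 : Fin 2) 2 = d ↔ d 0 = 2 ∧ d 1 = 0 := by
    have := key 2 0
    rwa [Finsupp.single_zero, add_zero] at this
  have k2 := key 1 1
  have k3 : Finsupp.single (1 : Fin 2) 2 = d ↔ d 0 = 0 ∧ d 1 = 2 := by
    have := key 0 2
    rwa [Finsupp.single_zero, zero_add] at this
  by_cases h1 : Finsupp.single (0 : Fin 2) 2 = d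
  · have h1' := k1.1 h1
    rw [if_pos h1, if_neg (fun h => by have := k2.1 h; omega),
      if_neg (fun h => by have := k3.1 h; omega), h1, add_zero, add_zero, sub_self]
  · by_cases h2 : Finsupp.single (0 : Fin 2) 1 + Finsupp.single 1 1 = d
    · have h2' := k2.1 h2
      rw [if_neg h1, if_pos h2, if_neg (fun h => by have := k3.1 h; omega), h2, add_zero, zero_add,
        sub_self]
    · by_cases h3 : Finsupp.single (1 : Fin 2) 2 = d
      · rw [if_neg h1, if_neg h2, if_pos h3, h3, zero_add, zero_add, sub_self]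
      · rw [if_neg h1, if_neg h2, if_neg h3, add_zero, add_zero, sub_zero]
        apply hf2
        rw [k1] at h1
        rw [k2] at h2
        rw [k3] at h3
        omega

theorem exists_l (A : MvPolynomial (Fin 2) K →ₐ[K] Module.End K M)
    (f : MvPolynomial (Fin 2) K) (hf : f ∈ mm K 2 ^ 2) (hf3 : f ∉ mm K 2 ^ 3) (hA : A f = 0) :
    ∃ l : M →ₗ[K] M, W A 3 ≤ (W A 2).comap l ∧ W A 3 ⊓ (W A 1).comap l ≤ W A 2 := by
  obtain ⟨a, b, c, habc⟩ := quad f hf
  have hC : ∀ (c : K) (v : M), A (C c) v = c • v := by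
    intro c v
    have : A (C c) = algebraMap K _ c := AlgHom.commutes A c
    rw [this]
    rfl
  have hz : ∀ u ∈ W A 3, a • A (X 0) (A (X 0) u) + b • A (X 0) (A (X 1) u) +
      c • A (X 1) (A (X 1) u) = 0 := by
    intro u hu
    have h1 : A (f - (C a * X 0 * X 0 + C b * X 0 * X 1 + C c * X 1 * X 1)) u = 0 :=
      W_pow A 3 _ habc 0 u hu
    rw [map_sub, hA, zero_sub, LinearMap.neg_apply, neg_eq_zero] at h1
    simp only [map_add, map_mul, LinearMap.add_apply, Module.End.mul_apply, hC] at h1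
    exact h1
  have hxy := fun u => act_comm A (X 0) (X 1) u
  by_cases ha : a = 0
  · by_cases hc : c = 0
    · have hb : b ≠ 0 := by
        rintro rfl
        apply hf3
        rw [ha, hc] at habc
        simpa using habc
      refine ⟨A (X 0) - A (X 1), ?_, ?_⟩
      · rintro u ⟨h0, h1⟩
        show A (X 0) u - A (X 1) u ∈ W A 2
        exact (W A 2).sub_mem h0 h1
      · rintro u ⟨hu, hl⟩
        have h1 := hz u hu
        rw [ha, hc, zero_smul, zero_smul, zero_add, add_zero] at h1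
        have h2 : A (X 0) (A (X 1) u) = 0 := (smul_eq_zero.1 h1).resolve_left hb
        have h3 : A (X 0) (A (X 0) u - A (X 1) u) = 0 := hl.1
        have h4 : A (X 1) (A (X 0) u - A (X 1) u) = 0 := hl.2
        rw [map_sub, h2, sub_zero] at h3
        rw [map_sub, ← hxy, h2, zero_sub, neg_eq_zero] at h4
        exact ⟨⟨h3, by show A (X 1) (A (X 0) u) = 0; rw [← hxy, h2]⟩, ⟨h2, h4⟩⟩
    · refine ⟨A (X 0), fun u hu => hu.1, ?_⟩
      rintro u ⟨hu, hl⟩
      have h1 := hz u hu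
      have h3 : A (X 0) (A (X 0) u) = 0 := hl.1
      have h4 : A (X 1) (A (X 0) u) = 0 := hl.2
      have h5 : A (X 0) (A (X 1) u) = 0 := by rw [hxy, h4]
      rw [h3, h5, smul_zero, smul_zero, zero_add, zero_add] at h1
      exact ⟨⟨h3, h4⟩, ⟨h5, (smul_eq_zero.1 h1).resolve_left hc⟩⟩
  · refine ⟨A (X 1), fun u hu => hu.2, ?_⟩
    rintro u ⟨hu, hl⟩
    have h1 := hz u hu
    have h3 : A (X 0) (A (X 1) u) = 0 := hl.1
    have h4 : A (X 1) (A (X 1) u) = 0 := hl.2
    rw [h3, h4, smul_zero, smul_zero, add_zero, add_zero] at h1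
    exact ⟨⟨(smul_eq_zero.1 h1).resolve_left ha, by show A (X 1) (A (X 0) u) = 0; rw [← hxy, h3]⟩,
      ⟨h3, h4⟩⟩

/-- **The abstract theorem.** -/
theorem abs (A : MvPolynomial (Fin 2) K →ₐ[K] Module.End K M) (I0 : Ideal (MvPolynomial (Fin 2) K))
    [FiniteDimensional K M] [FiniteDimensional K (MvPolynomial (Fin 2) K ⧸ I0)] [Nontrivial M]
    (hA : ∀ g ∈ I0, A g = 0) (N : ℕ) (hN : mm K 2 ^ N ≤ I0) (h2 : I0 ≤ mm K 2 ^ 2)
    (p q : K) (hp : p ≠ 0) (hq : q ≠ 0)
    (hE : ∀ g ∈ I0, C p * X 0 * pderiv 0 g + C q * X 1 * pderiv 1 g ∈ I0)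
    (f : MvPolynomial (Fin 2) K) (hfI : f ∈ I0)
    (hf : ∀ g ∈ I0, ∃ c : K, g - C c * f ∈ mm K 2 ^ 3) :
    ∃ α β : (MvPolynomial (Fin 2) K ⧸ I0) →ₗ[K] M,
      (∀ r, A (X 0) (β (Ideal.Quotient.mk I0 r)) + α (Ideal.Quotient.mk I0 (X 1 * r)) =
        A (X 1) (α (Ideal.Quotient.mk I0 r)) + β (Ideal.Quotient.mk I0 (X 0 * r))) ∧
      ¬ ∃ (ψ : (MvPolynomial (Fin 2) K ⧸ I0) →ₗ[K] M) (u v : M), ∀ r,
        α (Ideal.Quotient.mk I0 r) = ψ (Ideal.Quotient.mk I0 (X 0 * r)) -
          A (X 0) (ψ (Ideal.Quotient.mk I0 r)) + A r u ∧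
        β (Ideal.Quotient.mk I0 r) = ψ (Ideal.Quotient.mk I0 (X 1 * r)) -
          A (X 1) (ψ (Ideal.Quotient.mk I0 r)) + A r v := by
  by_contra hcon
  push Not at hcon
  have h1 : I0 ≠ ⊤ := by
    rintro rfl
    have h3 : A 1 = 0 := hA 1 trivial
    rw [map_one] at h3
    exact one_ne_zero h3
  have hker : LinearMap.ker (G A I0) ≤ LinearMap.range (Gam A I0 hA) := by
    rintro ⟨α, β⟩ hab
    have hab' : A (X 0) ∘ₗ β - β ∘ₗ LX I0 0 - (A (X 1) ∘ₗ α - α ∘ₗ LX I0 1) = 0 := hab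
    obtain ⟨ψ, u, v, h⟩ := hcon α β (by
      intro r
      have h3 := LinearMap.congr_fun hab' (Ideal.Quotient.mk I0 r)
      have h4 : A (X 0) (β (Ideal.Quotient.mk I0 r)) - β (LX I0 0 (Ideal.Quotient.mk I0 r)) -
        (A (X 1) (α (Ideal.Quotient.mk I0 r)) - α (LX I0 1 (Ideal.Quotient.mk I0 r))) = 0 := h3
      rw [LX_mk, LX_mk] at h4
      rw [← sub_eq_zero, ← h4]
      abel)
    refine ⟨(ψ, (u, v)), Prod.ext ?_ ?_⟩
    · refine LinearMap.ext fun b => ?_
      obtain ⟨r, rfl⟩ := Ideal.Quotient.mk_surjective b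
      rw [Gam_fst]
      exact (h r).1.symm
    · refine LinearMap.ext fun b => ?_
      obtain ⟨r, rfl⟩ := Ideal.Quotient.mk_surjective b
      rw [Gam_snd]
      exact (h r).2.symm
  have h3 := Submodule.finrank_mono hker
  have h4 := finrank_ker_G A I0 h1 N hN hA
  have h5 := finrank_ker_Gam A I0 hA
  have h6 := LinearMap.finrank_range_add_finrank_ker (Gam A I0 hA)
  rw [Module.finrank_prod, Module.finrank_prod, Module.finrank_linearMap] at h6
  have h7 := finrank_Dd A I0 hA p q hp hq hE f hf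
  have h8 : finrank K (W A 3) ≤ finrank K (Tt A f) := by
    by_cases hf3 : f ∈ mm K 2 ^ 3
    · exact finrank_Tt_three A f hf3
    · obtain ⟨l, hl, hl2⟩ := exists_l A f (h2 hfI) hf3 (hA f hfI)
      exact finrank_Tt_two A f (h2 hfI) l hl hl2
  omega

end Pool.Agent.H66.Rig.Two
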