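import Mathlib
import Pool.Agent.H66.Rig.TwoD

/-!
# Ideals in two variables with two quadrics: preliminaries (MP_562323_ag)
-/

set_option autoImplicit false

namespace Pool.Agent.H66.Rig.Two

open Module MvPolynomial

variable {K : Type*} [Field K]

theorem mm_pair : mm K 2 = Ideal.span {X 0, X 1} := by
  rw [mm]
  congr 1
  ext f
  simp [Fin.exists_fin_two, eq_comm]

theorem nak (I0 J : Ideal (MvPolynomial (Fin 2) K)) (N k : ℕ) (hN : mm K 2 ^ N ≤ I0) (hJ : I0 ≤ J)
    (h : mm K 2 ^ k ≤ J ⊔ mm K 2 ^ (k + 1)) : mm K 2 ^ k ≤ J := by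
  have key : ∀ j, mm K 2 ^ k ≤ J ⊔ mm K 2 ^ (k + j) := by
    intro j
    induction j with
    | zero => exact le_sup_right
    | succ j ih =>
      refine ih.trans (sup_le le_sup_left ?_)
      rw [pow_add]
      calc mm K 2 ^ k * mm K 2 ^ j ≤ (J ⊔ mm K 2 ^ (k + 1)) * mm K 2 ^ j := Ideal.mul_mono_left h
        _ ≤ J ⊔ mm K 2 ^ (k + (j + 1)) := by
          rw [Ideal.sup_mul]
          refine sup_le (Ideal.mul_le_left.trans le_sup_left) ?_
          rw [← pow_add, show k + 1 + j = k + (j + 1) by ring]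
          exact le_sup_right
  exact (key N).trans (sup_le le_rfl ((Ideal.pow_le_pow_right (by omega)).trans (hN.trans hJ)))

theorem lin (f : MvPolynomial (Fin 2) K) (hf : f ∈ mm K 2) :
    ∃ α β : K, f - (C α * X 0 + C β * X 1) ∈ mm K 2 ^ 2 := by
  have hf' := hf
  rw [mm_pair, Ideal.mem_span_pair] at hf'
  obtain ⟨g, h, rfl⟩ := hf'
  refine ⟨coeff 0 g, coeff 0 h, ?_⟩
  have e : g * X 0 + h * X 1 - (C (coeff 0 g) * X 0 + C (coeff 0 h) * X 1) =
      (g - C (coeff 0 g)) * X 0 + (h - C (coeff 0 h)) * X 1 := by ring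
  rw [e, pow_two]
  exact Ideal.add_mem _ (Ideal.mul_mem_mul (sub_C_mem g) (X_mem 0))
    (Ideal.mul_mem_mul (sub_C_mem h) (X_mem 1))

theorem C_mem (c : K) (h : (C c : MvPolynomial (Fin 2) K) ∈ mm K 2) : c = 0 := by
  by_contra hc
  apply one_not_mem (K := K) (n := 2)
  have := Ideal.mul_mem_left _ (C c⁻¹ : MvPolynomial (Fin 2) K) h
  rwa [← C_mul, inv_mul_cancel₀ hc, C_1] at this

theorem lin_mem (α β : K) (h : (C α * X 0 + C β * X 1 : MvPolynomial (Fin 2) K) ∈ mm K 2 ^ 2) :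
    α = 0 ∧ β = 0 := by
  constructor
  · have h1 := der_pow (pderiv 0) _ 1 h
    rw [pow_one] at h1
    apply C_mem
    convert h1 using 1
    simp [Derivation.leibniz, pderiv_X]
  · have h1 := der_pow (pderiv 1) _ 1 h
    rw [pow_one] at h1
    apply C_mem
    convert h1 using 1
    simp [Derivation.leibniz, pderiv_X]

/-- if `x s` lies in `mm ^ 2`, then `s` lies in `mm` -/
theorem mem_mm_of (s : MvPolynomial (Fin 2) K) (h : X 0 * s ∈ mm K 2 ^ 2) : s ∈ mm K 2 := by
  have h1 : (C (coeff 0 s) * X 0 + C 0 * X 1 : MvPolynomial (Fin 2) K) ∈ mm K 2 ^ 2 := by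
    have h2 : X 0 * (s - C (coeff 0 s)) ∈ mm K 2 ^ 2 := by
      rw [pow_two]
      exact Ideal.mul_mem_mul (X_mem 0) (sub_C_mem s)
    have h3 := Ideal.sub_mem _ h h2
    convert h3 using 1
    rw [C_0]
    ring
  have h2 := sub_C_mem s
  rwa [(lin_mem _ _ h1).1, C_0, sub_zero] at h2

/-- the functional on quadratic forms -/
noncomputable def nu (n0 n1 n2 : K) : MvPolynomial (Fin 2) K →ₗ[K] K :=
  n0 • lcoeff K (Finsupp.single 0 2) + n1 • lcoeff K (Finsupp.single 0 1 + Finsupp.single 1 1) +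
    n2 • lcoeff K (Finsupp.single 1 2)

theorem nu_apply (n0 n1 n2 : K) (f : MvPolynomial (Fin 2) K) : nu n0 n1 n2 f =
    n0 * coeff (Finsupp.single 0 2) f + n1 * coeff (Finsupp.single 0 1 + Finsupp.single 1 1) f +
    n2 * coeff (Finsupp.single 1 2) f := rfl

theorem nu_C (n0 n1 n2 c : K) (f : MvPolynomial (Fin 2) K) :
    nu n0 n1 n2 (C c * f) = c * nu n0 n1 n2 f := by
  rw [← MvPolynomial.smul_eq_C_mul, map_smul, smul_eq_mul]

theorem nu_three (n0 n1 n2 : K) (f : MvPolynomial (Fin 2) K) (hf : f ∈ mm K 2 ^ 3) :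
    nu n0 n1 n2 f = 0 := by
  have h := (mem_pow_idealOfVars_iff (σ := Fin 2) (R := K) 3 f).1 hf
  have h0 : ∀ d : Fin 2 →₀ ℕ, d.degree < 3 → coeff d f = 0 := by
    intro d hd
    by_contra h2
    have := h d (MvPolynomial.mem_support_iff.2 h2)
    omega
  rw [nu_apply, h0, h0, h0, mul_zero, mul_zero, mul_zero, add_zero, add_zero]
  · simp [Finsupp.degree_eq_sum]
  · simp [Finsupp.degree_eq_sum, Fin.sum_univ_two]
  · simp [Finsupp.degree_eq_sum]

theorem nu_quad (n0 n1 n2 a b c : K) : nu n0 n1 n2 (C a * X 0 * X 0 + C b * X 0 * X 1 +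
    C c * X 1 * X 1) = n0 * a + n1 * b + n2 * c := by
  classical
  have e1 : ∀ a : K, (C a * X 0 * X 0 : MvPolynomial (Fin 2) K) = monomial (Finsupp.single 0 2) a := by
    intro a
    rw [mul_assoc, X, monomial_mul, mul_one, C_mul_monomial, mul_one, ← Finsupp.single_add]
  have e2 : ∀ a : K, (C a * X 0 * X 1 : MvPolynomial (Fin 2) K) =
      monomial (Finsupp.single 0 1 + Finsupp.single 1 1) a := by
    intro a
    rw [mul_assoc, X, X, monomial_mul, mul_one, C_mul_monomial, mul_one]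
  have e3 : ∀ a : K, (C a * X 1 * X 1 : MvPolynomial (Fin 2) K) = monomial (Finsupp.single 1 2) a := by
    intro a
    rw [mul_assoc, X, monomial_mul, mul_one, C_mul_monomial, mul_one, ← Finsupp.single_add]
  have d1 : (Finsupp.single (0 : Fin 2) 2 : Fin 2 →₀ ℕ) ≠ Finsupp.single 0 1 + Finsupp.single 1 1 := by
    intro h
    have := DFunLike.congr_fun h 0
    simp at this
  have d2 : (Finsupp.single (0 : Fin 2) 2 : Fin 2 →₀ ℕ) ≠ Finsupp.single 1 2 := by
    intro h
    have := DFunLike.congr_fun h 0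
    simp at this
  have d3 : (Finsupp.single (1 : Fin 2) 2 : Fin 2 →₀ ℕ) ≠ Finsupp.single 0 1 + Finsupp.single 1 1 := by
    intro h
    have := DFunLike.congr_fun h 1
    simp at this
  rw [e1, e2, e3, nu_apply]
  simp only [coeff_add, coeff_monomial, if_true, if_neg d1.symm, if_neg d2.symm, if_neg d1, if_neg d3,
    if_neg d2, if_neg d3.symm, add_zero, zero_add]

/-- quadratic forms killed by `nu` -/
theorem F1 (n0 n1 n2 : K) (hn : ¬ (n0 = 0 ∧ n1 = 0 ∧ n2 = 0)) (P : Ideal (MvPolynomial (Fin 2) K))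
    (hP : mm K 2 ^ 3 ≤ P)
    (E1 : C n1 * X 0 * X 0 - C n0 * X 0 * X 1 ∈ P)
    (E2 : C n2 * X 0 * X 0 - C n0 * X 1 * X 1 ∈ P)
    (E3 : C n2 * X 0 * X 1 - C n1 * X 1 * X 1 ∈ P)
    (f : MvPolynomial (Fin 2) K) (hf : f ∈ mm K 2 ^ 2) (h0 : nu n0 n1 n2 f = 0) : f ∈ P := by
  obtain ⟨a, b, c, h⟩ := quad f hf
  have h1 := nu_three n0 n1 n2 _ h
  rw [map_sub, h0, nu_quad, zero_sub, neg_eq_zero] at h1
  have h2 : C (n0 * a + n1 * b + n2 * c) = (0 : MvPolynomial (Fin 2) K) := by rw [h1, C_0]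
  simp only [C_add, C_mul] at h2
  have key : ∀ n : K, n ≠ 0 → C n * (C a * X 0 * X 0 + C b * X 0 * X 1 + C c * X 1 * X 1) ∈ P →
      f ∈ P := by
    intro n hn h3
    have h4 := P.mul_mem_left (C n⁻¹) h3
    rw [← mul_assoc, ← C_mul, inv_mul_cancel₀ hn, C_1, one_mul] at h4
    have h5 := P.add_mem (hP h) h4
    rwa [sub_add_cancel] at h5
  by_cases hn0 : n0 = 0
  · by_cases hn1 : n1 = 0
    · have hn2 : n2 ≠ 0 := fun h => hn ⟨hn0, hn1, h⟩
      apply key n2 hn2
      have h3 := P.add_mem (P.mul_mem_left (C a) E2) (P.mul_mem_left (C b) E3)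
      convert h3 using 1
      linear_combination (X 1 * X 1) * h2
    · apply key n1 hn1
      have h3 := P.sub_mem (P.mul_mem_left (C a) E1) (P.mul_mem_left (C c) E3)
      convert h3 using 1
      linear_combination (X 0 * X 1) * h2
  · apply key n0 hn0
    have h3 := P.neg_mem (P.add_mem (P.mul_mem_left (C b) E1) (P.mul_mem_left (C c) E2))
    convert h3 using 1
    linear_combination (X 0 * X 0) * h2

end Pool.Agent.H66.Rig.Two
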