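import Mathlib
import Pool.Agent.H66.Rig.TwoQ

/-!
# Ideals of order one in two variables (MP_562323_ag)
-/

set_option autoImplicit false

namespace Pool.Agent.H66.Rig.Two

open Module MvPolynomial

variable {K : Type*} [Field K]

/-- the coordinates: `mm` is generated by an element of `I0` and one more element, up to a power -/
theorem exists_coord (I0 : Ideal (MvPolynomial (Fin 2) K)) (h1 : I0 ≤ mm K 2)
    (h2 : ¬ I0 ≤ mm K 2 ^ 2) (L : ℕ) :
    ∃ l z : MvPolynomial (Fin 2) K, l ∈ I0 ∧ z ∈ mm K 2 ∧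
      mm K 2 ≤ Ideal.span {l, z} ⊔ mm K 2 ^ L := by
  obtain ⟨l, hl, hl2⟩ := SetLike.not_le_iff_exists.1 h2
  obtain ⟨α, β, hab⟩ := lin l (h1 hl)
  have key : ∀ z : MvPolynomial (Fin 2) K, mm K 2 ≤ Ideal.span {l, z} ⊔ mm K 2 ^ 2 →
      mm K 2 ≤ Ideal.span {l, z} ⊔ mm K 2 ^ L := by
    intro z hz
    have h := nak (mm K 2 ^ L) (Ideal.span {l, z} ⊔ mm K 2 ^ L) L 1 le_rfl le_sup_right
      (by
        rw [pow_one]
        exact hz.trans (sup_le (le_sup_left.trans le_sup_left) le_sup_right))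
    rwa [pow_one] at h
  have hdiv : ∀ (a : K) (P : Ideal (MvPolynomial (Fin 2) K)) (f : MvPolynomial (Fin 2) K), a ≠ 0 →
      C a * f ∈ P → f ∈ P := by
    intro a P f ha h
    have h3 := P.mul_mem_left (C a⁻¹) h
    rwa [← mul_assoc, ← C_mul, inv_mul_cancel₀ ha, C_1, one_mul] at h3
  by_cases hα : α = 0
  · have hβ : β ≠ 0 := by
      intro hβ
      apply hl2
      rwa [hα, hβ, C_0, zero_mul, zero_mul, add_zero, sub_zero] at hab
    refine ⟨l, X 0, hl, X_mem 0, key _ ?_⟩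
    have hl' : l ∈ Ideal.span {l, X 0} ⊔ mm K 2 ^ 2 :=
      Ideal.mem_sup_left (Ideal.subset_span (Set.mem_insert _ _))
    have hz' : (X 0 : MvPolynomial (Fin 2) K) ∈ Ideal.span {l, X 0} ⊔ mm K 2 ^ 2 :=
      Ideal.mem_sup_left (Ideal.subset_span (Set.mem_insert_of_mem _ rfl))
    have hx : (X 1 : MvPolynomial (Fin 2) K) ∈ Ideal.span {l, X 0} ⊔ mm K 2 ^ 2 := by
      apply hdiv β _ _ hβ
      have h3 := Ideal.sub_mem _ (Ideal.sub_mem _ hl' (Ideal.mem_sup_right hab))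
        (Ideal.mul_mem_left _ (C α) hz')
      convert h3 using 1
      ring
    conv_lhs => rw [mm_pair]
    rw [Ideal.span_le]
    rintro _ (rfl | rfl)
    · exact hz'
    · exact hx
  · refine ⟨l, X 1, hl, X_mem 1, key _ ?_⟩
    have hl' : l ∈ Ideal.span {l, X 1} ⊔ mm K 2 ^ 2 :=
      Ideal.mem_sup_left (Ideal.subset_span (Set.mem_insert _ _))
    have hz' : (X 1 : MvPolynomial (Fin 2) K) ∈ Ideal.span {l, X 1} ⊔ mm K 2 ^ 2 :=
      Ideal.mem_sup_left (Ideal.subset_span (Set.mem_insert_of_mem _ rfl))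
    have hx : (X 0 : MvPolynomial (Fin 2) K) ∈ Ideal.span {l, X 1} ⊔ mm K 2 ^ 2 := by
      apply hdiv α _ _ hα
      have h3 := Ideal.sub_mem _ (Ideal.sub_mem _ hl' (Ideal.mem_sup_right hab))
        (Ideal.mul_mem_left _ (C β) hz')
      convert h3 using 1
      ring
    conv_lhs => rw [mm_pair]
    rw [Ideal.span_le]
    rintro _ (rfl | rfl)
    · exact hx
    · exact hz'

/-- the least power of `z` in `I0` -/
private theorem least_pow (I0 : Ideal (MvPolynomial (Fin 2) K)) (N : ℕ) (hN : mm K 2 ^ N ≤ I0)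
    (h1 : I0 ≤ mm K 2) (z : MvPolynomial (Fin 2) K) (hz : z ∈ mm K 2) :
    ∃ q, z ^ (q + 1) ∈ I0 ∧ z ^ q ∉ I0 := by
  classical
  have hex : ∃ d, z ^ d ∈ I0 := ⟨N, hN (Ideal.pow_mem_pow hz N)⟩
  have h0 : Nat.find hex ≠ 0 := by
    intro h
    have h3 := Nat.find_spec hex
    rw [h, pow_zero] at h3
    exact one_not_mem (h1 h3)
  obtain ⟨q, hq⟩ := Nat.exists_eq_succ_of_ne_zero h0
  refine ⟨q, ?_, ?_⟩
  · have h3 := Nat.find_spec hex
    rwa [hq] at h3
  · exact Nat.find_min hex (by omega)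

/-- a constant multiple of the last power -/
private theorem const_zero (I0 : Ideal (MvPolynomial (Fin 2) K)) (z : MvPolynomial (Fin 2) K) (q k : ℕ)
    (hq : z ^ (q + 1) ∈ I0) (hq' : z ^ q ∉ I0) (hk : k ≤ q) (c : K) (g : MvPolynomial (Fin 2) K)
    (h : C c * z ^ k + z ^ (k + 1) * g ∈ I0) : c = 0 := by
  by_contra hc
  apply hq'
  obtain ⟨m, rfl⟩ : ∃ m, q = m + k := ⟨q - k, by omega⟩
  have h6 := I0.sub_mem (I0.mul_mem_left (z ^ m) h) (I0.mul_mem_left g hq)
  have h7 : C c * z ^ (m + k) ∈ I0 := by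
    convert h6 using 1
    ring
  have h8 := I0.mul_mem_left (C c⁻¹) h7
  rwa [← mul_assoc, ← C_mul, inv_mul_cancel₀ hc, C_1, one_mul] at h8

/-- the socle is one-dimensional -/
theorem ci_socle (I0 : Ideal (MvPolynomial (Fin 2) K)) (N : ℕ) (hN : mm K 2 ^ N ≤ I0)
    (h1 : I0 ≤ mm K 2) (h2 : ¬ I0 ≤ mm K 2 ^ 2) :
    ∃ s, s ∉ I0 ∧ ∀ t, X 0 * t ∈ I0 → X 1 * t ∈ I0 → ∃ c : K, t - C c * s ∈ I0 := by
  obtain ⟨l, z, hl, hz, hlz⟩ := exists_coord I0 h1 h2 N
  obtain ⟨q, hq, hq'⟩ := least_pow I0 N hN h1 z hz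
  have hmm : mm K 2 ≤ I0 ⊔ Ideal.span {z} := by
    refine hlz.trans (sup_le ?_ (hN.trans le_sup_left))
    rw [Ideal.span_le]
    rintro _ (rfl | h)
    · exact Ideal.mem_sup_left hl
    · rw [Set.mem_singleton_iff] at h
      subst h
      exact Ideal.mem_sup_right (Ideal.mem_span_singleton_self _)
  have hstep : ∀ (k : ℕ) (g : MvPolynomial (Fin 2) K), ∃ (c : K) (g' : MvPolynomial (Fin 2) K),
      z ^ k * g - (C c * z ^ k + z ^ (k + 1) * g') ∈ I0 := by
    intro k g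
    obtain ⟨i, hi, j, hj, e⟩ := Submodule.mem_sup.1 (hmm (sub_C_mem g))
    obtain ⟨g', rfl⟩ := Ideal.mem_span_singleton'.1 hj
    refine ⟨coeff 0 g, g', ?_⟩
    have h6 := I0.mul_mem_left (z ^ k) hi
    convert h6 using 1
    linear_combination (-z ^ k) * e
  refine ⟨z ^ q, hq', fun t ht0 ht1 => ?_⟩
  have hzt : z * t ∈ I0 := by
    have h3 := hz
    rw [mm_pair, Ideal.mem_span_pair] at h3
    obtain ⟨a, b, rfl⟩ := h3
    have h4 := I0.add_mem (I0.mul_mem_left a ht0) (I0.mul_mem_left b ht1)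
    convert h4 using 1
    ring
  have hind : ∀ k, k ≤ q → ∃ g, t - z ^ k * g ∈ I0 := by
    intro k
    induction k with
    | zero =>
      intro _
      refine ⟨t, ?_⟩
      rw [pow_zero, one_mul, sub_self]
      exact I0.zero_mem
    | succ k ih =>
      intro hk
      obtain ⟨g, hg⟩ := ih (by omega)
      obtain ⟨c, g', hg'⟩ := hstep k g
      have h5 : t - (C c * z ^ k + z ^ (k + 1) * g') ∈ I0 := by
        have := I0.add_mem hg hg'
        convert this using 1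
        ring
      have hc : c = 0 := by
        apply const_zero I0 z q (k + 1) hq hq' hk c g'
        have h6 := I0.sub_mem hzt (I0.mul_mem_left z h5)
        convert h6 using 1
        ring
      refine ⟨g', ?_⟩
      rwa [hc, C_0, zero_mul, zero_add] at h5
  obtain ⟨g, hg⟩ := hind q le_rfl
  obtain ⟨c, g', hg'⟩ := hstep q g
  refine ⟨c, ?_⟩
  have h5 := I0.add_mem (I0.add_mem hg hg') (I0.mul_mem_left g' hq)
  convert h5 using 1
  ring

/-- two generators -/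
theorem ci_gen (I0 : Ideal (MvPolynomial (Fin 2) K)) (N : ℕ) (hN : mm K 2 ^ N ≤ I0)
    (h1 : I0 ≤ mm K 2) (h2 : ¬ I0 ≤ mm K 2 ^ 2) (g : MvPolynomial (Fin 2) K) (hg : g ∈ I0)
    (hg' : g ∉ mm K 2 * I0) :
    ∃ g' ∈ I0, ∀ h ∈ I0, ∃ c d : K, h - (C c * g + C d * g') ∈ mm K 2 * I0 := by
  obtain ⟨l, z, hl, hz, hlz⟩ := exists_coord I0 h1 h2 (N + 1)
  obtain ⟨q, hq, hq'⟩ := least_pow I0 N hN h1 z hz
  have hmI : mm K 2 * I0 ≤ I0 := Ideal.mul_le_right
  have hpow : mm K 2 ^ (N + 1) ≤ mm K 2 * I0 := by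
    rw [pow_succ']
    exact Ideal.mul_mono_right hN
  have hstep : ∀ (k : ℕ) (g : MvPolynomial (Fin 2) K), ∃ (c : K) (g' : MvPolynomial (Fin 2) K),
      z ^ k * g - (C c * z ^ k + z ^ (k + 1) * g') ∈ Ideal.span {l} ⊔ mm K 2 * I0 := by
    intro k g
    obtain ⟨i, hi, j, hj, e⟩ := Submodule.mem_sup.1 (hlz (sub_C_mem g))
    rw [Ideal.mem_span_pair] at hi
    obtain ⟨a, b, rfl⟩ := hi
    refine ⟨coeff 0 g, b, ?_⟩
    have h6 : z ^ k * (a * l) + z ^ k * j ∈ Ideal.span {l} ⊔ mm K 2 * I0 := by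
      refine Ideal.add_mem _ (Ideal.mem_sup_left ?_) (Ideal.mem_sup_right ?_)
      · exact Ideal.mul_mem_left _ _ (Ideal.mul_mem_left _ _ (Ideal.mem_span_singleton_self _))
      · exact Ideal.mul_mem_left _ _ (hpow hj)
    convert h6 using 1
    linear_combination (-z ^ k) * e
  have hQ : Ideal.span {l} ⊔ mm K 2 * I0 ≤ I0 := by
    refine sup_le ?_ hmI
    rw [Ideal.span_singleton_le_iff_mem]
    exact hl
  have hmain : ∀ h ∈ I0, ∃ c d : K, h - (C c * z ^ (q + 1) + C d * l) ∈ mm K 2 * I0 := by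
    intro h hh
    have hind : ∀ k, k ≤ q + 1 → ∃ g, h - z ^ k * g ∈ Ideal.span {l} ⊔ mm K 2 * I0 := by
      intro k
      induction k with
      | zero =>
        intro _
        refine ⟨h, ?_⟩
        rw [pow_zero, one_mul, sub_self]
        exact Ideal.zero_mem _
      | succ k ih =>
        intro hk
        obtain ⟨g, hg⟩ := ih (by omega)
        obtain ⟨c, g', hg'⟩ := hstep k g
        have h5 : h - (C c * z ^ k + z ^ (k + 1) * g') ∈ Ideal.span {l} ⊔ mm K 2 * I0 := by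
          have := Ideal.add_mem _ hg hg'
          convert this using 1
          ring
        have hc : c = 0 := by
          apply const_zero I0 z q k hq hq' (by omega) c g'
          have h6 := I0.sub_mem hh (hQ h5)
          convert h6 using 1
          ring
        refine ⟨g', ?_⟩
        rwa [hc, C_0, zero_mul, zero_add] at h5
    obtain ⟨g, hg⟩ := hind (q + 1) le_rfl
    obtain ⟨i, hi, j, hj, e⟩ := Submodule.mem_sup.1 hg
    obtain ⟨w, rfl⟩ := Ideal.mem_span_singleton'.1 hi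
    refine ⟨coeff 0 g, coeff 0 w, ?_⟩
    have h6 : (g - C (coeff 0 g)) * z ^ (q + 1) + (w - C (coeff 0 w)) * l + j ∈ mm K 2 * I0 :=
      Ideal.add_mem _ (Ideal.add_mem _ (Ideal.mul_mem_mul (sub_C_mem g) hq)
        (Ideal.mul_mem_mul (sub_C_mem w) hl)) hj
    convert h6 using 1
    linear_combination -e
  obtain ⟨c1, d1, hcd⟩ := hmain g hg
  have hlc : ∀ (f : MvPolynomial (Fin 2) K) (a : MvPolynomial (Fin 2) K), f ∈ mm K 2 * I0 →
      a * f ∈ mm K 2 * I0 := fun f a hf => Ideal.mul_mem_left _ a hf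
  by_cases hc1 : c1 = 0
  · have hd1 : d1 ≠ 0 := by
      intro hd1
      apply hg'
      rwa [hc1, hd1, C_0, zero_mul, zero_mul, add_zero, sub_zero] at hcd
    refine ⟨z ^ (q + 1), hq, fun h hh => ?_⟩
    obtain ⟨c, d, hcd2⟩ := hmain h hh
    refine ⟨d * d1⁻¹, c, ?_⟩
    rw [hc1, C_0, zero_mul, zero_add] at hcd
    have h6 := Ideal.sub_mem _ hcd2 (hlc _ (C (d * d1⁻¹)) hcd)
    have h7 : (C (d * d1⁻¹) * C d1 : MvPolynomial (Fin 2) K) = C d := by
      rw [← C_mul, mul_assoc, inv_mul_cancel₀ hd1, mul_one]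
    convert h6 using 1
    linear_combination (-l) * h7
  · refine ⟨l, hl, fun h hh => ?_⟩
    obtain ⟨c, d, hcd2⟩ := hmain h hh
    refine ⟨c * c1⁻¹, d - c * c1⁻¹ * d1, ?_⟩
    have h6 := Ideal.sub_mem _ hcd2 (hlc _ (C (c * c1⁻¹)) hcd)
    have h7 : (C (c * c1⁻¹) * C c1 : MvPolynomial (Fin 2) K) = C c := by
      rw [← C_mul, mul_assoc, inv_mul_cancel₀ hc1, mul_one]
    convert h6 using 1
    have h8 : (C (d - c * c1⁻¹ * d1) : MvPolynomial (Fin 2) K) = C d - C (c * c1⁻¹) * C d1 := by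
      rw [C_sub, C_mul]
    rw [h8]
    linear_combination (-z ^ (q + 1)) * h7

end Pool.Agent.H66.Rig.Two
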