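import Mathlib
import Pool.Agent.H66.Rig.TwoC

/-!
# Modules over algebras in two variables with a one-dimensional socle (MP_562323_ag)
-/

set_option autoImplicit false

namespace Pool.Agent.H66.Rig.Two

open Module MvPolynomial

variable {K M : Type*} [Field K] [AddCommGroup M] [Module K M]

/-- a linear functional which makes `B = K[x, y] / I0` a Frobenius algebra -/
theorem exists_tau (I0 : Ideal (MvPolynomial (Fin 2) K)) (N : ℕ) (hN : mm K 2 ^ N ≤ I0)
    (s : MvPolynomial (Fin 2) K) (hs : s ∉ I0)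
    (hsoc : ∀ t, X 0 * t ∈ I0 → X 1 * t ∈ I0 → ∃ c : K, t - C c * s ∈ I0) :
    ∃ τ : (MvPolynomial (Fin 2) K ⧸ I0) →ₗ[K] K, ∀ a : MvPolynomial (Fin 2) K ⧸ I0,
      (∀ b : MvPolynomial (Fin 2) K ⧸ I0, τ (a * b) = 0) → a = 0 := by
  classical
  obtain ⟨τ, hτ⟩ : ∃ μ : Dual K (MvPolynomial (Fin 2) K ⧸ I0), μ (Ideal.Quotient.mk I0 s) ≠ 0 := by
    by_contra hcon
    push Not at hcon
    have := (Module.forall_dual_apply_eq_zero_iff K _).1 hcon
    exact hs (Ideal.Quotient.eq_zero_iff_mem.1 this)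
  refine ⟨τ, fun a ha => ?_⟩
  obtain ⟨t, rfl⟩ := Ideal.Quotient.mk_surjective a
  rw [Ideal.Quotient.eq_zero_iff_mem]
  by_contra ht
  have hex : ∃ k, ∀ g ∈ mm K 2 ^ k, g * t ∈ I0 := ⟨N, fun g hg => I0.mul_mem_right _ (hN hg)⟩
  have h2 := Nat.find_spec hex
  obtain ⟨k, hk⟩ : ∃ k, Nat.find hex = k + 1 := by
    refine Nat.exists_eq_succ_of_ne_zero ?_
    intro h0
    rw [h0] at h2
    have h3 := h2 1 (by rw [pow_zero, Ideal.one_eq_top]; trivial)
    rw [one_mul] at h3
    exact ht h3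
  have h3 := Nat.find_min hex (show k < Nat.find hex by omega)
  push Not at h3
  obtain ⟨g, hg, hgt⟩ := h3
  have h4 : ∀ i : Fin 2, X i * (g * t) ∈ I0 := by
    intro i
    rw [← mul_assoc]
    refine h2 _ ?_
    rw [hk, pow_succ']
    exact Ideal.mul_mem_mul (Ideal.subset_span ⟨i, rfl⟩) hg
  obtain ⟨c, hc⟩ := hsoc (g * t) (h4 0) (h4 1)
  have h5 : Ideal.Quotient.mk I0 (g * t) = c • Ideal.Quotient.mk I0 s := by
    rw [(Ideal.Quotient.mk_eq_mk_iff_sub_mem _ _).2 hc, MvPolynomial.C_mul']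
    rfl
  have h6 := ha (Ideal.Quotient.mk I0 g)
  rw [← map_mul, mul_comm t g, h5, map_smul, smul_eq_mul, mul_eq_zero] at h6
  rcases h6 with h6 | h6
  · rw [h6, zero_smul, Ideal.Quotient.eq_zero_iff_mem] at h5
    exact hgt h5
  · exact hτ h6

/-- If the socle of `B = K[x, y] / I0` is spanned by the class of `s`, the kernel of `G` is large. -/
theorem finrank_ker_G_gor (A : MvPolynomial (Fin 2) K →ₐ[K] Module.End K M)
    (I0 : Ideal (MvPolynomial (Fin 2) K))
    [FiniteDimensional K M] [FiniteDimensional K (MvPolynomial (Fin 2) K ⧸ I0)]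
    (N : ℕ) (hN : mm K 2 ^ N ≤ I0) (hA : ∀ g ∈ I0, A g = 0)
    (s : MvPolynomial (Fin 2) K) (hs : s ∉ I0)
    (hsoc : ∀ t, X 0 * t ∈ I0 → X 1 * t ∈ I0 → ∃ c : K, t - C c * s ∈ I0) :
    finrank K (MvPolynomial (Fin 2) K ⧸ I0) * finrank K M + finrank K M ≤
      finrank K (LinearMap.ker (G A I0)) := by
  obtain ⟨τ, hτ⟩ := exists_tau I0 N hN s hs hsoc
  let J : (MvPolynomial (Fin 2) K ⧸ I0) →ₗ[K] Dual K (MvPolynomial (Fin 2) K ⧸ I0) :=
    (LinearMap.mul K (MvPolynomial (Fin 2) K ⧸ I0)).compr₂ τ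
  have hJ : ∀ a b, J a b = τ (a * b) := fun a b => rfl
  have hJinj : Function.Injective J := by
    rw [injective_iff_map_eq_zero]
    intro a ha
    refine hτ a fun b => ?_
    rw [← hJ, ha]
    rfl
  have hJsurj : Function.Surjective J :=
    (LinearMap.injective_iff_surjective_of_finrank_eq_finrank
      (Subspace.dual_finrank_eq (K := K) (V := MvPolynomial (Fin 2) K ⧸ I0)).symm).1 hJinj
  let bb := Module.finBasis K (MvPolynomial (Fin 2) K ⧸ I0)
  choose bs hbs using fun i => hJsurj (bb.coord i)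
  have E1 : ∀ c, ∑ i, τ (bs i * c) • bb i = c := by
    intro c
    have h1 := bb.sum_repr c
    calc ∑ i, τ (bs i * c) • bb i = ∑ i, bb.repr c i • bb i := by
          refine Finset.sum_congr rfl fun i _ => ?_
          rw [← hJ, hbs]
          rfl
      _ = c := h1
  have E2 : ∀ c, ∑ i, τ (c * bb i) • bs i = c := by
    intro c
    apply hJinj
    rw [map_sum]
    have h1 := bb.sum_dual_apply_smul_coord (J c)
    calc ∑ i, J (τ (c * bb i) • bs i) = ∑ i, J c (bb i) • bb.coord i := by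
          refine Finset.sum_congr rfl fun i _ => ?_
          rw [map_smul, hbs, hJ]
      _ = J c := h1
  let Φ : ((MvPolynomial (Fin 2) K ⧸ I0) →ₗ[K] M) →ₗ[K] M :=
    ∑ i, (A' A I0 hA (bb i)) ∘ₗ LinearMap.applyₗ (bs i)
  have hΦ : ∀ ψ, Φ ψ = ∑ i, A' A I0 hA (bb i) (ψ (bs i)) := by
    intro ψ
    simp only [Φ, LinearMap.sum_apply, LinearMap.comp_apply]
    rfl
  have hcomm : ∀ (x : MvPolynomial (Fin 2) K ⧸ I0) (ψ : (MvPolynomial (Fin 2) K ⧸ I0) →ₗ[K] M),
      ∑ i, A' A I0 hA (bb i) (A' A I0 hA x (ψ (bs i))) =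
        ∑ i, A' A I0 hA (bb i) (ψ (x * bs i)) := by
    intro x ψ
    have h1 : ∀ i, A' A I0 hA (bb i) (A' A I0 hA x (ψ (bs i))) =
        ∑ j, τ (bs j * (x * bb i)) • A' A I0 hA (bb j) (ψ (bs i)) := by
      intro i
      calc A' A I0 hA (bb i) (A' A I0 hA x (ψ (bs i)))
          = A' A I0 hA (x * bb i) (ψ (bs i)) := by
            rw [mul_comm, map_mul, Module.End.mul_apply]
        _ = A' A I0 hA (∑ j, τ (bs j * (x * bb i)) • bb j) (ψ (bs i)) := by rw [E1]
        _ = ∑ j, τ (bs j * (x * bb i)) • A' A I0 hA (bb j) (ψ (bs i)) := by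
            rw [map_sum, LinearMap.sum_apply]
            refine Finset.sum_congr rfl fun j _ => ?_
            rw [map_smul, LinearMap.smul_apply]
    have h2 : ∀ j, A' A I0 hA (bb j) (ψ (x * bs j)) =
        ∑ i, τ (bs j * (x * bb i)) • A' A I0 hA (bb j) (ψ (bs i)) := by
      intro j
      calc A' A I0 hA (bb j) (ψ (x * bs j))
          = A' A I0 hA (bb j) (ψ (∑ i, τ (x * bs j * bb i) • bs i)) := by rw [E2]
        _ = ∑ i, τ (bs j * (x * bb i)) • A' A I0 hA (bb j) (ψ (bs i)) := by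
            rw [map_sum, map_sum]
            refine Finset.sum_congr rfl fun i _ => ?_
            rw [map_smul, map_smul, show x * bs j * bb i = bs j * (x * bb i) by ring]
    rw [Finset.sum_congr rfl fun i _ => h1 i, Finset.sum_congr rfl fun j _ => h2 j,
      Finset.sum_comm]
  have hX : ∀ (k : Fin 2) (ψ : (MvPolynomial (Fin 2) K ⧸ I0) →ₗ[K] M),
      Φ (A (X k) ∘ₗ ψ - ψ ∘ₗ LX I0 k) = 0 := by
    intro k ψ
    rw [map_sub, hΦ, hΦ, sub_eq_zero]
    have h1 := hcomm (Ideal.Quotient.mk I0 (X k)) ψ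
    rw [A'_mk] at h1
    exact h1
  have hsurj : Function.Surjective Φ := by
    intro u
    refine ⟨τ.smulRight u, ?_⟩
    rw [hΦ]
    calc ∑ i, A' A I0 hA (bb i) (τ.smulRight u (bs i))
        = ∑ i, τ (bs i * 1) • A' A I0 hA (bb i) u := by
          refine Finset.sum_congr rfl fun i _ => ?_
          rw [LinearMap.smulRight_apply, map_smul, mul_one]
      _ = A' A I0 hA (∑ i, τ (bs i * 1) • bb i) u := by
          rw [map_sum, LinearMap.sum_apply]
          refine Finset.sum_congr rfl fun i _ => ?_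
          rw [map_smul, LinearMap.smul_apply]
      _ = u := by
          rw [E1, map_one]
          rfl
  have hrange : LinearMap.range (G A I0) ≤ LinearMap.ker Φ := by
    rintro _ ⟨⟨α, β⟩, rfl⟩
    rw [LinearMap.mem_ker]
    show Φ (A (X 0) ∘ₗ β - β ∘ₗ LX I0 0 - (A (X 1) ∘ₗ α - α ∘ₗ LX I0 1)) = 0
    rw [map_sub, hX, hX, sub_zero]
  have h3 := Submodule.finrank_mono hrange
  have h4 := LinearMap.finrank_range_add_finrank_ker Φ
  rw [LinearMap.range_eq_top.2 hsurj, finrank_top, Module.finrank_linearMap] at h4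
  have h6 := LinearMap.finrank_range_add_finrank_ker (G A I0)
  rw [Module.finrank_prod, Module.finrank_linearMap] at h6
  omega

end Pool.Agent.H66.Rig.Two
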