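import Mathlib
import Pool.Agent.H66.Rig.TwoC

/-!
# Modules over algebras in two variables with a socle of dimension at least two (MP_562323_ag)
-/

set_option autoImplicit false

namespace Pool.Agent.H66.Rig.Two

open Module MvPolynomial

variable {K M : Type*} [Field K] [AddCommGroup M] [Module K M]

/-- If the socle of `B = K[x, y] / I0` has dimension at least two, the kernel of `G` is large. -/
theorem finrank_ker_G_soc (A : MvPolynomial (Fin 2) K →ₐ[K] Module.End K M)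
    (I0 : Ideal (MvPolynomial (Fin 2) K))
    [FiniteDimensional K M] [FiniteDimensional K (MvPolynomial (Fin 2) K ⧸ I0)]
    (s t : MvPolynomial (Fin 2) K)
    (hs : X 0 * s ∈ I0) (hs' : X 1 * s ∈ I0) (ht : X 0 * t ∈ I0) (ht' : X 1 * t ∈ I0)
    (hind : ∀ a b : K, C a * s + C b * t ∈ I0 → a = 0 ∧ b = 0) :
    finrank K (MvPolynomial (Fin 2) K ⧸ I0) * finrank K M + 2 * finrank K M ≤
      finrank K (LinearMap.ker (G A I0)) +
        2 * finrank K (LinearMap.range (A (X 0)) ⊔ LinearMap.range (A (X 1)) : Submodule K M) := by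
  obtain ⟨P, hP⟩ : ∃ P : Submodule K M, P = LinearMap.range (A (X 0)) ⊔ LinearMap.range (A (X 1)) :=
    ⟨_, rfl⟩
  rw [← hP]
  have hP0 : ∀ m : M, P.mkQ (A (X 0) m) = 0 := fun m => by
    rw [Submodule.mkQ_apply, Submodule.Quotient.mk_eq_zero, hP]
    exact Submodule.mem_sup_left ⟨m, rfl⟩
  have hP1 : ∀ m : M, P.mkQ (A (X 1) m) = 0 := fun m => by
    rw [Submodule.mkQ_apply, Submodule.Quotient.mk_eq_zero, hP]
    exact Submodule.mem_sup_right ⟨m, rfl⟩
  let F : ((MvPolynomial (Fin 2) K ⧸ I0) →ₗ[K] M) →ₗ[K] (M ⧸ P) × (M ⧸ P) :=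
    LinearMap.prod (P.mkQ ∘ₗ LinearMap.applyₗ (Ideal.Quotient.mk I0 s))
      (P.mkQ ∘ₗ LinearMap.applyₗ (Ideal.Quotient.mk I0 t))
  have hF : ∀ γ, F γ = (P.mkQ (γ (Ideal.Quotient.mk I0 s)), P.mkQ (γ (Ideal.Quotient.mk I0 t))) :=
    fun γ => rfl
  -- the values of `G` are killed
  have hG : ∀ (α β : (MvPolynomial (Fin 2) K ⧸ I0) →ₗ[K] M) (u : MvPolynomial (Fin 2) K),
      X 0 * u ∈ I0 → X 1 * u ∈ I0 → P.mkQ (G A I0 (α, β) (Ideal.Quotient.mk I0 u)) = 0 := by
    intro α β u h0 h1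
    show P.mkQ (A (X 0) (β (Ideal.Quotient.mk I0 u)) - β (LX I0 0 (Ideal.Quotient.mk I0 u)) -
      (A (X 1) (α (Ideal.Quotient.mk I0 u)) - α (LX I0 1 (Ideal.Quotient.mk I0 u)))) = 0
    rw [LX_mk, LX_mk, Ideal.Quotient.eq_zero_iff_mem.2 h0, Ideal.Quotient.eq_zero_iff_mem.2 h1,
      map_zero, map_zero, sub_zero, sub_zero, map_sub, hP0, hP1, sub_zero]
  have hrange : LinearMap.range (G A I0) ≤ LinearMap.ker F := by
    rintro _ ⟨⟨α, β⟩, rfl⟩
    rw [LinearMap.mem_ker, hF, hG α β s hs hs', hG α β t ht ht']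
    rfl
  -- `F` is surjective
  let φ : K × K →ₗ[K] (MvPolynomial (Fin 2) K ⧸ I0) :=
    LinearMap.coprod (LinearMap.toSpanSingleton K _ (Ideal.Quotient.mk I0 s))
      (LinearMap.toSpanSingleton K _ (Ideal.Quotient.mk I0 t))
  have hφ : ∀ a b : K, φ (a, b) = a • Ideal.Quotient.mk I0 s + b • Ideal.Quotient.mk I0 t :=
    fun a b => rfl
  have hφm : ∀ a b : K, φ (a, b) = Ideal.Quotient.mk I0 (C a * s + C b * t) := by
    intro a b
    rw [hφ, MvPolynomial.C_mul', MvPolynomial.C_mul']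
    rfl
  have hinj : LinearMap.ker φ = ⊥ := by
    rw [eq_bot_iff]
    rintro ⟨a, b⟩ hab
    rw [LinearMap.mem_ker, hφm, Ideal.Quotient.eq_zero_iff_mem] at hab
    obtain ⟨h1, h2⟩ := hind a b hab
    rw [h1, h2]
    exact Submodule.zero_mem _
  obtain ⟨r, hr⟩ := LinearMap.exists_leftInverse_of_injective φ hinj
  have hrs : r (Ideal.Quotient.mk I0 s) = (1, 0) := by
    have h1 := LinearMap.congr_fun hr (1, 0)
    rw [LinearMap.comp_apply, hφ, one_smul, zero_smul, add_zero] at h1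
    exact h1
  have hrt : r (Ideal.Quotient.mk I0 t) = (0, 1) := by
    have h1 := LinearMap.congr_fun hr (0, 1)
    rw [LinearMap.comp_apply, hφ, one_smul, zero_smul, zero_add] at h1
    exact h1
  have hsurj : LinearMap.range F = ⊤ := by
    rw [LinearMap.range_eq_top]
    rintro ⟨u, v⟩
    obtain ⟨m1, rfl⟩ := P.mkQ_surjective u
    obtain ⟨m2, rfl⟩ := P.mkQ_surjective v
    refine ⟨(LinearMap.fst K K K ∘ₗ r).smulRight m1 + (LinearMap.snd K K K ∘ₗ r).smulRight m2, ?_⟩
    rw [hF]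
    simp only [LinearMap.add_apply, LinearMap.smulRight_apply, LinearMap.comp_apply,
      LinearMap.fst_apply, LinearMap.snd_apply, hrs, hrt, one_smul, zero_smul, add_zero, zero_add]
  have h3 := Submodule.finrank_mono hrange
  have h4 := LinearMap.finrank_range_add_finrank_ker F
  have h6 := LinearMap.finrank_range_add_finrank_ker (G A I0)
  have h7 := P.finrank_quotient_add_finrank
  rw [hsurj, finrank_top, Module.finrank_prod, Module.finrank_linearMap] at h4
  rw [Module.finrank_prod, Module.finrank_linearMap] at h6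
  omega

end Pool.Agent.H66.Rig.Two
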