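import Mathlib
import Pool.Agent.H66.Rig.TwoD
import Pool.Agent.H66.Rig.TwoG
import Pool.Agent.H66.Rig.TwoH

/-!
# Modules over algebras in two variables: the other cases (MP_562323_ag)
-/

set_option autoImplicit false

namespace Pool.Agent.H66.Rig.Two

open Module MvPolynomial

variable {K M : Type*} [Field K] [AddCommGroup M] [Module K M]

/-- the conclusion: a cocycle which does not come from a coboundary and a derivation -/
def Good (A : MvPolynomial (Fin 2) K →ₐ[K] Module.End K M) (I0 : Ideal (MvPolynomial (Fin 2) K)) :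
    Prop :=
  ∃ α β : (MvPolynomial (Fin 2) K ⧸ I0) →ₗ[K] M,
      (∀ r, A (X 0) (β (Ideal.Quotient.mk I0 r)) + α (Ideal.Quotient.mk I0 (X 1 * r)) =
        A (X 1) (α (Ideal.Quotient.mk I0 r)) + β (Ideal.Quotient.mk I0 (X 0 * r))) ∧
      ¬ ∃ (ψ : (MvPolynomial (Fin 2) K ⧸ I0) →ₗ[K] M) (u v : M), ∀ r,
        α (Ideal.Quotient.mk I0 r) = ψ (Ideal.Quotient.mk I0 (X 0 * r)) -
          A (X 0) (ψ (Ideal.Quotient.mk I0 r)) + A r u ∧
        β (Ideal.Quotient.mk I0 r) = ψ (Ideal.Quotient.mk I0 (X 1 * r)) -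
          A (X 1) (ψ (Ideal.Quotient.mk I0 r)) + A r v

theorem good_of (A : MvPolynomial (Fin 2) K →ₐ[K] Module.End K M)
    (I0 : Ideal (MvPolynomial (Fin 2) K))
    [FiniteDimensional K M] [FiniteDimensional K (MvPolynomial (Fin 2) K ⧸ I0)]
    (hA : ∀ g ∈ I0, A g = 0)
    (h : finrank K (MvPolynomial (Fin 2) K ⧸ I0) * finrank K M + finrank K M <
      finrank K (LinearMap.ker (G A I0)) + finrank K (Dd A I0)) : Good A I0 := by
  by_contra hcon
  unfold Good at hcon
  push Not at hcon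
  have hker : LinearMap.ker (G A I0) ≤ LinearMap.range (Gam A I0 hA) := by
    rintro ⟨α, β⟩ hab
    have hab' : A (X 0) ∘ₗ β - β ∘ₗ LX I0 0 - (A (X 1) ∘ₗ α - α ∘ₗ LX I0 1) = 0 := hab
    obtain ⟨ψ, u, v, h⟩ := hcon α β (by
      intro r
      have h3 := LinearMap.congr_fun hab' (Ideal.Quotient.mk I0 r)
      have h4 : A (X 0) (β (Ideal.Quotient.mk I0 r)) - β (LX I0 0 (Ideal.Quotient.mk I0 r)) -
        (A (X 1) (α (Ideal.Quotient.mk I0 r)) - α (LX I0 1 (Ideal.Quotient.mk I0 r))) = 0 := h3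
      rw [LX_mk, LX_mk] at h4
      rw [← sub_eq_zero, ← h4]
      abel)
    refine ⟨(ψ, (u, v)), Prod.ext ?_ ?_⟩
    · refine LinearMap.ext fun b => ?_
      obtain ⟨r, rfl⟩ := Ideal.Quotient.mk_surjective b
      rw [Gam_fst]
      exact (h r).1.symm
    · refine LinearMap.ext fun b => ?_
      obtain ⟨r, rfl⟩ := Ideal.Quotient.mk_surjective b
      rw [Gam_snd]
      exact (h r).2.symm
  have h3 := Submodule.finrank_mono hker
  have h5 := finrank_ker_Gam A I0 hA
  have h6 := LinearMap.finrank_range_add_finrank_ker (Gam A I0 hA)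
  rw [Module.finrank_prod, Module.finrank_prod, Module.finrank_linearMap] at h6
  omega

/-- the socle of a nonzero module is nonzero -/
theorem W_one_pos (A : MvPolynomial (Fin 2) K →ₐ[K] Module.End K M) [FiniteDimensional K M]
    [Nontrivial M] (N : ℕ) (hN : ∀ g ∈ mm K 2 ^ N, A g = 0) : 1 ≤ finrank K (W A 1) := by
  classical
  obtain ⟨m, hm⟩ := exists_ne (0 : M)
  have hex : ∃ k, ∀ g ∈ mm K 2 ^ k, A g m = 0 := ⟨N, fun g hg => by rw [hN g hg]; rfl⟩
  have h2 := Nat.find_spec hex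
  obtain ⟨k, hk⟩ : ∃ k, Nat.find hex = k + 1 := by
    refine Nat.exists_eq_succ_of_ne_zero ?_
    intro h0
    rw [h0, pow_zero, Ideal.one_eq_top] at h2
    have := h2 1 trivial
    rw [map_one] at this
    exact hm this
  have h3 := Nat.find_min hex (show k < Nat.find hex by omega)
  push Not at h3
  obtain ⟨g, hg, hgm⟩ := h3
  rw [hk] at h2
  have hmem : A g m ∈ W A 1 := by
    refine ⟨?_, ?_⟩
    · show A (X 0) (A g m) = 0
      rw [← Module.End.mul_apply, ← map_mul]
      refine h2 _ ?_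
      rw [pow_succ']
      exact Ideal.mul_mem_mul (Ideal.subset_span ⟨0, rfl⟩) hg
    · show A (X 1) (A g m) = 0
      rw [← Module.End.mul_apply, ← map_mul]
      refine h2 _ ?_
      rw [pow_succ']
      exact Ideal.mul_mem_mul (Ideal.subset_span ⟨1, rfl⟩) hg
  have h4 : W A 1 ≠ ⊥ := by
    intro h
    rw [h] at hmem
    exact hgm hmem
  exact Submodule.one_le_finrank_iff.2 h4

theorem prod_le_Dd (A : MvPolynomial (Fin 2) K →ₐ[K] Module.End K M)
    (I0 : Ideal (MvPolynomial (Fin 2) K)) (h2 : I0 ≤ mm K 2 ^ 2) :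
    (W A 1).prod (W A 1) ≤ Dd A I0 := by
  rintro ⟨a, b⟩ ⟨ha, hb⟩ g hg
  have h3 : A (pderiv 0 g) a = 0 := W_pow A 1 _ (der_pow (pderiv 0) _ 1 (h2 hg)) 0 a ha
  have h4 : A (pderiv 1 g) b = 0 := W_pow A 1 _ (der_pow (pderiv 1) _ 1 (h2 hg)) 0 b hb
  show A (pderiv 0 g) a + A (pderiv 1 g) b = 0
  rw [h3, h4, add_zero]

/-- one-dimensional socle -/
theorem good_gor (A : MvPolynomial (Fin 2) K →ₐ[K] Module.End K M)
    (I0 : Ideal (MvPolynomial (Fin 2) K))
    [FiniteDimensional K M] [FiniteDimensional K (MvPolynomial (Fin 2) K ⧸ I0)] [Nontrivial M]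
    (N : ℕ) (hN : mm K 2 ^ N ≤ I0) (hA : ∀ g ∈ I0, A g = 0) (h2 : I0 ≤ mm K 2 ^ 2)
    (s : MvPolynomial (Fin 2) K) (hs : s ∉ I0)
    (hsoc : ∀ t, X 0 * t ∈ I0 → X 1 * t ∈ I0 → ∃ c : K, t - C c * s ∈ I0) : Good A I0 := by
  refine good_of A I0 hA ?_
  have h3 := finrank_ker_G_gor A I0 N hN hA s hs hsoc
  have h4 := W_one_pos A N fun g hg => hA g (hN hg)
  have h5 := Submodule.finrank_mono (prod_le_Dd A I0 h2)
  rw [finrank_prod'] at h5
  omega

/-- the Euler derivation -/
theorem finrank_Dd_one (A : MvPolynomial (Fin 2) K →ₐ[K] Module.End K M)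
    (I0 : Ideal (MvPolynomial (Fin 2) K)) [FiniteDimensional K M] (hA : ∀ g ∈ I0, A g = 0)
    (h2 : I0 ≤ mm K 2 ^ 2) (p q : K) (hp : p ≠ 0) (hq : q ≠ 0)
    (hE : ∀ g ∈ I0, C p * X 0 * pderiv 0 g + C q * X 1 * pderiv 1 g ∈ I0) :
    finrank K M + 2 * finrank K (W A 1) ≤ finrank K (Dd A I0) + finrank K (W A 2) := by
  let κ : M × (M × M) →ₗ[K] M × M :=
    LinearMap.prod (p • (A (X 0)) ∘ₗ LinearMap.fst K _ _ + LinearMap.fst K _ _ ∘ₗ LinearMap.snd K _ _)
      (q • (A (X 1)) ∘ₗ LinearMap.fst K _ _ + LinearMap.snd K _ _ ∘ₗ LinearMap.snd K _ _)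
  have hκ : ∀ m a b, κ (m, (a, b)) = (p • A (X 0) m + a, q • A (X 1) m + b) := fun _ _ _ => rfl
  let P : Submodule K (M × (M × M)) := Submodule.prod ⊤ ((W A 1).prod (W A 1))
  have h1 := finrank_map_add P κ
  have h2' : finrank K P = finrank K M + (finrank K (W A 1) + finrank K (W A 1)) := by
    rw [finrank_prod', finrank_top, finrank_prod']
  have h3 : P.map κ ≤ Dd A I0 := by
    rintro _ ⟨⟨m, a, b⟩, ⟨-, ⟨ha, hb⟩⟩, rfl⟩
    rw [hκ]
    intro g hg
    show A (pderiv 0 g) (p • A (X 0) m + a) + A (pderiv 1 g) (q • A (X 1) m + b) = 0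
    have h4 : A (C p * X 0 * pderiv 0 g + C q * X 1 * pderiv 1 g) m = 0 := by
      rw [hA _ (hE g hg)]
      rfl
    have hC : ∀ (c : K) (v : M), A (C c) v = c • v := by
      intro c v
      have : A (C c) = algebraMap K _ c := AlgHom.commutes A c
      rw [this]
      rfl
    have h5 : A (pderiv 0 g) (p • A (X 0) m) + A (pderiv 1 g) (q • A (X 1) m) = 0 := by
      rw [map_add, map_mul, map_mul, map_mul, map_mul, LinearMap.add_apply] at h4
      simp only [Module.End.mul_apply, hC] at h4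
      rw [map_smul, map_smul, act_comm A (pderiv 0 g), act_comm A (pderiv 1 g)]
      exact h4
    have h6 : A (pderiv 0 g) a + A (pderiv 1 g) b = 0 := prod_le_Dd A I0 h2 ⟨ha, hb⟩ g hg
    rw [map_add, map_add, add_add_add_comm, h5, zero_add, h6]
  have h4 := Submodule.finrank_mono h3
  have h5 : finrank K (P ⊓ LinearMap.ker κ : Submodule K (M × (M × M))) ≤ finrank K (W A 2) := by
    have h6 := finrank_map_add (P ⊓ LinearMap.ker κ : Submodule K (M × (M × M)))
      (LinearMap.fst K M (M × M))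
    have h7 : (P ⊓ LinearMap.ker κ : Submodule K (M × (M × M))).map (LinearMap.fst K M (M × M)) ≤
        W A 2 := by
      rintro _ ⟨⟨m, a, b⟩, ⟨⟨-, ⟨ha, hb⟩⟩, hk⟩, rfl⟩
      have hk' : (p • A (X 0) m + a, q • A (X 1) m + b) = (0 : M × M) := hk
      have hk1 : p • A (X 0) m + a = 0 := congrArg Prod.fst hk'
      have hk2 : q • A (X 1) m + b = 0 := congrArg Prod.snd hk'
      refine ⟨?_, ?_⟩
      · show A (X 0) m ∈ W A 1
        have h8 : A (X 0) m = p⁻¹ • (-a) := by
          rw [← eq_neg_of_add_eq_zero_left hk1, smul_smul, inv_mul_cancel₀ hp, one_smul]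
        rw [h8]
        exact Submodule.smul_mem _ _ (Submodule.neg_mem _ ha)
      · show A (X 1) m ∈ W A 1
        have h8 : A (X 1) m = q⁻¹ • (-b) := by
          rw [← eq_neg_of_add_eq_zero_left hk2, smul_smul, inv_mul_cancel₀ hq, one_smul]
        rw [h8]
        exact Submodule.smul_mem _ _ (Submodule.neg_mem _ hb)
    have h8 : ((P ⊓ LinearMap.ker κ) ⊓ LinearMap.ker (LinearMap.fst K M (M × M)) :
        Submodule K (M × (M × M))) = ⊥ := by
      rw [eq_bot_iff]
      rintro ⟨m, a, b⟩ ⟨⟨-, hk⟩, hm⟩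
      have hk' : (p • A (X 0) m + a, q • A (X 1) m + b) = (0 : M × M) := hk
      have hm' : m = 0 := hm
      subst hm'
      rw [map_zero, map_zero, smul_zero, smul_zero, zero_add, zero_add] at hk'
      have hk1 : a = 0 := congrArg Prod.fst hk'
      have hk2 : b = 0 := congrArg Prod.snd hk'
      subst hk1
      subst hk2
      exact Submodule.zero_mem _
    rw [h8, finrank_bot, add_zero] at h6
    rw [← h6]
    exact Submodule.finrank_mono h7
  omega

/-- two-dimensional socle and an element `l` of order one with `l m ≤ I0` -/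
theorem good_soc (A : MvPolynomial (Fin 2) K →ₐ[K] Module.End K M)
    (I0 : Ideal (MvPolynomial (Fin 2) K))
    [FiniteDimensional K M] [FiniteDimensional K (MvPolynomial (Fin 2) K ⧸ I0)] [Nontrivial M]
    (N : ℕ) (hN : mm K 2 ^ N ≤ I0) (hA : ∀ g ∈ I0, A g = 0) (h2 : I0 ≤ mm K 2 ^ 2)
    (p q : K) (hp : p ≠ 0) (hq : q ≠ 0)
    (hE : ∀ g ∈ I0, C p * X 0 * pderiv 0 g + C q * X 1 * pderiv 1 g ∈ I0)
    (s t : MvPolynomial (Fin 2) K)
    (hs : X 0 * s ∈ I0) (hs' : X 1 * s ∈ I0) (ht : X 0 * t ∈ I0) (ht' : X 1 * t ∈ I0)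
    (hind : ∀ a b : K, C a * s + C b * t ∈ I0 → a = 0 ∧ b = 0)
    (a b : K) (hab : a ≠ 0 ∨ b ≠ 0) (r : MvPolynomial (Fin 2) K) (hr : r ∈ mm K 2 ^ 2)
    (hl0 : (C a * X 0 + C b * X 1 + r) * X 0 ∈ I0)
    (hl1 : (C a * X 0 + C b * X 1 + r) * X 1 ∈ I0) : Good A I0 := by
  refine good_of A I0 hA ?_
  have h3 := finrank_ker_G_soc A I0 s t hs hs' ht ht' hind
  have h4 := finrank_Dd_one A I0 hA h2 p q hp hq hE
  set P : Submodule K M := LinearMap.range (A (X 0)) ⊔ LinearMap.range (A (X 1)) with hP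
  obtain ⟨f, hf0, hfx, hfy⟩ := exists_functional A N fun g hg => hA g (hN hg)
  have hPlt : P < ⊤ := by
    rw [lt_top_iff_ne_top]
    intro h
    apply hf0
    have h5 : P ≤ LinearMap.ker f := by
      rw [hP]
      refine sup_le ?_ ?_
      · rintro _ ⟨u, rfl⟩
        exact hfx u
      · rintro _ ⟨u, rfl⟩
        exact hfy u
    rw [h, top_le_iff, LinearMap.ker_eq_top] at h5
    exact h5
  have h5 : finrank K P < finrank K M := Submodule.finrank_lt hPlt.ne
  set l : M →ₗ[K] M := A (C a * X 0 + C b * X 1 + r) with hl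
  have hPl : P ≤ LinearMap.ker l := by
    rw [hP]
    refine sup_le ?_ ?_
    · rintro _ ⟨u, rfl⟩
      show A (C a * X 0 + C b * X 1 + r) (A (X 0) u) = 0
      rw [← Module.End.mul_apply, ← map_mul, hA _ hl0]
      rfl
    · rintro _ ⟨u, rfl⟩
      show A (C a * X 0 + C b * X 1 + r) (A (X 1) u) = 0
      rw [← Module.End.mul_apply, ← map_mul, hA _ hl1]
      rfl
  have h6 := Submodule.finrank_mono hPl
  have h7 := LinearMap.finrank_range_add_finrank_ker l
  have hC : ∀ (c : K) (v : M), A (C c) v = c • v := by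
    intro c v
    have : A (C c) = algebraMap K _ c := AlgHom.commutes A c
    rw [this]
    rfl
  have hlu : ∀ u ∈ W A 2, l u = a • A (X 0) u + b • A (X 1) u := by
    intro u hu
    have h8 : A r u = 0 := W_pow A 2 r hr 0 u hu
    rw [hl, map_add, map_add, LinearMap.add_apply, LinearMap.add_apply, map_mul, map_mul,
      Module.End.mul_apply, Module.End.mul_apply, hC, hC, h8, add_zero]
  have h8 := step l (W A 2) (LinearMap.range l) ⊥ (fun u _ => ⟨u, rfl⟩) bot_le
  have h9 : finrank K (W A 2 ⊓ (⊥ : Submodule K M).comap l : Submodule K M) ≤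
      2 * finrank K (W A 1) := by
    rcases hab with ha | hb
    · have h10 := step (A (X 1)) (W A 2 ⊓ (⊥ : Submodule K M).comap l) (W A 1) ⊥
        (fun u hu => hu.1.2) bot_le
      have h11 : finrank K ((W A 2 ⊓ (⊥ : Submodule K M).comap l) ⊓
          (⊥ : Submodule K M).comap (A (X 1)) : Submodule K M) ≤ finrank K (W A 1) := by
        refine Submodule.finrank_mono ?_
        rintro u ⟨⟨hu, hlu'⟩, hy⟩
        have h12 : l u = 0 := hlu'
        have h13 : A (X 1) u = 0 := hy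
        rw [hlu u hu, h13, smul_zero, add_zero] at h12
        exact ⟨(smul_eq_zero.1 h12).resolve_left ha, h13⟩
      rw [finrank_bot] at h10
      omega
    · have h10 := step (A (X 0)) (W A 2 ⊓ (⊥ : Submodule K M).comap l) (W A 1) ⊥
        (fun u hu => hu.1.1) bot_le
      have h11 : finrank K ((W A 2 ⊓ (⊥ : Submodule K M).comap l) ⊓
          (⊥ : Submodule K M).comap (A (X 0)) : Submodule K M) ≤ finrank K (W A 1) := by
        refine Submodule.finrank_mono ?_
        rintro u ⟨⟨hu, hlu'⟩, hx⟩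
        have h12 : l u = 0 := hlu'
        have h13 : A (X 0) u = 0 := hx
        rw [hlu u hu, h13, smul_zero, zero_add] at h12
        exact ⟨h13, (smul_eq_zero.1 h12).resolve_left hb⟩
      rw [finrank_bot] at h10
      omega
  rw [finrank_bot] at h8
  omega

end Pool.Agent.H66.Rig.Two
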