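import Mathlib
import Pool.Agent.H66.Rig.TwoL
import Pool.Agent.H66.Rig.CiA

/-!
# Linear maps on an ideal from cocycles (MP_562323_ag)
-/

set_option autoImplicit false

namespace Pool.Agent.H66.Rig.Two

open Module MvPolynomial

variable {K M : Type*} [Field K] [AddCommGroup M] [Module K M]

/-- the cocycle of `Good` gives a linear map `I0 → M` which is not induced by a derivation -/
theorem good_map (A : MvPolynomial (Fin 2) K →ₐ[K] Module.End K M)
    (I0 : Ideal (MvPolynomial (Fin 2) K)) (h : Good A I0) :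
    ∃ Ψ : MvPolynomial (Fin 2) K →ₗ[K] M, (∀ c, ∀ g ∈ I0, Ψ (c * g) = A c (Ψ g)) ∧
      ¬ ∃ u v : M, ∀ g ∈ I0, Ψ g = A (pderiv 0 g) u + A (pderiv 1 g) v := by
  obtain ⟨α, β, hc, hno⟩ := h
  obtain ⟨Ψ, -, h0, h1⟩ := exists_PsiP A (α ∘ₗ (Ideal.Quotient.mkₐ K I0).toLinearMap)
    (β ∘ₗ (Ideal.Quotient.mkₐ K I0).toLinearMap) hc
  have h0' : ∀ f, Ψ (X 0 * f) = A (X 0) (Ψ f) + α (Ideal.Quotient.mk I0 f) := h0
  have h1' : ∀ f, Ψ (X 1 * f) = A (X 1) (Ψ f) + β (Ideal.Quotient.mk I0 f) := h1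
  have hX : ∀ (k : Fin 2) (g : MvPolynomial (Fin 2) K), g ∈ I0 → Ψ (X k * g) = A (X k) (Ψ g) := by
    intro k g hg
    have hg0 : Ideal.Quotient.mk I0 g = 0 := Ideal.Quotient.eq_zero_iff_mem.2 hg
    fin_cases k
    · show Ψ (X 0 * g) = A (X 0) (Ψ g)
      rw [h0', hg0, map_zero, add_zero]
    · show Ψ (X 1 * g) = A (X 1) (Ψ g)
      rw [h1', hg0, map_zero, add_zero]
  refine ⟨Ψ, ?_, ?_⟩
  · intro c
    induction c using MvPolynomial.induction_on with
    | C c =>
      intro g _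
      have hC : A (C c) = algebraMap K _ c := AlgHom.commutes A c
      rw [← MvPolynomial.smul_eq_C_mul, map_smul, hC]
      rfl
    | add p q hp hq =>
      intro g hg
      rw [add_mul, map_add, map_add, LinearMap.add_apply, hp g hg, hq g hg]
    | mul_X p a hp =>
      intro g hg
      rw [mul_assoc, hp _ (I0.mul_mem_left _ hg), hX a g hg, map_mul, Module.End.mul_apply]
  · rintro ⟨u, v, huv⟩
    apply hno
    let D : MvPolynomial (Fin 2) K →ₗ[K] M :=
      Ψ - (A.toLinearMap.flip u ∘ₗ (pderiv 0).toLinearMap) -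
        (A.toLinearMap.flip v ∘ₗ (pderiv 1).toLinearMap)
    have hD : ∀ g, D g = Ψ g - A (pderiv 0 g) u - A (pderiv 1 g) v := fun g => rfl
    obtain ⟨ψ, hψ⟩ := exists_lift I0 D (by
      intro g hg
      rw [hD, huv g hg]
      abel)
    refine ⟨ψ, u, v, fun r => ⟨?_, ?_⟩⟩
    · rw [hψ, hψ, hD, hD, h0', pd_self, pd_ne 1 0 (by decide)]
      simp only [map_mul, map_add, map_sub, LinearMap.add_apply, Module.End.mul_apply]
      abel
    · rw [hψ, hψ, hD, hD, h1', pd_self, pd_ne 0 1 (by decide)]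
      simp only [map_mul, map_add, map_sub, LinearMap.add_apply, Module.End.mul_apply]
      abel

end Pool.Agent.H66.Rig.Two
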