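import Mathlib
import Pool.Agent.H66.Rig.TwoG
import Pool.Agent.H66.Rig.CiA
import Pool.Agent.H66.Rig.CiB

/-!
# Linear maps on an ideal with two generators (MP_562323_ag)
-/

set_option autoImplicit false

namespace Pool.Agent.H66.Rig.Two

open Module MvPolynomial

variable {K M : Type*} [Field K] [AddCommGroup M] [Module K M]

/-- If `I0` is generated by `g`, `g'` up to `mm I0` and the socle of `K[x, y] / I0` is one-dimensional,
then the values of linear maps `I0 → M` at `g` are not contained in a proper subspace. -/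
theorem ci_map (A : MvPolynomial (Fin 2) K →ₐ[K] Module.End K M)
    (I0 : Ideal (MvPolynomial (Fin 2) K))
    [FiniteDimensional K M] [FiniteDimensional K (MvPolynomial (Fin 2) K ⧸ I0)]
    (N : ℕ) (hN : mm K 2 ^ N ≤ I0) (hA : ∀ g ∈ I0, A g = 0)
    (s : MvPolynomial (Fin 2) K) (hs : s ∉ I0)
    (hsoc : ∀ t, X 0 * t ∈ I0 → X 1 * t ∈ I0 → ∃ c : K, t - C c * s ∈ I0)
    (g g' : MvPolynomial (Fin 2) K) (hg : g ∈ I0) (hg' : g' ∈ I0)
    (hgen : ∀ h ∈ I0, ∃ c d : K, h - (C c * g + C d * g') ∈ mm K 2 * I0)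
    (U : Submodule K M) (hU : U ≠ ⊤) :
    ∃ Ψ : MvPolynomial (Fin 2) K →ₗ[K] M, (∀ c, ∀ g ∈ I0, Ψ (c * g) = A c (Ψ g)) ∧ Ψ g ∉ U := by
  classical
  by_contra hcon
  push Not at hcon
  have hker : ∀ t : LinearMap.ker (G A I0), ∀ r, A (X 0) (t.1.2 (Ideal.Quotient.mk I0 r)) +
      t.1.1 (Ideal.Quotient.mk I0 (X 1 * r)) = A (X 1) (t.1.1 (Ideal.Quotient.mk I0 r)) +
      t.1.2 (Ideal.Quotient.mk I0 (X 0 * r)) := by
    intro t r
    have h1 : A (X 0) ∘ₗ t.1.2 - t.1.2 ∘ₗ LX I0 0 - (A (X 1) ∘ₗ t.1.1 - t.1.1 ∘ₗ LX I0 1) = 0 := t.2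
    have h3 := LinearMap.congr_fun h1 (Ideal.Quotient.mk I0 r)
    have h4 : A (X 0) (t.1.2 (Ideal.Quotient.mk I0 r)) - t.1.2 (LX I0 0 (Ideal.Quotient.mk I0 r)) -
      (A (X 1) (t.1.1 (Ideal.Quotient.mk I0 r)) - t.1.1 (LX I0 1 (Ideal.Quotient.mk I0 r))) = 0 := h3
    rw [LX_mk, LX_mk] at h4
    rw [← sub_eq_zero, ← h4]
    abel
  let q : MvPolynomial (Fin 2) K →ₗ[K] (MvPolynomial (Fin 2) K ⧸ I0) :=
    (Ideal.Quotient.mkₐ K I0).toLinearMap
  have hq : ∀ f, q f = Ideal.Quotient.mk I0 f := fun _ => rfl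
  have hex : ∀ t : LinearMap.ker (G A I0), ∃ Ψ : MvPolynomial (Fin 2) K →ₗ[K] M,
      (∀ f, Ψ (X 0 * f) = A (X 0) (Ψ f) + t.1.1 (Ideal.Quotient.mk I0 f)) ∧
      (∀ f, Ψ (X 1 * f) = A (X 1) (Ψ f) + t.1.2 (Ideal.Quotient.mk I0 f)) := by
    intro t
    obtain ⟨Ψ, -, h0, h1⟩ := exists_PsiP A (t.1.1 ∘ₗ q) (t.1.2 ∘ₗ q) (hker t)
    exact ⟨Ψ, h0, h1⟩
  choose Ψ hΨ0 hΨ1 using hex
  let b := Module.finBasis K (LinearMap.ker (G A I0))
  let Φ : LinearMap.ker (G A I0) →ₗ[K] (MvPolynomial (Fin 2) K →ₗ[K] M) :=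
    b.constr K fun k => Ψ (b k)
  have hΦb : ∀ k, Φ (b k) = Ψ (b k) := fun k => b.constr_basis K _ k
  have hΦ0 : ∀ t f, Φ t (X 0 * f) = A (X 0) (Φ t f) + t.1.1 (Ideal.Quotient.mk I0 f) := by
    intro t f
    have h1 : (LinearMap.applyₗ (X 0 * f) ∘ₗ Φ : LinearMap.ker (G A I0) →ₗ[K] M) =
        A (X 0) ∘ₗ LinearMap.applyₗ f ∘ₗ Φ +
        LinearMap.applyₗ (Ideal.Quotient.mk I0 f) ∘ₗ LinearMap.fst K _ _ ∘ₗ
          (LinearMap.ker (G A I0)).subtype := by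
      refine b.ext fun k => ?_
      show Φ (b k) (X 0 * f) = A (X 0) (Φ (b k) f) + (b k).1.1 (Ideal.Quotient.mk I0 f)
      rw [hΦb]
      exact hΨ0 (b k) f
    exact LinearMap.congr_fun h1 t
  have hΦ1 : ∀ t f, Φ t (X 1 * f) = A (X 1) (Φ t f) + t.1.2 (Ideal.Quotient.mk I0 f) := by
    intro t f
    have h1 : (LinearMap.applyₗ (X 1 * f) ∘ₗ Φ : LinearMap.ker (G A I0) →ₗ[K] M) =
        A (X 1) ∘ₗ LinearMap.applyₗ f ∘ₗ Φ +
        LinearMap.applyₗ (Ideal.Quotient.mk I0 f) ∘ₗ LinearMap.snd K _ _ ∘ₗ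
          (LinearMap.ker (G A I0)).subtype := by
      refine b.ext fun k => ?_
      show Φ (b k) (X 1 * f) = A (X 1) (Φ (b k) f) + (b k).1.2 (Ideal.Quotient.mk I0 f)
      rw [hΦb]
      exact hΨ1 (b k) f
    exact LinearMap.congr_fun h1 t
  have hC : ∀ (c : K) (v : M), A (C c) v = c • v := by
    intro c v
    have : A (C c) = algebraMap K _ c := AlgHom.commutes A c
    rw [this]
    rfl
  have hΦI : ∀ t c, ∀ h ∈ I0, Φ t (c * h) = A c (Φ t h) := by
    intro t c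
    induction c using MvPolynomial.induction_on with
    | C c =>
      intro h _
      rw [← MvPolynomial.smul_eq_C_mul, map_smul, hC]
    | add p q hp hq =>
      intro h hh
      rw [add_mul, map_add, map_add, LinearMap.add_apply, hp h hh, hq h hh]
    | mul_X p a hp =>
      intro h hh
      have hh0 : Ideal.Quotient.mk I0 h = 0 := Ideal.Quotient.eq_zero_iff_mem.2 hh
      have e1 : A (p * X a) = A p * A (X a) := map_mul _ _ _
      rw [mul_assoc, hp _ (I0.mul_mem_left _ hh), e1, Module.End.mul_apply]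
      congr 1
      fin_cases a
      · show Φ t (X 0 * h) = A (X 0) (Φ t h)
        rw [hΦ0, hh0, map_zero, add_zero]
      · show Φ t (X 1 * h) = A (X 1) (Φ t h)
        rw [hΦ1, hh0, map_zero, add_zero]
  let Λ : LinearMap.ker (G A I0) →ₗ[K] M × M :=
    LinearMap.prod (LinearMap.applyₗ g ∘ₗ Φ) (LinearMap.applyₗ g' ∘ₗ Φ)
  have hΛ : ∀ t, Λ t = (Φ t g, Φ t g') := fun _ => rfl
  have hrange : LinearMap.range Λ ≤ U.prod ⊤ := by
    rintro _ ⟨t, rfl⟩
    rw [hΛ]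
    exact ⟨hcon (Φ t) (hΦI t), trivial⟩
  have h1 := Submodule.finrank_mono hrange
  rw [finrank_prod', finrank_top] at h1
  have h2 : finrank K U < finrank K M := Submodule.finrank_lt hU
  -- the kernel
  let Γ : ((MvPolynomial (Fin 2) K ⧸ I0) →ₗ[K] M) →ₗ[K]
      (((MvPolynomial (Fin 2) K ⧸ I0) →ₗ[K] M) × ((MvPolynomial (Fin 2) K ⧸ I0) →ₗ[K] M)) :=
    Gam A I0 hA ∘ₗ LinearMap.inl K _ _
  have hΓ1 : ∀ ψ f, (Γ ψ).1 (Ideal.Quotient.mk I0 f) = ψ (Ideal.Quotient.mk I0 (X 0 * f)) -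
      A (X 0) (ψ (Ideal.Quotient.mk I0 f)) := by
    intro ψ f
    have := Gam_fst A I0 hA (ψ, 0) f
    rw [Prod.fst_zero, map_zero, add_zero] at this
    exact this
  have hΓ2 : ∀ ψ f, (Γ ψ).2 (Ideal.Quotient.mk I0 f) = ψ (Ideal.Quotient.mk I0 (X 1 * f)) -
      A (X 1) (ψ (Ideal.Quotient.mk I0 f)) := by
    intro ψ f
    have := Gam_snd A I0 hA (ψ, 0) f
    rw [Prod.snd_zero, map_zero, add_zero] at this
    exact this
  let ε : M →ₗ[K] ((MvPolynomial (Fin 2) K ⧸ I0) →ₗ[K] M) := (A' A I0 hA).toLinearMap.flip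
  have hε : ∀ u f, ε u (Ideal.Quotient.mk I0 f) = A f u := by
    intro u f
    show A' A I0 hA (Ideal.Quotient.mk I0 f) u = _
    rw [A'_mk]
  have hεinj : Function.Injective ε := by
    intro u v huv
    have h3 := hε u 1
    rw [huv, hε, map_one] at h3
    exact h3.symm
  have hεker : LinearMap.range ε ≤ LinearMap.ker Γ := by
    rintro _ ⟨u, rfl⟩
    rw [LinearMap.mem_ker]
    refine Prod.ext (LinearMap.ext fun c => ?_) (LinearMap.ext fun c => ?_)
    · obtain ⟨f, rfl⟩ := Ideal.Quotient.mk_surjective c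
      rw [hΓ1, hε, hε, map_mul, Module.End.mul_apply, sub_self]
      rfl
    · obtain ⟨f, rfl⟩ := Ideal.Quotient.mk_surjective c
      rw [hΓ2, hε, hε, map_mul, Module.End.mul_apply, sub_self]
      rfl
  have h3 := Submodule.finrank_mono hεker
  rw [LinearMap.finrank_range_of_inj hεinj] at h3
  have h4 := LinearMap.finrank_range_add_finrank_ker Γ
  rw [Module.finrank_linearMap] at h4
  have hkerΛ : (LinearMap.ker Λ).map (LinearMap.ker (G A I0)).subtype ≤ LinearMap.range Γ := by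
    rintro _ ⟨t, ht, rfl⟩
    have ht' : (Φ t g, Φ t g') = (0 : M × M) := ht
    have ht1 : Φ t g = 0 := congrArg Prod.fst ht'
    have ht2 : Φ t g' = 0 := congrArg Prod.snd ht'
    let N0 : Ideal (MvPolynomial (Fin 2) K) :=
      { carrier := {h | h ∈ I0 ∧ Φ t h = 0}
        add_mem' := by
          rintro a b ⟨ha, ha'⟩ ⟨hb, hb'⟩
          exact ⟨I0.add_mem ha hb, by rw [map_add, ha', hb', add_zero]⟩
        zero_mem' := ⟨I0.zero_mem, map_zero _⟩
        smul_mem' := by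
          rintro c a ⟨ha, ha'⟩
          refine ⟨I0.mul_mem_left _ ha, ?_⟩
          rw [smul_eq_mul, hΦI t c a ha, ha', map_zero] }
    have hN0 : ∀ h, h ∈ N0 ↔ h ∈ I0 ∧ Φ t h = 0 := fun _ => Iff.rfl
    have hgN : g ∈ N0 := ⟨hg, ht1⟩
    have hgN' : g' ∈ N0 := ⟨hg', ht2⟩
    have h5 : I0 ≤ N0 ⊔ mm K 2 * I0 := by
      intro h hh
      obtain ⟨c, d, hcd⟩ := hgen h hh
      have h6 : h = (C c * g + C d * g') + (h - (C c * g + C d * g')) := by ring
      rw [h6]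
      exact Submodule.add_mem_sup (N0.add_mem (N0.mul_mem_left _ hgN) (N0.mul_mem_left _ hgN')) hcd
    have h6 : ∀ k : ℕ, I0 ≤ N0 ⊔ mm K 2 ^ k * I0 := by
      intro k
      induction k with
      | zero =>
        rw [pow_zero, one_mul]
        exact le_sup_right
      | succ k ih =>
        refine ih.trans (sup_le le_sup_left ?_)
        refine (Ideal.mul_mono_right h5).trans ?_
        rw [Ideal.mul_sup, ← mul_assoc, ← pow_succ]
        exact sup_le_sup Ideal.mul_le_right le_rfl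
    have h7 : mm K 2 ^ N * I0 ≤ N0 := by
      rw [Ideal.mul_le]
      intro r hr h hh
      refine ⟨I0.mul_mem_left _ hh, ?_⟩
      rw [hΦI t r h hh, hA r (hN hr), LinearMap.zero_apply]
    have h8 : ∀ h ∈ I0, Φ t h = 0 := fun h hh => (sup_le le_rfl h7 (h6 N hh) : h ∈ N0).2
    obtain ⟨ψ, hψ⟩ := exists_lift I0 (Φ t) h8
    refine ⟨ψ, ?_⟩
    refine Prod.ext (LinearMap.ext fun c => ?_) (LinearMap.ext fun c => ?_)
    · obtain ⟨f, rfl⟩ := Ideal.Quotient.mk_surjective c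
      rw [hΓ1, hψ, hψ, hΦ0]
      show _ = t.1.1 (Ideal.Quotient.mk I0 f)
      abel
    · obtain ⟨f, rfl⟩ := Ideal.Quotient.mk_surjective c
      rw [hΓ2, hψ, hψ, hΦ1]
      show _ = t.1.2 (Ideal.Quotient.mk I0 f)
      abel
  have h5 := Submodule.finrank_mono hkerΛ
  have h6 : finrank K ((LinearMap.ker Λ).map (LinearMap.ker (G A I0)).subtype) =
      finrank K (LinearMap.ker Λ) :=
    (LinearEquiv.finrank_eq (Submodule.equivMapOfInjective _ (Submodule.injective_subtype _) _)).symm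
  have h7 := LinearMap.finrank_range_add_finrank_ker Λ
  have h8 := finrank_ker_G_gor A I0 N hN hA s hs hsoc
  omega

end Pool.Agent.H66.Rig.Two
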