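import Mathlib
import Pool.Agent.H66.Rig.Socle

/-!
# The generator-socle criterion (MP_562323_ag)
-/

set_option autoImplicit false

namespace Pool.Agent.H66.Rig

open MvPolynomial

variable {K : Type*} [Field K] {n : ℕ}

/-- **rank bound**: a trivial deformation of small rank comes from a derivation vanishing at the
point -/
theorem rank_bound [CharZero K] (e q : ℕ) (I : Ideal (MvPolynomial (Fin n) K))
    (hq : mm K n ^ q ≤ I) (hI : I ≤ mm K n ^ (e + 1))
    (φ : I →ₗ[MvPolynomial (Fin n) K] (MvPolynomial (Fin n) K ⧸ I))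
    (a : Fin n → MvPolynomial (Fin n) K ⧸ I)
    (ha : ∀ f : I, φ f = ∑ i : Fin n,
      Ideal.Quotient.mk I (pderiv i (f : MvPolynomial (Fin n) K)) * a i)
    (i : Fin n) (hi : a i ∉ (mm K n).map (Ideal.Quotient.mk I)) :
    (n + e - 1).choose e ≤ Module.finrank K (LinearMap.range (φ.restrictScalars K)) := by
  choose b hb using fun i => Ideal.Quotient.mk_surjective (a i)
  have hD : ∀ g : I, φ g = Ideal.Quotient.mk I (der b g) := by
    intro g
    rw [ha g, der_apply, map_sum]
    refine Finset.sum_congr rfl fun i _ => ?_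
    rw [map_mul, hb]
  have hbi : b i ∉ mm K n := by
    intro h
    refine hi ?_
    rw [← hb i]
    exact Ideal.mem_map_of_mem _ h
  have hα : coeff 0 (b i) ≠ 0 := by
    intro h0
    have := sub_C_mem (b i)
    rw [h0, C_0, sub_zero] at this
    exact hbi this
  have hy : C (coeff 0 (b i))⁻¹ * (X i : MvPolynomial (Fin n) K) ∈ mm K n :=
    Ideal.mul_mem_left _ _ (X_mem i)
  have hDy : der b (C (coeff 0 (b i))⁻¹ * (X i : MvPolynomial (Fin n) K)) - 1 ∈ mm K n := by
    have h1 : der b (C (coeff 0 (b i))⁻¹ * (X i : MvPolynomial (Fin n) K)) - 1 =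
        C (coeff 0 (b i))⁻¹ * (b i - C (coeff 0 (b i))) := by
      rw [← MvPolynomial.smul_eq_C_mul, Derivation.map_smul, der, mkDerivation_X, mul_sub,
        ← C_mul, inv_mul_cancel₀ hα, C_1, MvPolynomial.smul_eq_C_mul]
    rw [h1]
    exact Ideal.mul_mem_left _ _ (sub_C_mem _)
  haveI := finite_quot I q hq
  have h1 := dim_le (der b) (mm K n) hy hDy e (Pool.Agent.H12.Rig.S K n e)
    (fun u hu => Pool.Agent.H12.Rig.form_mem_pow le_rfl hu)
    (fun u hu hu2 => Pool.Agent.H12.Rig.form_pow_zero (Nat.lt_succ_self e) hu hu2) I hI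
    (LinearMap.range (φ.restrictScalars K)) (fun g hg => ⟨⟨g, hg⟩, hD ⟨g, hg⟩⟩)
  rwa [Pool.Agent.H12.Rig.finrank_S] at h1

/-- the map `I → S / I` of rank one attached to a minimal generator and a socle element -/
theorem exists_rank_one (I : Ideal (MvPolynomial (Fin n) K)) (f : MvPolynomial (Fin n) K)
    (hf : f ∈ I) (hf2 : f ∉ mm K n * I) (s : MvPolynomial (Fin n) K) (hs : ∀ i, X i * s ∈ I) :
    ∃ φ : I →ₗ[MvPolynomial (Fin n) K] (MvPolynomial (Fin n) K ⧸ I),
      Module.finrank K (LinearMap.range (φ.restrictScalars K)) ≤ 1 ∧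
      ∃ c : K, c ≠ 0 ∧ φ ⟨f, hf⟩ = c • Ideal.Quotient.mk I s := by
  obtain ⟨lam, hlf, hl⟩ := Submodule.exists_le_ker_of_notMem
    (p := (mm K n * I).restrictScalars K) (v := f) hf2
  have hl' : ∀ g ∈ mm K n * I, lam g = 0 := fun g hg => hl hg
  let φ : I →ₗ[MvPolynomial (Fin n) K] (MvPolynomial (Fin n) K ⧸ I) :=
    { toFun := fun g => lam (g : MvPolynomial (Fin n) K) • Ideal.Quotient.mk I s
      map_add' := fun g h => by simp [add_smul]
      map_smul' := fun p g => by
        have h1 : lam (p * (g : MvPolynomial (Fin n) K)) =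
            coeff 0 p * lam (g : MvPolynomial (Fin n) K) := by
          have h2 : p * (g : MvPolynomial (Fin n) K) =
              (p - C (coeff 0 p)) * (g : MvPolynomial (Fin n) K) +
                coeff 0 p • (g : MvPolynomial (Fin n) K) := by
            rw [MvPolynomial.smul_eq_C_mul]
            ring
          rw [h2, map_add, hl' _ (Ideal.mul_mem_mul (sub_C_mem p) g.2), zero_add, map_smul,
            smul_eq_mul]
        have h3 : Ideal.Quotient.mk I (p * s) = coeff 0 p • Ideal.Quotient.mk I s := by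
          have h4 : p * s = (p - C (coeff 0 p)) * s + coeff 0 p • s := by
            rw [MvPolynomial.smul_eq_C_mul]
            ring
          rw [h4, map_add, Ideal.Quotient.eq_zero_iff_mem.2 (mul_socle hs (sub_C_mem p)),
            zero_add]
          rfl
        show lam (p * (g : MvPolynomial (Fin n) K)) • Ideal.Quotient.mk I s =
          p • (lam (g : MvPolynomial (Fin n) K) • Ideal.Quotient.mk I s)
        have h5 : p • (lam (g : MvPolynomial (Fin n) K) • Ideal.Quotient.mk I s) =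
            lam (g : MvPolynomial (Fin n) K) • Ideal.Quotient.mk I (p * s) := by
          rw [smul_comm]
          rfl
        rw [h1, h5, h3, smul_smul, mul_comm] }
  refine ⟨φ, ?_, lam f, hlf, rfl⟩
  have h1 : LinearMap.range (φ.restrictScalars K) ≤
      Submodule.span K {Ideal.Quotient.mk I s} := by
    rintro _ ⟨g, rfl⟩
    exact Submodule.smul_mem _ _ (Submodule.mem_span_singleton_self _)
  have h2 := Submodule.finrank_mono h1
  have h3 := finrank_span_le_card (R := K) ({Ideal.Quotient.mk I s} : Set _)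
  simp only [Set.toFinset_singleton, Finset.card_singleton] at h3
  omega

/-- **generator-socle criterion** -/
theorem criterion [CharZero K] (q : ℕ) (I : Ideal (MvPolynomial (Fin n) K))
    (hq : mm K n ^ q ≤ I) (hI : I ≤ mm K n ^ 2)
    (f : MvPolynomial (Fin n) K) (hf : f ∈ I) (hf2 : f ∉ mm K n * I)
    (s : MvPolynomial (Fin n) K) (hs : ∀ i, X i * s ∈ I)
    (hs2 : s ∉ I ⊔ mm K n * Ideal.span (Set.range fun i => pderiv i f)) :
    NotRigid I := by
  rcases Nat.lt_or_ge 1 n with hn2 | hn2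
  swap
  · rcases Nat.lt_or_ge 0 n with hn0 | hn0
    · obtain rfl : n = 1 := by omega
      exact one_var I q hq hI
    · obtain rfl : n = 0 := by omega
      have h1 : mm K 0 = ⊥ := by
        rw [mm, Set.range_eq_empty, Ideal.span_empty]
      rw [h1, pow_two, Ideal.mul_bot] at hI
      have h2 : f = 0 := hI hf
      exact absurd (h2 ▸ Ideal.zero_mem _) hf2
  obtain ⟨φ, hφ, c, hc, hφf⟩ := exists_rank_one I f hf hf2 s hs
  refine ⟨φ, ?_⟩
  rintro ⟨a, ha⟩
  have hm : ∀ i, a i ∈ (mm K n).map (Ideal.Quotient.mk I) := by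
    intro i
    by_contra hcon
    have h1 := rank_bound 1 q I hq hI φ a ha i hcon
    rw [Nat.choose_one_right] at h1
    omega
  have h2 : ∀ i, ∃ b ∈ mm K n, Ideal.Quotient.mk I b = a i := fun i =>
    (Ideal.mem_map_iff_of_surjective _ Ideal.Quotient.mk_surjective).1 (hm i)
  choose b hb hb2 using h2
  refine hs2 ?_
  have h3 := ha ⟨f, hf⟩
  rw [hφf] at h3
  have h4 : Ideal.Quotient.mk I (c • s) = Ideal.Quotient.mk I (∑ i, b i * pderiv i f) := by
    rw [map_sum]
    refine Eq.trans h3 (Finset.sum_congr rfl fun i _ => ?_)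
    rw [map_mul, hb2, mul_comm]
  have h5 : c⁻¹ • (c • s - ∑ i, b i * pderiv i f) ∈ I :=
    smul_mem' _ _ ((Ideal.Quotient.mk_eq_mk_iff_sub_mem _ _).1 h4)
  have h6 : s = c⁻¹ • (c • s - ∑ i, b i * pderiv i f) + c⁻¹ • ∑ i, b i * pderiv i f := by
    rw [smul_sub, smul_smul, inv_mul_cancel₀ hc, one_smul]
    ring
  rw [h6]
  refine Submodule.add_mem_sup h5 (smul_mem' _ _ (Ideal.sum_mem _ fun i _ => ?_))
  exact Ideal.mul_mem_mul (hb i) (Ideal.subset_span ⟨i, rfl⟩)

/-- orders of generators and socle elements -/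
theorem order_criterion [CharZero K] (q j : ℕ) (I : Ideal (MvPolynomial (Fin n) K))
    (hq : mm K n ^ q ≤ I) (hI : I ≤ mm K n ^ 2)
    (f : MvPolynomial (Fin n) K) (hf : f ∈ I) (hf1 : f ∈ mm K n ^ j) (hf2 : f ∉ mm K n * I)
    (s : MvPolynomial (Fin n) K) (hs : ∀ i, X i * s ∈ I) (hs2 : s ∉ I ⊔ mm K n ^ j) :
    NotRigid I := by
  refine criterion q I hq hI f hf hf2 s hs fun h => hs2 ?_
  refine sup_le_sup_left ?_ I h
  cases j with
  | zero => rw [pow_zero, Ideal.one_eq_top]; exact le_top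
  | succ j =>
    rw [pow_succ']
    refine Ideal.mul_mono le_rfl ?_
    rw [Ideal.span_le]
    rintro _ ⟨i, rfl⟩
    exact der_pow (pderiv i) _ j hf1

/-- **truncations** -/
theorem truncation [CharZero K] (J : Ideal (MvPolynomial (Fin n) K)) (hJ : J ≤ mm K n ^ 2) (s : ℕ)
    (hs : 2 ≤ s) (h : ¬ mm K n ^ s ≤ J ⊔ mm K n ^ (s + 1)) : NotRigid (J ⊔ mm K n ^ s) :=
  thmC J hJ s hs h

end Pool.Agent.H66.Rig
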