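import Mathlib

/-!
# Extension of linear maps on ideals along flat maps (MP_562323_ag)
-/

set_option autoImplicit false

namespace Pool.Agent.H66.Rig

open TensorProduct

theorem flatext {R S' Q : Type*} [CommRing R] [CommRing S'] [CommRing Q] [Algebra R S']
    [Algebra S' Q] [Algebra R Q] [IsScalarTower R S' Q] [Module.Flat R S'] (I0 : Ideal R)
    (φ0 : I0 →ₗ[R] Q) :
    ∃ Θ : (I0.map (algebraMap R S')) →ₗ[S'] Q, ∀ (g : R) (hg : g ∈ I0),
      Θ ⟨algebraMap R S' g, Ideal.mem_map_of_mem _ hg⟩ = φ0 ⟨g, hg⟩ := by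
  let L : S' ⊗[R] I0 →ₗ[S'] Q := φ0.liftBaseChange S'
  let ι : S' ⊗[R] I0 →ₗ[S'] S' := ((Algebra.linearMap R S') ∘ₗ I0.subtype).liftBaseChange S'
  have hι : Function.Injective ι := by
    have h1 := Module.Flat.lTensor_preserves_injective_linearMap (M := S') I0.subtype
      I0.injective_subtype
    have h2 : ∀ t, ι t = TensorProduct.rid R S' (LinearMap.lTensor S' I0.subtype t) := by
      intro t
      induction t using TensorProduct.induction_on with
      | zero => rw [map_zero, map_zero, map_zero]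
      | tmul s g =>
        rw [LinearMap.lTensor_tmul, TensorProduct.rid_tmul]
        show ((Algebra.linearMap R S') ∘ₗ I0.subtype).liftBaseChange S' (s ⊗ₜ g) = _
        rw [LinearMap.liftBaseChange_tmul]
        show s * algebraMap R S' g = (g : R) • s
        rw [Algebra.smul_def, mul_comm]
      | add a b ha hb => rw [map_add, map_add, map_add, ha, hb]
    intro a b hab
    rw [h2, h2] at hab
    exact h1 ((TensorProduct.rid R S').injective hab)
  let e := LinearEquiv.ofInjective ι hι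
  have h1 : ∀ (g : R) (hg : g ∈ I0), ι (1 ⊗ₜ ⟨g, hg⟩) = algebraMap R S' g := by
    intro g hg
    show ((Algebra.linearMap R S') ∘ₗ I0.subtype).liftBaseChange S' (1 ⊗ₜ ⟨g, hg⟩) = _
    rw [LinearMap.liftBaseChange_tmul, one_smul]
    rfl
  have hle : I0.map (algebraMap R S') ≤ LinearMap.range ι := by
    rw [Ideal.map, Ideal.span_le]
    rintro _ ⟨g, hg, rfl⟩
    exact ⟨1 ⊗ₜ ⟨g, hg⟩, h1 g hg⟩
  refine ⟨L ∘ₗ e.symm.toLinearMap ∘ₗ Submodule.inclusion hle, ?_⟩
  intro g hg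
  have h3 : Submodule.inclusion hle ⟨algebraMap R S' g, Ideal.mem_map_of_mem _ hg⟩ =
      e (1 ⊗ₜ ⟨g, hg⟩) := Subtype.ext (h1 g hg).symm
  show L (e.symm (Submodule.inclusion hle _)) = _
  rw [h3, e.symm_apply_apply]
  show φ0.liftBaseChange S' (1 ⊗ₜ ⟨g, hg⟩) = _
  rw [LinearMap.liftBaseChange_tmul, one_smul]

theorem flatext' {R S' Q : Type*} [CommRing R] [CommRing S'] [CommRing Q] (f : R →+* S')
    (g : S' →+* Q) (hf : f.Flat) (I0 : Ideal R) (φ0 : I0 →+ Q)
    (hφ0 : ∀ (c : R) (x : I0), φ0 (c • x) = g (f c) * φ0 x) :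
    ∃ Θ : (I0.map f) →+ Q, (∀ (s : S') (y : I0.map f), Θ (s • y) = g s * Θ y) ∧
      ∀ (x : R) (hx : x ∈ I0), Θ ⟨f x, Ideal.mem_map_of_mem _ hx⟩ = φ0 ⟨x, hx⟩ := by
  let alg1 : Algebra R S' := f.toAlgebra
  let alg2 : Algebra S' Q := g.toAlgebra
  let alg3 : Algebra R Q := (g.comp f).toAlgebra
  have tow : IsScalarTower R S' Q := IsScalarTower.of_algebraMap_eq fun _ => rfl
  have fl : Module.Flat R S' := hf
  let φ1 : I0 →ₗ[R] Q :=
    { toFun := φ0
      map_add' := fun a b => map_add φ0 a b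
      map_smul' := fun c x => hφ0 c x }
  obtain ⟨Θ, hΘ⟩ := flatext (S' := S') I0 φ1
  exact ⟨Θ.toAddMonoidHom, fun s y => map_smul Θ s y, fun x hx => hΘ x hx⟩

end Pool.Agent.H66.Rig
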