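import Mathlib
import Pool.Agent.H12.Rig.Torus
import Pool.Agent.H66.Rig.Socle

/-!
# Nonnegatively graded algebras over a degree zero part `R / (f)` (MP_562323_ag)
-/

set_option autoImplicit false

namespace Pool.Agent.H66.Rig

open MvPolynomial

variable {K : Type*} [Field K] {n : ℕ}

/-- polynomials in the variables of weight zero are the polynomials of weight zero -/
theorem supp_iff (w : Fin n → ℕ) (p : MvPolynomial (Fin n) K) :
    p ∈ supported K {i | w i = 0} ↔ IsWeightedHomogeneous w p 0 := by
  classical
  rw [mem_supported]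
  constructor
  · intro h d hd
    have h1 : ∀ i, d i ≠ 0 → w i = 0 := by
      intro i hi
      have h2 : i ∈ p.vars := by
        rw [mem_vars_iff_mem_support]
        exact ⟨d, MvPolynomial.mem_support_iff.2 hd, Finsupp.mem_support_iff.2 hi⟩
      exact h h2
    rw [Finsupp.weight_apply, Finsupp.sum]
    refine Finset.sum_eq_zero fun i hi => ?_
    rw [h1 i (Finsupp.mem_support_iff.1 hi), smul_zero]
  · intro h i hi
    rw [Finset.mem_coe, mem_vars_iff_mem_support] at hi
    obtain ⟨d, hd, hi⟩ := hi
    have h1 := h (MvPolynomial.mem_support_iff.1 hd)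
    have h2 := Finsupp.le_weight_of_ne_zero' (w := w) (Finsupp.mem_support_iff.1 hi)
    show w i = 0
    omega

/-- the ideal generated by the variables of weight zero -/
noncomputable def mT (K : Type*) [Field K] (w : Fin n → ℕ) : Ideal (MvPolynomial (Fin n) K) :=
  Ideal.span (Set.range fun i : {i : Fin n // w i = 0} => (X (i : Fin n) : MvPolynomial (Fin n) K))

theorem mT_le (w : Fin n → ℕ) : mT K w ≤ mm K n := by
  rw [mT, Ideal.span_le]
  rintro _ ⟨i, rfl⟩
  exact X_mem _

/-- weight zero and no constant term -/
theorem mem_mT (w : Fin n → ℕ) (p : MvPolynomial (Fin n) K)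
    (hp : ∀ d, coeff d p ≠ 0 → Finsupp.weight w d = 0) (h0 : coeff 0 p = 0) : p ∈ mT K w := by
  rw [p.as_sum]
  refine Ideal.sum_mem _ fun d hd => ?_
  have hd' := MvPolynomial.mem_support_iff.1 hd
  have hd0 : d ≠ 0 := by
    rintro rfl
    exact hd' h0
  obtain ⟨i, hi⟩ := Finsupp.ne_iff.1 hd0
  rw [Finsupp.coe_zero, Pi.zero_apply] at hi
  have h2 := Finsupp.le_weight_of_ne_zero' (w := w) hi
  have h3 := hp d hd'
  have h4 : w i = 0 := by omega
  have h5 : Finsupp.single i 1 + (d - Finsupp.single i 1) = d := by
    refine add_tsub_cancel_of_le ?_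
    rw [Finsupp.single_le_iff]
    omega
  have h6 : (monomial d (coeff d p) : MvPolynomial (Fin n) K) =
      monomial (d - Finsupp.single i 1) (coeff d p) * X i := by
    rw [X, monomial_mul, mul_one, add_comm, h5]
  rw [h6]
  exact Ideal.mul_mem_left _ _ (Ideal.subset_span ⟨⟨i, h4⟩, rfl⟩)

/-- the partial derivatives of `f` -/
theorem pderiv_mem_mT (w : Fin n → ℕ) (f : MvPolynomial (Fin n) K)
    (hf : f ∈ supported K {i | w i = 0}) (hf2 : f ∈ mm K n ^ 2) (i : Fin n) :
    pderiv i f ∈ mT K w := by
  have hw := (supp_iff w f).1 hf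
  refine mem_mT w _ (fun d hd => ?_) ?_
  · rw [coeff_pderiv] at hd
    have h1 : coeff (d + Finsupp.single i 1) f ≠ 0 := left_ne_zero_of_mul hd
    have h2 := hw h1
    rw [map_add] at h2
    omega
  · have h1 : pderiv i f ∈ mm K n ^ 1 := der_pow (pderiv i) _ 1 hf2
    have h2 := (mem_pow_idealOfVars_iff (σ := Fin n) (R := K) 1 (pderiv i f)).1 h1
    by_contra hcon
    have h3 := h2 0 (MvPolynomial.mem_support_iff.2 hcon)
    simp at h3

/-- the part of a product in weight zero -/
theorem wc_mul_zero (w : Fin n → ℕ) (p g : MvPolynomial (Fin n) K) :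
    weightedHomogeneousComponent w 0 (p * g) =
      weightedHomogeneousComponent w 0 p * weightedHomogeneousComponent w 0 g := by
  classical
  induction p using MvPolynomial.induction_on' with
  | monomial d c =>
    by_cases hd : Finsupp.weight w d = 0
    · have h1 : IsWeightedHomogeneous w (monomial d c : MvPolynomial (Fin n) K) 0 :=
        isWeightedHomogeneous_monomial w d c hd
      rw [Pool.Agent.H12.Rig.wcomp_mul h1 rfl, weightedHomogeneousComponent_eq_self h1]
    · have h1 : IsWeightedHomogeneous w (monomial d c : MvPolynomial (Fin n) K)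
          (Finsupp.weight w d) := isWeightedHomogeneous_monomial w d c rfl
      have h2 : weightedHomogeneousComponent w 0 (monomial d c : MvPolynomial (Fin n) K) = 0 := by
        rw [weightedHomogeneousComponent_of_mem h1, if_neg (fun h => hd h.symm)]
      rw [h2, zero_mul]
      ext u
      rw [coeff_weightedHomogeneousComponent, coeff_zero]
      split_ifs with hu
      · rw [coeff_monomial_mul', if_neg]
        intro hle
        have h3 : d + (u - d) = u := add_tsub_cancel_of_le hle
        have h4 := congrArg (Finsupp.weight w) h3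
        rw [map_add] at h4
        omega
      · rfl
  | add p q hp hq => rw [add_mul, map_add, map_add, hp, hq, add_mul]

/-- **Graded algebras whose degree zero part has a conormal module with a free summand.** -/
theorem graded (w : Fin n → ℕ) (I : Ideal (MvPolynomial (Fin n) K)) (hI1 : I ≠ ⊤)
    (hI : ∀ f ∈ I, ∀ k, weightedHomogeneousComponent w k f ∈ I)
    (hN : ∃ N : ℕ, mm K n ^ N ≤ I)
    (J : Ideal (supported K {i | w i = 0})) (f : supported K {i | w i = 0})
    (hf : (f : MvPolynomial (Fin n) K) ∈ mm K n ^ 2)
    (hJ : I.comap (algebraMap (supported K {i | w i = 0}) (MvPolynomial (Fin n) K)) =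
      J ⊔ Ideal.span {f})
    (hreg : ∀ h, h * f ∈ J → (h : MvPolynomial (Fin n) K) ∈ I) : NotRigid I := by
  classical
  obtain ⟨N, hN⟩ := hN
  have hone : (1 : MvPolynomial (Fin n) K) ∉ I := fun h => hI1 ((Ideal.eq_top_iff_one I).2 h)
  -- the top weight
  have hbig : ∀ k, (∑ i, w i) * N < k → ∀ g : MvPolynomial (Fin n) K,
      IsWeightedHomogeneous w g k → g ∈ I := by
    intro k hk g hg
    apply hN
    apply (mem_pow_idealOfVars_iff (σ := Fin n) (R := K) N g).2
    intro d hd
    rw [MvPolynomial.mem_support_iff] at hd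
    have h1 := hg hd
    have h2 := Pool.Agent.H12.Rig.weight_le w d
    by_contra hcon
    have h3 : (∑ i, w i) * d.degree ≤ (∑ i, w i) * N := Nat.mul_le_mul_left _ (by omega)
    omega
  obtain ⟨e, ⟨g0, hg0, hg0I⟩, hemax⟩ : ∃ e, (∃ g : MvPolynomial (Fin n) K,
      IsWeightedHomogeneous w g e ∧ g ∉ I) ∧
      ∀ k, e < k → ∀ g : MvPolynomial (Fin n) K, IsWeightedHomogeneous w g k → g ∈ I := by
    let P : ℕ → Prop := fun k => ∃ g : MvPolynomial (Fin n) K, IsWeightedHomogeneous w g k ∧ g ∉ I
    have hP0 : P 0 := ⟨1, isWeightedHomogeneous_one K w, hone⟩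
    refine ⟨Nat.findGreatest P ((∑ i, w i) * N), Nat.findGreatest_spec (P := P) (Nat.zero_le _) hP0,
      ?_⟩
    intro k hk g hg
    by_contra hgI
    by_cases hkt : k ≤ (∑ i, w i) * N
    · exact Nat.findGreatest_is_greatest hk hkt ⟨g, hg, hgI⟩
    · exact hgI (hbig k (by omega) g hg)
  -- the element `m0`
  obtain ⟨m0, hm0, hm0n⟩ : ∃ m0 : MvPolynomial (Fin n) K, IsWeightedHomogeneous w m0 e ∧
      m0 ∉ I ⊔ mT K w := by
    by_contra hcon
    push Not at hcon
    have key : ∀ r : ℕ, ∀ g : MvPolynomial (Fin n) K, IsWeightedHomogeneous w g e →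
        g ∈ I ⊔ mT K w ^ r := by
      intro r
      induction r with
      | zero => intro g _; rw [pow_zero, Ideal.one_eq_top, sup_top_eq]; trivial
      | succ r ih =>
        intro g hg
        obtain ⟨a, ha, b, hb, hab⟩ := Submodule.mem_sup.1 (hcon g hg)
        rw [mT, Ideal.mem_span_range_iff_exists_fun] at hb
        obtain ⟨c, hc⟩ := hb
        have h1 : g = weightedHomogeneousComponent w e a +
            ∑ i : {i : Fin n // w i = 0}, X (i : Fin n) *
              weightedHomogeneousComponent w e (c i) := by
          rw [← weightedHomogeneousComponent_eq_self hg, ← hab, ← hc, map_add, map_sum]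
          congr 1
          refine Finset.sum_congr rfl fun i _ => ?_
          have h2 : IsWeightedHomogeneous w (X (i : Fin n) : MvPolynomial (Fin n) K) 0 := by
            have := isWeightedHomogeneous_X K w (i : Fin n)
            rwa [i.2] at this
          rw [mul_comm, Pool.Agent.H12.Rig.wcomp_mul h2 rfl]
        rw [h1]
        refine Ideal.add_mem _ (Ideal.mem_sup_left (hI a ha e)) (Ideal.sum_mem _ fun i _ => ?_)
        obtain ⟨a', ha', b', hb', hab'⟩ := Submodule.mem_sup.1
          (ih _ (weightedHomogeneousComponent_isWeightedHomogeneous e (c i)))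
        rw [← hab', mul_add]
        refine Ideal.add_mem _ (Ideal.mem_sup_left (I.mul_mem_left _ ha'))
          (Ideal.mem_sup_right ?_)
        rw [pow_succ']
        exact Ideal.mul_mem_mul (Ideal.subset_span ⟨i, rfl⟩) hb'
    apply hg0I
    have h1 := key N g0 hg0
    have h2 : mT K w ^ N ≤ I := (Ideal.pow_right_mono (mT_le w) N).trans hN
    rwa [sup_eq_left.2 h2] at h1
  -- multiplication on the top weight
  have htop : ∀ (p u : MvPolynomial (Fin n) K), IsWeightedHomogeneous w u e →
      p * u - weightedHomogeneousComponent w 0 p * u ∈ I := by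
    intro p u hu
    induction p using MvPolynomial.induction_on' with
    | monomial d c =>
      have h1 : IsWeightedHomogeneous w (monomial d c : MvPolynomial (Fin n) K)
          (Finsupp.weight w d) := isWeightedHomogeneous_monomial w d c rfl
      by_cases hd : Finsupp.weight w d = 0
      · rw [hd] at h1
        rw [weightedHomogeneousComponent_eq_self h1, sub_self]
        exact I.zero_mem
      · rw [weightedHomogeneousComponent_of_mem h1, if_neg (fun h => hd h.symm), zero_mul, sub_zero]
        exact hemax _ (by omega) _ (h1.mul hu)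
    | add p q hp hq =>
      have h1 := I.add_mem hp hq
      have h2 : (p + q) * u - weightedHomogeneousComponent w 0 (p + q) * u =
          (p * u - weightedHomogeneousComponent w 0 p * u) +
          (q * u - weightedHomogeneousComponent w 0 q * u) := by
        rw [map_add]
        ring
      rwa [h2]
  -- the quotient by `f`
  have hw0 : ∀ g : MvPolynomial (Fin n) K,
      weightedHomogeneousComponent w 0 g ∈ supported K {i | w i = 0} := fun g =>
    (supp_iff w _).2 (weightedHomogeneousComponent_isWeightedHomogeneous 0 g)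
  let pr : MvPolynomial (Fin n) K → supported K {i | w i = 0} := fun g =>
    ⟨weightedHomogeneousComponent w 0 g, hw0 g⟩
  have hpr_add : ∀ g g', pr (g + g') = pr g + pr g' := by
    intro g g'
    ext1
    show weightedHomogeneousComponent w 0 (g + g') = _
    rw [map_add]
    rfl
  have hpr_mul : ∀ g g', pr (g * g') = pr g * pr g' := by
    intro g g'
    ext1
    exact wc_mul_zero w g g'
  have hprf : pr (f : MvPolynomial (Fin n) K) = f := by
    ext1
    exact weightedHomogeneousComponent_eq_self ((supp_iff w _).1 f.2)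
  have hex : ∀ g : I, ∃ h : supported K {i | w i = 0}, pr g - h * f ∈ J := by
    intro g
    have h1 : pr (g : MvPolynomial (Fin n) K) ∈ J ⊔ Ideal.span {f} := by
      rw [← hJ, Ideal.mem_comap]
      exact hI g g.2 0
    obtain ⟨a, ha, b, hb, hab⟩ := Submodule.mem_sup.1 h1
    obtain ⟨h, rfl⟩ := Ideal.mem_span_singleton'.1 hb
    exact ⟨h, by rw [← hab, add_sub_cancel_right]; exact ha⟩
  choose q hq using hex
  have huniq : ∀ (g : I) (h : supported K {i | w i = 0}), pr g - h * f ∈ J →
      Ideal.Quotient.mk I ((q g : MvPolynomial (Fin n) K) * m0) =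
        Ideal.Quotient.mk I ((h : MvPolynomial (Fin n) K) * m0) := by
    intro g h hh
    rw [Ideal.Quotient.mk_eq_mk_iff_sub_mem, ← sub_mul]
    refine I.mul_mem_right _ ?_
    refine hreg (q g - h) ?_
    have h2 := J.sub_mem hh (hq g)
    have h3 : pr g - h * f - (pr g - q g * f) = (q g - h) * f := by ring
    rwa [h3] at h2
  let φ : I →ₗ[MvPolynomial (Fin n) K] (MvPolynomial (Fin n) K ⧸ I) :=
    { toFun := fun g => Ideal.Quotient.mk I ((q g : MvPolynomial (Fin n) K) * m0)
      map_add' := fun g g' => by
        have h1 := huniq (g + g') (q g + q g') (by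
          have h2 := J.add_mem (hq g) (hq g')
          have h3 : pr ((g + g' : I) : MvPolynomial (Fin n) K) - (q g + q g') * f =
              (pr g - q g * f) + (pr g' - q g' * f) := by
            rw [Submodule.coe_add, hpr_add]
            ring
          rwa [h3])
        rw [h1]
        show Ideal.Quotient.mk I (((q g : MvPolynomial (Fin n) K) + (q g')) * m0) = _
        rw [add_mul, map_add]
      map_smul' := fun p g => by
        have h1 := huniq (p • g) (pr p * q g) (by
          have h2 := J.mul_mem_left (pr p) (hq g)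
          have h3 : pr ((p • g : I) : MvPolynomial (Fin n) K) - pr p * q g * f =
              pr p * (pr g - q g * f) := by
            rw [Submodule.coe_smul, smul_eq_mul, hpr_mul]
            ring
          rwa [h3])
        rw [h1]
        show Ideal.Quotient.mk I ((weightedHomogeneousComponent w 0 p *
          (q g : MvPolynomial (Fin n) K)) * m0) =
          Ideal.Quotient.mk I (p * ((q g : MvPolynomial (Fin n) K) * m0))
        symm
        rw [Ideal.Quotient.mk_eq_mk_iff_sub_mem, mul_assoc]
        refine htop p _ ?_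
        have h4 := ((supp_iff w _).1 (q g).2).mul hm0
        rwa [zero_add] at h4 }
  refine ⟨φ, ?_⟩
  rintro ⟨a, ha⟩
  choose b hb using fun i => Ideal.Quotient.mk_surjective (a i)
  have hfI : (f : MvPolynomial (Fin n) K) ∈ I := by
    have h1 : f ∈ J ⊔ Ideal.span {f} := Ideal.mem_sup_right (Ideal.mem_span_singleton_self f)
    rw [← hJ, Ideal.mem_comap] at h1
    exact h1
  have h1 : φ ⟨f, hfI⟩ = Ideal.Quotient.mk I m0 := by
    have h2 := huniq ⟨f, hfI⟩ 1 (by
      show pr (f : MvPolynomial (Fin n) K) - 1 * f ∈ J
      rw [hprf, one_mul, sub_self]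
      exact J.zero_mem)
    refine h2.trans ?_
    show Ideal.Quotient.mk I ((1 : MvPolynomial (Fin n) K) * m0) = _
    rw [one_mul]
  have h2 := ha ⟨f, hfI⟩
  rw [h1] at h2
  have h3 : Ideal.Quotient.mk I m0 =
      Ideal.Quotient.mk I (∑ i, pderiv i (f : MvPolynomial (Fin n) K) * b i) := by
    rw [h2, map_sum]
    refine Finset.sum_congr rfl fun i _ => ?_
    rw [map_mul, hb]
  rw [Ideal.Quotient.mk_eq_mk_iff_sub_mem] at h3
  apply hm0n
  have h4 : m0 = (m0 - ∑ i, pderiv i (f : MvPolynomial (Fin n) K) * b i) +
      ∑ i, pderiv i (f : MvPolynomial (Fin n) K) * b i := by ring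
  rw [h4]
  refine Submodule.add_mem_sup h3 (Ideal.sum_mem _ fun i _ => Ideal.mul_mem_right _ _ ?_)
  exact pderiv_mem_mT w _ f.2 hf i

end Pool.Agent.H66.Rig
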