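import Mathlib
import Pool.Agent.H66.Rig.TwoD
import Pool.Agent.H66.Rig.Graded
import Pool.Agent.H12.Rig.Psi

/-!
# Nonnegatively graded algebras with a degree zero part in two variables (MP_562323_ag)
-/

set_option autoImplicit false

namespace Pool.Agent.H66.Rig.Two

open Module MvPolynomial

variable {K : Type*} [Field K] {n : ℕ}

/-- the inclusion of the polynomials in the two variables -/
noncomputable def sg (K : Type*) [Field K] (i j : Fin n) :
    MvPolynomial (Fin 2) K →ₐ[K] MvPolynomial (Fin n) K :=
  aeval ![X i, X j]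

/-- the projection -/
noncomputable def rh (K : Type*) [Field K] (i j : Fin n) :
    MvPolynomial (Fin n) K →ₐ[K] MvPolynomial (Fin 2) K :=
  aeval fun k => if k = i then X 0 else if k = j then X 1 else 0

theorem sg_X0 (i j : Fin n) : sg K i j (X 0) = X i := by
  rw [sg, aeval_X]; rfl

theorem sg_X1 (i j : Fin n) : sg K i j (X 1) = X j := by
  rw [sg, aeval_X]; rfl

theorem rh_sg (i j : Fin n) (hij : i ≠ j) (f : MvPolynomial (Fin 2) K) :
    rh K i j (sg K i j f) = f := by
  have h : (rh K i j).comp (sg K i j) = AlgHom.id K _ := by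
    refine MvPolynomial.algHom_ext fun k => ?_
    fin_cases k
    · show rh K i j (sg K i j (X 0)) = X 0
      rw [sg_X0, rh, aeval_X, if_pos rfl]
    · show rh K i j (sg K i j (X 1)) = X 1
      rw [sg_X1, rh, aeval_X, if_neg hij.symm, if_pos rfl]
  exact DFunLike.congr_fun h f

theorem sg_rh (w : Fin n → ℕ) (i j : Fin n) (hw : ∀ k, w k = 0 ↔ k = i ∨ k = j)
    (g : MvPolynomial (Fin n) K) :
    sg K i j (rh K i j g) = weightedHomogeneousComponent w 0 g := by
  induction g using MvPolynomial.induction_on with
  | C c =>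
    have h1 : rh K i j (C c) = C c := AlgHom.commutes _ c
    have h2 : sg K i j (C c) = C c := AlgHom.commutes _ c
    rw [h1, h2, weightedHomogeneousComponent_eq_self (isWeightedHomogeneous_C w c)]
  | add p q hp hq => rw [map_add, map_add, map_add, hp, hq]
  | mul_X p k hp =>
    rw [map_mul, map_mul, hp, wc_mul_zero]
    congr 1
    by_cases hk : w k = 0
    · have h1 : IsWeightedHomogeneous w (X k : MvPolynomial (Fin n) K) 0 := by
        have := isWeightedHomogeneous_X K w k
        rwa [hk] at this
      rw [weightedHomogeneousComponent_eq_self h1, rh, aeval_X]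
      by_cases hki : k = i
      · rw [if_pos hki, sg_X0, hki]
      · rcases (hw k).1 hk with h | h
        · exact absurd h hki
        · rw [if_neg hki, if_pos h, sg_X1, h]
    · have h1 : k ≠ i := fun h => hk ((hw k).2 (Or.inl h))
      have h2 : k ≠ j := fun h => hk ((hw k).2 (Or.inr h))
      rw [rh, aeval_X, if_neg h1, if_neg h2, map_zero,
        weightedHomogeneousComponent_of_mem (isWeightedHomogeneous_X K w k),
        if_neg (fun h => hk h.symm)]

theorem pd_sg (i j : Fin n) (hij : i ≠ j) (f : MvPolynomial (Fin 2) K) :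
    pderiv i (sg K i j f) = sg K i j (pderiv 0 f) ∧ pderiv j (sg K i j f) = sg K i j (pderiv 1 f) ∧
      ∀ k, k ≠ i → k ≠ j → pderiv k (sg K i j f) = 0 := by
  induction f using MvPolynomial.induction_on with
  | C c =>
    have h2 : sg K i j (C c) = C c := AlgHom.commutes _ c
    rw [h2]
    simp
  | add p q hp hq =>
    obtain ⟨p1, p2, p3⟩ := hp
    obtain ⟨q1, q2, q3⟩ := hq
    refine ⟨?_, ?_, fun k hk hk' => ?_⟩
    · rw [map_add, map_add, map_add, map_add, p1, q1]
    · rw [map_add, map_add, map_add, map_add, p2, q2]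
    · rw [map_add, map_add, p3 k hk hk', q3 k hk hk', add_zero]
  | mul_X p a hp =>
    obtain ⟨p1, p2, p3⟩ := hp
    have ha : sg K i j (X a) = X (![i, j] a) := by
      fin_cases a
      · exact sg_X0 i j
      · exact sg_X1 i j
    rw [map_mul, ha]
    refine ⟨?_, ?_, fun k hk hk' => ?_⟩
    · rw [Derivation.leibniz, Derivation.leibniz, p1, map_add, smul_eq_mul, smul_eq_mul, smul_eq_mul,
        smul_eq_mul, map_mul, map_mul, ha]
      congr 2
      fin_cases a
      · show pderiv i (X i : MvPolynomial (Fin n) K) = sg K i j (pderiv 0 (X 0))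
        rw [pderiv_X_self, pderiv_X_self, map_one]
      · show pderiv i (X j : MvPolynomial (Fin n) K) = sg K i j (pderiv 0 (X 1))
        rw [pderiv_X_of_ne hij.symm, pderiv_X_of_ne (by decide), map_zero]
    · rw [Derivation.leibniz, Derivation.leibniz, p2, map_add, smul_eq_mul, smul_eq_mul, smul_eq_mul,
        smul_eq_mul, map_mul, map_mul, ha]
      congr 2
      fin_cases a
      · show pderiv j (X i : MvPolynomial (Fin n) K) = sg K i j (pderiv 1 (X 0))
        rw [pderiv_X_of_ne hij, pderiv_X_of_ne (by decide), map_zero]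
      · show pderiv j (X j : MvPolynomial (Fin n) K) = sg K i j (pderiv 1 (X 1))
        rw [pderiv_X_self, pderiv_X_self, map_one]
    · rw [Derivation.leibniz, p3 k hk hk', smul_zero, add_zero, pderiv_X_of_ne, smul_zero]
      fin_cases a
      · exact hk.symm
      · exact hk'.symm

theorem sg_wh (w : Fin n → ℕ) (i j : Fin n) (hij : i ≠ j) (hw : ∀ k, w k = 0 ↔ k = i ∨ k = j)
    (f : MvPolynomial (Fin 2) K) : IsWeightedHomogeneous w (sg K i j f) 0 := by
  have h1 := sg_rh w i j hw (sg K i j f)
  rw [rh_sg i j hij] at h1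
  rw [h1]
  exact weightedHomogeneousComponent_isWeightedHomogeneous 0 _

end Pool.Agent.H66.Rig.Two
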