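import Mathlib
import Pool.Agent.H66.Rig.TwoE
import Pool.Agent.H66.Rig.FlatExt

/-!
# Algebra maps from polynomials in two variables: weights and the chain rule (MP_562323_ag)
-/

set_option autoImplicit false

namespace Pool.Agent.H66.Rig.Two

open Module MvPolynomial

variable {K : Type*} [Field K] {n : ℕ}

theorem theta_wh (w : Fin n → ℕ) (θ : MvPolynomial (Fin 2) K →ₐ[K] MvPolynomial (Fin n) K)
    (hθ0 : ∀ a, IsWeightedHomogeneous w (θ (X a)) 0) (f : MvPolynomial (Fin 2) K) :
    IsWeightedHomogeneous w (θ f) 0 := by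
  induction f using MvPolynomial.induction_on with
  | C c =>
    have h1 : θ (C c) = C c := AlgHom.commutes _ c
    rw [h1]
    exact isWeightedHomogeneous_C w c
  | add p q hp hq =>
    rw [map_add]
    exact hp.add hq
  | mul_X p a hp =>
    rw [map_mul]
    have := hp.mul (hθ0 a)
    rwa [add_zero] at this

theorem pderiv_wh (w : Fin n → ℕ) (f : MvPolynomial (Fin n) K) (hf : IsWeightedHomogeneous w f 0)
    (k : Fin n) : IsWeightedHomogeneous w (pderiv k f) 0 := by
  intro d hd
  rw [coeff_pderiv] at hd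
  have h1 : coeff (d + Finsupp.single k 1) f ≠ 0 := left_ne_zero_of_mul hd
  have h2 := hf h1
  rw [map_add] at h2
  omega

theorem chain (I : Ideal (MvPolynomial (Fin n) K))
    (θ : MvPolynomial (Fin 2) K →ₐ[K] MvPolynomial (Fin n) K)
    (c : Fin n → MvPolynomial (Fin n) K ⧸ I) (g : MvPolynomial (Fin 2) K) :
    ∑ k, Ideal.Quotient.mk I (pderiv k (θ g)) * c k =
      Ideal.Quotient.mk I (θ (pderiv 0 g)) *
        ∑ k, Ideal.Quotient.mk I (pderiv k (θ (X 0))) * c k +
      Ideal.Quotient.mk I (θ (pderiv 1 g)) *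
        ∑ k, Ideal.Quotient.mk I (pderiv k (θ (X 1))) * c k := by
  have hleib : ∀ p q : MvPolynomial (Fin n) K,
      ∑ k, Ideal.Quotient.mk I (pderiv k (p * q)) * c k =
        Ideal.Quotient.mk I p * ∑ k, Ideal.Quotient.mk I (pderiv k q) * c k +
        Ideal.Quotient.mk I q * ∑ k, Ideal.Quotient.mk I (pderiv k p) * c k := by
    intro p q
    rw [Finset.mul_sum, Finset.mul_sum, ← Finset.sum_add_distrib]
    refine Finset.sum_congr rfl fun k _ => ?_
    rw [Derivation.leibniz, smul_eq_mul, smul_eq_mul, map_add, map_mul, map_mul]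
    ring
  induction g using MvPolynomial.induction_on with
  | C r =>
    have h1 : θ (C r) = C r := AlgHom.commutes _ r
    rw [h1]
    simp
  | add p q hp hq =>
    rw [map_add θ, map_add (pderiv 0), map_add (pderiv 1), map_add θ, map_add θ,
      map_add (Ideal.Quotient.mk I), map_add (Ideal.Quotient.mk I), add_mul, add_mul]
    have h1 : ∑ k, Ideal.Quotient.mk I (pderiv k (θ p + θ q)) * c k =
        ∑ k, Ideal.Quotient.mk I (pderiv k (θ p)) * c k +
        ∑ k, Ideal.Quotient.mk I (pderiv k (θ q)) * c k := by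
      rw [← Finset.sum_add_distrib]
      refine Finset.sum_congr rfl fun k _ => ?_
      rw [map_add, map_add, add_mul]
    rw [h1, hp, hq]
    ring
  | mul_X p a hp =>
    have e : θ (p * X a) = θ p * θ (X a) := map_mul θ p (X a)
    rw [e, hleib, hp]
    fin_cases a
    · have d0 : pderiv 0 (p * X 0) = p + X 0 * pderiv 0 p := by
        rw [Derivation.leibniz, pderiv_X_self, smul_eq_mul, smul_eq_mul, mul_one]
      have d1 : pderiv 1 (p * X 0) = X 0 * pderiv 1 p := by
        rw [Derivation.leibniz, pderiv_X_of_ne (by decide), smul_eq_mul, smul_eq_mul, mul_zero,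
          zero_add]
      show Ideal.Quotient.mk I (θ p) * ∑ k, Ideal.Quotient.mk I (pderiv k (θ (X 0))) * c k +
        Ideal.Quotient.mk I (θ (X 0)) * _ = Ideal.Quotient.mk I (θ (pderiv 0 (p * X 0))) * _ +
        Ideal.Quotient.mk I (θ (pderiv 1 (p * X 0))) * _
      rw [d0, d1, map_add, map_mul, map_mul, map_add, map_mul, map_mul]
      ring
    · have d0 : pderiv 0 (p * X 1) = X 1 * pderiv 0 p := by
        rw [Derivation.leibniz, pderiv_X_of_ne (by decide), smul_eq_mul, smul_eq_mul, mul_zero,
          zero_add]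
      have d1 : pderiv 1 (p * X 1) = p + X 1 * pderiv 1 p := by
        rw [Derivation.leibniz, pderiv_X_self, smul_eq_mul, smul_eq_mul, mul_one]
      show Ideal.Quotient.mk I (θ p) * ∑ k, Ideal.Quotient.mk I (pderiv k (θ (X 1))) * c k +
        Ideal.Quotient.mk I (θ (X 1)) * _ = Ideal.Quotient.mk I (θ (pderiv 0 (p * X 1))) * _ +
        Ideal.Quotient.mk I (θ (pderiv 1 (p * X 1))) * _
      rw [d0, d1, map_add, map_mul, map_mul, map_add, map_mul, map_mul]
      ring

end Pool.Agent.H66.Rig.Two
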