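import Mathlib
import Pool.Agent.H66.Rig.GenA

/-!
# Nonnegatively graded algebras whose degree zero part is a flat base change: the reduction (MP_562323_ag)
-/

set_option autoImplicit false

namespace Pool.Agent.H66.Rig.Two

open Module MvPolynomial

universe u

/-- The reduction: `θ : K[x, y] → S_0`, `I0 = θ⁻¹(I)`, `S → R' → S / I` with `R'` flat over `K[x, y]` and
`I ∩ S_0` mapped into `I0 R'`. It is enough to find for every module `M` of finite length over
`K[x, y] / I0` and every proper subspace `U` of `M` a linear map `Ψ : I0 → M` which is not induced by a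
derivation with `Ψ g1 ∈ U`, where `θ g1 ∈ m ^ 2`. -/
theorem genFl {K : Type u} [Field K] {n : ℕ} (w : Fin n → ℕ) (I : Ideal (MvPolynomial (Fin n) K))
    (hI1 : I ≠ ⊤)
    (hI : ∀ f ∈ I, ∀ k, weightedHomogeneousComponent w k f ∈ I)
    (hN : ∃ N : ℕ, mm K n ^ N ≤ I)
    (θ : MvPolynomial (Fin 2) K →ₐ[K] MvPolynomial (Fin n) K)
    (hθ0 : ∀ a, IsWeightedHomogeneous w (θ (X a)) 0) (hθm : ∀ a, θ (X a) ∈ mm K n)
    {R' : Type*} [CommRing R'] (κ : MvPolynomial (Fin n) K →+* R')
    (ρ : R' →+* (MvPolynomial (Fin n) K ⧸ I)) (hρ : ρ.comp κ = Ideal.Quotient.mk I)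
    (hflat : (κ.comp θ.toRingHom).Flat)
    (hT : ∀ g ∈ I, IsWeightedHomogeneous w g 0 →
      κ g ∈ (I.comap θ).map (κ.comp θ.toRingHom))
    (g1 : MvPolynomial (Fin 2) K) (hg1 : g1 ∈ I.comap θ) (hg12 : θ g1 ∈ mm K n ^ 2)
    (habs : ∀ (M : Type u) [AddCommGroup M] [Module K M] [FiniteDimensional K M] [Nontrivial M]
      (A : MvPolynomial (Fin 2) K →ₐ[K] Module.End K M),
      (∀ g ∈ I.comap θ, A g = 0) → ∀ N : ℕ, mm K 2 ^ N ≤ I.comap θ →
      FiniteDimensional K (MvPolynomial (Fin 2) K ⧸ I.comap θ) → ∀ U : Submodule K M, U ≠ ⊤ →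
      ∃ Ψ : MvPolynomial (Fin 2) K →ₗ[K] M, (∀ c, ∀ g ∈ I.comap θ, Ψ (c * g) = A c (Ψ g)) ∧
        ¬ ∃ u v : M, (∀ g ∈ I.comap θ, Ψ g = A (pderiv 0 g) u + A (pderiv 1 g) v) ∧ Ψ g1 ∈ U) :
    NotRigid I := by
  classical
  obtain ⟨N, hN⟩ := hN
  have hone : (1 : MvPolynomial (Fin n) K) ∉ I := fun h => hI1 ((Ideal.eq_top_iff_one I).2 h)
  -- the top weight
  have hbig : ∀ k, (∑ i, w i) * N < k → ∀ g : MvPolynomial (Fin n) K,
      IsWeightedHomogeneous w g k → g ∈ I := by
    intro k hk g hg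
    apply hN
    apply (mem_pow_idealOfVars_iff (σ := Fin n) (R := K) N g).2
    intro d hd
    rw [MvPolynomial.mem_support_iff] at hd
    have h1 := hg hd
    have h2 := Pool.Agent.H12.Rig.weight_le w d
    by_contra hcon
    have h3 : (∑ i, w i) * d.degree ≤ (∑ i, w i) * N := Nat.mul_le_mul_left _ (by omega)
    omega
  obtain ⟨e, ⟨g0, hg0, hg0I⟩, hemax⟩ : ∃ e, (∃ g : MvPolynomial (Fin n) K,
      IsWeightedHomogeneous w g e ∧ g ∉ I) ∧
      ∀ k, e < k → ∀ g : MvPolynomial (Fin n) K, IsWeightedHomogeneous w g k → g ∈ I := by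
    let P : ℕ → Prop := fun k => ∃ g : MvPolynomial (Fin n) K, IsWeightedHomogeneous w g k ∧ g ∉ I
    have hP0 : P 0 := ⟨1, isWeightedHomogeneous_one K w, hone⟩
    refine ⟨Nat.findGreatest P ((∑ i, w i) * N), Nat.findGreatest_spec (P := P) (Nat.zero_le _) hP0,
      ?_⟩
    intro k hk g hg
    by_contra hgI
    by_cases hkt : k ≤ (∑ i, w i) * N
    · exact Nat.findGreatest_is_greatest hk hkt ⟨g, hg, hgI⟩
    · exact hgI (hbig k (by omega) g hg)
  -- multiplication on the top weight
  have htop : ∀ (p u : MvPolynomial (Fin n) K), IsWeightedHomogeneous w u e →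
      p * u - weightedHomogeneousComponent w 0 p * u ∈ I := by
    intro p u hu
    induction p using MvPolynomial.induction_on' with
    | monomial d c =>
      have h1 : IsWeightedHomogeneous w (monomial d c : MvPolynomial (Fin n) K)
          (Finsupp.weight w d) := isWeightedHomogeneous_monomial w d c rfl
      by_cases hd : Finsupp.weight w d = 0
      · rw [hd] at h1
        rw [weightedHomogeneousComponent_eq_self h1, sub_self]
        exact I.zero_mem
      · rw [weightedHomogeneousComponent_of_mem h1, if_neg (fun h => hd h.symm), zero_mul, sub_zero]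
        exact hemax _ (by omega) _ (h1.mul hu)
    | add p q hp hq =>
      have h1 := I.add_mem hp hq
      have h2 : (p + q) * u - weightedHomogeneousComponent w 0 (p + q) * u =
          (p * u - weightedHomogeneousComponent w 0 p * u) +
          (q * u - weightedHomogeneousComponent w 0 q * u) := by
        rw [map_add]
        ring
      rwa [h2]
  -- the top graded piece
  let M : Submodule (MvPolynomial (Fin n) K) (MvPolynomial (Fin n) K ⧸ I) :=
    { carrier := {u | ∃ g, IsWeightedHomogeneous w g e ∧ Ideal.Quotient.mk I g = u}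
      add_mem' := by
        rintro _ _ ⟨g, hg, rfl⟩ ⟨h, hh, rfl⟩
        exact ⟨g + h, hg.add hh, map_add _ _ _⟩
      zero_mem' := ⟨0, isWeightedHomogeneous_zero K w e, map_zero _⟩
      smul_mem' := by
        rintro c _ ⟨g, hg, rfl⟩
        refine ⟨weightedHomogeneousComponent w 0 c * g, ?_, ?_⟩
        · have := (weightedHomogeneousComponent_isWeightedHomogeneous (w := w) 0 c).mul hg
          rwa [zero_add] at this
        · show _ = Ideal.Quotient.mk I (c * g)
          exact ((Ideal.Quotient.mk_eq_mk_iff_sub_mem _ _).2 (htop c g hg)).symm }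
  have hMmem : ∀ u : MvPolynomial (Fin n) K ⧸ I, u ∈ M ↔
      ∃ g, IsWeightedHomogeneous w g e ∧ Ideal.Quotient.mk I g = u := fun u => Iff.rfl
  have hsm : ∀ (c : MvPolynomial (Fin n) K) (u : MvPolynomial (Fin n) K ⧸ I),
      c • u = Ideal.Quotient.mk I c * u := by
    intro c u
    obtain ⟨g, rfl⟩ := Ideal.Quotient.mk_surjective u
    rw [← map_mul]
    rfl
  have hXM : ∀ k, w k ≠ 0 → ∀ u ∈ M, Ideal.Quotient.mk I (X k) * u = 0 := by
    rintro k hk _ ⟨g, hg, rfl⟩
    rw [← map_mul, Ideal.Quotient.eq_zero_iff_mem]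
    exact hemax _ (by omega) _ ((isWeightedHomogeneous_X K w k).mul hg)
  have hfinQ : Module.Finite K (MvPolynomial (Fin n) K ⧸ I) := finite_quot I N hN
  have hfinM : Module.Finite K M :=
    Module.Finite.of_injective (M.subtype.restrictScalars K) Subtype.coe_injective
  have hntM : Nontrivial M := by
    refine ⟨⟨⟨Ideal.Quotient.mk I g0, g0, hg0, rfl⟩, 0, fun h => hg0I ?_⟩⟩
    exact Ideal.Quotient.eq_zero_iff_mem.1 (congrArg Subtype.val h)
  set I0 : Ideal (MvPolynomial (Fin 2) K) := I.comap θ with hI0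
  have hN0 : mm K 2 ^ N ≤ I0 := by
    have h1 : mm K 2 ≤ (mm K n).comap θ := by
      rw [mm, Ideal.span_le]
      rintro _ ⟨a, rfl⟩
      exact hθm a
    exact (Ideal.pow_right_mono h1 N).trans ((Ideal.le_comap_pow _ N).trans (Ideal.comap_mono hN))
  have hfinB : Module.Finite K (MvPolynomial (Fin 2) K ⧸ I0) := finite_quot I0 N hN0
  let A : MvPolynomial (Fin 2) K →ₐ[K] Module.End K M := (Algebra.lsmul K K M).comp θ
  have hAc : ∀ (f : MvPolynomial (Fin 2) K) (u : M),
      ((A f u : M) : MvPolynomial (Fin n) K ⧸ I) = Ideal.Quotient.mk I (θ f) * u := by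
    intro f u
    rw [← hsm]
    rfl
  have hA : ∀ g ∈ I0, A g = 0 := by
    intro g hg
    refine LinearMap.ext fun u => Subtype.ext ?_
    have hg' : Ideal.Quotient.mk I (θ g) = 0 := Ideal.Quotient.eq_zero_iff_mem.2 hg
    rw [hAc, hg', zero_mul]
    rfl
  -- the subspace `m M`
  let U : Submodule K M := (mm K n • (⊤ : Submodule (MvPolynomial (Fin n) K) M)).restrictScalars K
  have hU : U ≠ ⊤ := by
    intro hU
    have h1 : mm K n • (⊤ : Submodule (MvPolynomial (Fin n) K) M) = ⊤ := by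
      rw [Submodule.eq_top_iff'] at hU ⊢
      exact hU
    have h2 : ∀ k : ℕ, mm K n ^ k • (⊤ : Submodule (MvPolynomial (Fin n) K) M) = ⊤ := by
      intro k
      induction k with
      | zero => rw [pow_zero, Ideal.one_eq_top, Submodule.top_smul]
      | succ k ih => rw [pow_succ, Submodule.mul_smul, h1, ih]
    have h3 : mm K n ^ N • (⊤ : Submodule (MvPolynomial (Fin n) K) M) ≤ ⊥ := by
      rw [Submodule.smul_le]
      rintro r hr u -
      rw [Submodule.mem_bot]
      apply Subtype.ext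
      rw [Submodule.coe_smul, hsm, Ideal.Quotient.eq_zero_iff_mem.2 (hN hr), zero_mul]
      rfl
    rw [h2 N] at h3
    exact bot_ne_top (le_antisymm bot_le h3)
  obtain ⟨Ψ, hΨI, hno⟩ := habs M A hA N hN0 hfinB U hU
  -- the flat base change
  have hρκ : ∀ g, ρ (κ g) = Ideal.Quotient.mk I g := fun g => RingHom.congr_fun hρ g
  let φ0 : I0 →+ (MvPolynomial (Fin n) K ⧸ I) :=
    { toFun := fun g => (Ψ g : M)
      map_zero' := by
        show ((Ψ (0 : MvPolynomial (Fin 2) K) : M) : MvPolynomial (Fin n) K ⧸ I) = 0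
        rw [map_zero]
        rfl
      map_add' := fun g h => by
        show ((Ψ ((g : MvPolynomial (Fin 2) K) + h) : M) : MvPolynomial (Fin n) K ⧸ I) = _
        rw [map_add]
        rfl }
  obtain ⟨Θ, hsm2, hΘ⟩ := flatext' (κ.comp θ.toRingHom) ρ hflat I0 φ0
    (fun c g => by
      show ((Ψ (c * g) : M) : MvPolynomial (Fin n) K ⧸ I) = ρ (κ (θ c)) * (Ψ g : M)
      rw [hΨI c g g.2, hAc, hρκ])
  have hΘM : ∀ y, Θ y ∈ M := by
    rintro ⟨y, hy⟩
    refine Submodule.span_induction (p := fun y hy => Θ ⟨y, hy⟩ ∈ M) ?_ ?_ ?_ ?_ hy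
    · rintro _ ⟨g, hg, rfl⟩
      rw [hΘ g hg]
      exact (Ψ g).2
    · exact (map_zero Θ).symm ▸ M.zero_mem
    · intro x y hx hy h3 h4
      have h5 : Θ ⟨x + y, Submodule.add_mem _ hx hy⟩ = Θ ⟨x, hx⟩ + Θ ⟨y, hy⟩ :=
        map_add Θ ⟨x, hx⟩ ⟨y, hy⟩
      rw [h5]
      exact M.add_mem h3 h4
    · intro a x hx h3
      obtain ⟨c, hc⟩ := Ideal.Quotient.mk_surjective (ρ a)
      have h5 : Θ ⟨a • x, Submodule.smul_mem _ _ hx⟩ = ρ a * Θ ⟨x, hx⟩ := hsm2 a ⟨x, hx⟩
      rw [h5, ← hc, ← hsm]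
      exact M.smul_mem _ h3
  have hwc := fun g => weightedHomogeneousComponent_isWeightedHomogeneous (w := w) (R := K) 0 g
  let φ : I →ₗ[MvPolynomial (Fin n) K] (MvPolynomial (Fin n) K ⧸ I) :=
    { toFun := fun g => Θ ⟨κ (weightedHomogeneousComponent w 0 g),
        hT _ (hI g g.2 0) (hwc _)⟩
      map_add' := fun g h => by
        rw [← map_add Θ]
        congr 1
        apply Subtype.ext
        show κ (weightedHomogeneousComponent w 0 (g + h)) =
          κ (weightedHomogeneousComponent w 0 g) +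
          κ (weightedHomogeneousComponent w 0 h)
        rw [map_add, map_add]
      map_smul' := fun c g => by
        rw [RingHom.id_apply, hsm]
        have h3 : (⟨κ (weightedHomogeneousComponent w 0 ((c • g : I) :
            MvPolynomial (Fin n) K)), hT _ (hI _ (c • g).2 0) (hwc _)⟩ :
            I0.map (κ.comp θ.toRingHom)) =
            κ (weightedHomogeneousComponent w 0 c) •
              ⟨κ (weightedHomogeneousComponent w 0 g),
                hT _ (hI g g.2 0) (hwc _)⟩ := by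
          apply Subtype.ext
          show κ (weightedHomogeneousComponent w 0 (c * g)) =
            κ (weightedHomogeneousComponent w 0 c) *
              κ (weightedHomogeneousComponent w 0 g)
          rw [wc_mul_zero, map_mul]
        rw [h3, hsm2]
        obtain ⟨h, hh, hhe⟩ := (hMmem _).1 (hΘM ⟨κ
          (weightedHomogeneousComponent w 0 g), hT _ (hI g g.2 0) (hwc _)⟩)
        rw [← hhe, ← map_mul]
        rw [hρκ, ← map_mul]
        exact ((Ideal.Quotient.mk_eq_mk_iff_sub_mem _ _).2 (htop c h hh)).symm }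
  have hφsg : ∀ g (hg : g ∈ I0), φ ⟨θ g, hg⟩ = (Ψ g : M) := by
    intro g hg
    have h3 := hΘ g hg
    have h4 : φ0 ⟨g, hg⟩ = (Ψ g : M) := rfl
    rw [h4] at h3
    rw [← h3]
    show Θ _ = Θ _
    congr 1
    apply Subtype.ext
    show κ (weightedHomogeneousComponent w 0 (θ g)) = κ (θ g)
    rw [weightedHomogeneousComponent_eq_self (theta_wh w θ hθ0 g)]
  refine ⟨φ, ?_⟩
  rintro ⟨a, ha⟩
  choose b hb using fun k => Ideal.Quotient.mk_surjective (a k)
  apply hno
  let c : Fin n → MvPolynomial (Fin n) K ⧸ I := fun k =>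
    Ideal.Quotient.mk I (weightedHomogeneousComponent w e (b k))
  have hcM : ∀ k, c k ∈ M := fun k =>
    ⟨weightedHomogeneousComponent w e (b k), weightedHomogeneousComponent_isWeightedHomogeneous e _,
      rfl⟩
  have hsumM : ∀ f : MvPolynomial (Fin n) K,
      ∑ k, Ideal.Quotient.mk I (pderiv k f) * c k ∈ M := by
    intro f
    refine M.sum_mem fun k _ => ?_
    rw [← hsm]
    exact M.smul_mem _ (hcM k)
  have hkey : ∀ g ∈ I0, ((Ψ g : M) : MvPolynomial (Fin n) K ⧸ I) =
      ∑ k, Ideal.Quotient.mk I (pderiv k (θ g)) * c k := by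
    intro g hg
    have h3 : ((Ψ g : M) : MvPolynomial (Fin n) K ⧸ I) =
        ∑ k, Ideal.Quotient.mk I (pderiv k (θ g)) * a k :=
      (hφsg g hg).symm.trans (ha ⟨θ g, hg⟩)
    obtain ⟨h, hh, hhe⟩ := (hMmem _).1 (Ψ g).2
    have h4 : Ideal.Quotient.mk I h = Ideal.Quotient.mk I (∑ k, pderiv k (θ g) * b k) := by
      rw [hhe, h3, map_sum]
      refine Finset.sum_congr rfl fun k _ => ?_
      rw [map_mul, hb]
    rw [Ideal.Quotient.mk_eq_mk_iff_sub_mem] at h4
    have h5 := hI _ h4 e
    rw [map_sub, map_sum, weightedHomogeneousComponent_eq_self hh] at h5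
    have h6 : ∑ k, weightedHomogeneousComponent w e (pderiv k (θ g) * b k) =
        ∑ k, pderiv k (θ g) * weightedHomogeneousComponent w e (b k) :=
      Finset.sum_congr rfl fun k _ =>
        Pool.Agent.H12.Rig.wcomp_mul (pderiv_wh w _ (theta_wh w θ hθ0 g) k) rfl e (b k)
    rw [h6] at h5
    rw [← hhe, (Ideal.Quotient.mk_eq_mk_iff_sub_mem _ _).2 h5, map_sum]
    refine Finset.sum_congr rfl fun k _ => ?_
    rw [map_mul]
  refine ⟨⟨_, hsumM (θ (X 0))⟩, ⟨_, hsumM (θ (X 1))⟩, ?_, ?_⟩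
  · intro g hg
    apply Subtype.ext
    rw [hkey g hg, chain I θ c g, Submodule.coe_add, hAc, hAc]
  · have h3 : Ψ g1 = ∑ k, pderiv k (θ g1) • (⟨c k, hcM k⟩ : M) := by
      apply Subtype.ext
      rw [hkey g1 hg1, Submodule.coe_sum]
      refine Finset.sum_congr rfl fun k _ => ?_
      rw [Submodule.coe_smul, hsm]
    have h5 : ∑ k, pderiv k (θ g1) • (⟨c k, hcM k⟩ : M) ∈
        mm K n • (⊤ : Submodule (MvPolynomial (Fin n) K) M) := by
      refine Submodule.sum_mem _ fun k _ => ?_
      have h4 : pderiv k (θ g1) ∈ mm K n := by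
        have := der_pow (pderiv k) _ 1 hg12
        rwa [pow_one] at this
      exact Submodule.smul_mem_smul h4 Submodule.mem_top
    rw [h3]
    exact h5

end Pool.Agent.H66.Rig.Two
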