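import Mathlib
import Pool.Agent.H66.Rig.TwoE
import Pool.Agent.H66.Rig.TwoL

/-!
# Nonnegatively graded algebras with a degree zero part in two variables: the reduction (MP_562323_ag)
-/

set_option autoImplicit false

namespace Pool.Agent.H66.Rig.Two

open Module MvPolynomial

universe u

/-- If every nonzero module of finite length over `B = K[x, y] / I0`, `I0` the degree zero part of `I`,
has a cocycle as in `Good`, the algebra `K[x_1, ..., x_n] / I` is not rigid. -/
theorem two' {K : Type u} [Field K] {n : ℕ} (w : Fin n → ℕ) (I : Ideal (MvPolynomial (Fin n) K))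
    (hI1 : I ≠ ⊤)
    (hI : ∀ f ∈ I, ∀ k, weightedHomogeneousComponent w k f ∈ I)
    (hN : ∃ N : ℕ, mm K n ^ N ≤ I)
    (i j : Fin n) (hij : i ≠ j) (hw : ∀ k, w k = 0 ↔ k = i ∨ k = j)
    (habs : ∀ (M : Type u) [AddCommGroup M] [Module K M] [FiniteDimensional K M] [Nontrivial M]
      (A : MvPolynomial (Fin 2) K →ₐ[K] Module.End K M),
      (∀ g ∈ I.comap (sg K i j), A g = 0) → ∀ N : ℕ, mm K 2 ^ N ≤ I.comap (sg K i j) →
      FiniteDimensional K (MvPolynomial (Fin 2) K ⧸ I.comap (sg K i j)) →
      Good A (I.comap (sg K i j))) : NotRigid I := by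
  classical
  obtain ⟨N, hN⟩ := hN
  have hone : (1 : MvPolynomial (Fin n) K) ∉ I := fun h => hI1 ((Ideal.eq_top_iff_one I).2 h)
  -- the top weight
  have hbig : ∀ k, (∑ i, w i) * N < k → ∀ g : MvPolynomial (Fin n) K,
      IsWeightedHomogeneous w g k → g ∈ I := by
    intro k hk g hg
    apply hN
    apply (mem_pow_idealOfVars_iff (σ := Fin n) (R := K) N g).2
    intro d hd
    rw [MvPolynomial.mem_support_iff] at hd
    have h1 := hg hd
    have h2 := Pool.Agent.H12.Rig.weight_le w d
    by_contra hcon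
    have h3 : (∑ i, w i) * d.degree ≤ (∑ i, w i) * N := Nat.mul_le_mul_left _ (by omega)
    omega
  obtain ⟨e, ⟨g0, hg0, hg0I⟩, hemax⟩ : ∃ e, (∃ g : MvPolynomial (Fin n) K,
      IsWeightedHomogeneous w g e ∧ g ∉ I) ∧
      ∀ k, e < k → ∀ g : MvPolynomial (Fin n) K, IsWeightedHomogeneous w g k → g ∈ I := by
    let P : ℕ → Prop := fun k => ∃ g : MvPolynomial (Fin n) K, IsWeightedHomogeneous w g k ∧ g ∉ I
    have hP0 : P 0 := ⟨1, isWeightedHomogeneous_one K w, hone⟩
    refine ⟨Nat.findGreatest P ((∑ i, w i) * N), Nat.findGreatest_spec (P := P) (Nat.zero_le _) hP0,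
      ?_⟩
    intro k hk g hg
    by_contra hgI
    by_cases hkt : k ≤ (∑ i, w i) * N
    · exact Nat.findGreatest_is_greatest hk hkt ⟨g, hg, hgI⟩
    · exact hgI (hbig k (by omega) g hg)
  -- multiplication on the top weight
  have htop : ∀ (p u : MvPolynomial (Fin n) K), IsWeightedHomogeneous w u e →
      p * u - weightedHomogeneousComponent w 0 p * u ∈ I := by
    intro p u hu
    induction p using MvPolynomial.induction_on' with
    | monomial d c =>
      have h1 : IsWeightedHomogeneous w (monomial d c : MvPolynomial (Fin n) K)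
          (Finsupp.weight w d) := isWeightedHomogeneous_monomial w d c rfl
      by_cases hd : Finsupp.weight w d = 0
      · rw [hd] at h1
        rw [weightedHomogeneousComponent_eq_self h1, sub_self]
        exact I.zero_mem
      · rw [weightedHomogeneousComponent_of_mem h1, if_neg (fun h => hd h.symm), zero_mul, sub_zero]
        exact hemax _ (by omega) _ (h1.mul hu)
    | add p q hp hq =>
      have h1 := I.add_mem hp hq
      have h2 : (p + q) * u - weightedHomogeneousComponent w 0 (p + q) * u =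
          (p * u - weightedHomogeneousComponent w 0 p * u) +
          (q * u - weightedHomogeneousComponent w 0 q * u) := by
        rw [map_add]
        ring
      rwa [h2]
  -- the top graded piece
  let M : Submodule (MvPolynomial (Fin n) K) (MvPolynomial (Fin n) K ⧸ I) :=
    { carrier := {u | ∃ g, IsWeightedHomogeneous w g e ∧ Ideal.Quotient.mk I g = u}
      add_mem' := by
        rintro _ _ ⟨g, hg, rfl⟩ ⟨h, hh, rfl⟩
        exact ⟨g + h, hg.add hh, map_add _ _ _⟩
      zero_mem' := ⟨0, isWeightedHomogeneous_zero K w e, map_zero _⟩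
      smul_mem' := by
        rintro c _ ⟨g, hg, rfl⟩
        refine ⟨weightedHomogeneousComponent w 0 c * g, ?_, ?_⟩
        · have := (weightedHomogeneousComponent_isWeightedHomogeneous (w := w) 0 c).mul hg
          rwa [zero_add] at this
        · show _ = Ideal.Quotient.mk I (c * g)
          exact ((Ideal.Quotient.mk_eq_mk_iff_sub_mem _ _).2 (htop c g hg)).symm }
  have hMmem : ∀ u : MvPolynomial (Fin n) K ⧸ I, u ∈ M ↔
      ∃ g, IsWeightedHomogeneous w g e ∧ Ideal.Quotient.mk I g = u := fun u => Iff.rfl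
  have hsm : ∀ (c : MvPolynomial (Fin n) K) (u : MvPolynomial (Fin n) K ⧸ I),
      c • u = Ideal.Quotient.mk I c * u := by
    intro c u
    obtain ⟨g, rfl⟩ := Ideal.Quotient.mk_surjective u
    rw [← map_mul]
    rfl
  have hXM : ∀ k, k ≠ i → k ≠ j → ∀ u ∈ M, Ideal.Quotient.mk I (X k) * u = 0 := by
    rintro k hki hkj _ ⟨g, hg, rfl⟩
    rw [← map_mul, Ideal.Quotient.eq_zero_iff_mem]
    have hk : w k ≠ 0 := fun h => by
      rcases (hw k).1 h with h | h
      · exact hki h
      · exact hkj h
    exact hemax _ (by omega) _ ((isWeightedHomogeneous_X K w k).mul hg)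
  have hfinQ : Module.Finite K (MvPolynomial (Fin n) K ⧸ I) := finite_quot I N hN
  have hfinM : Module.Finite K M :=
    Module.Finite.of_injective (M.subtype.restrictScalars K) Subtype.coe_injective
  have hntM : Nontrivial M := by
    refine ⟨⟨⟨Ideal.Quotient.mk I g0, g0, hg0, rfl⟩, 0, fun h => hg0I ?_⟩⟩
    exact Ideal.Quotient.eq_zero_iff_mem.1 (congrArg Subtype.val h)
  set I0 : Ideal (MvPolynomial (Fin 2) K) := I.comap (sg K i j) with hI0
  have hN0 : mm K 2 ^ N ≤ I0 := by
    have h1 : mm K 2 ≤ (mm K n).comap (sg K i j) := by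
      rw [mm, Ideal.span_le]
      rintro _ ⟨a, rfl⟩
      fin_cases a
      · show sg K i j (X 0) ∈ mm K n
        rw [sg_X0]
        exact X_mem i
      · show sg K i j (X 1) ∈ mm K n
        rw [sg_X1]
        exact X_mem j
    exact (Ideal.pow_right_mono h1 N).trans ((Ideal.le_comap_pow _ N).trans (Ideal.comap_mono hN))
  have hfinB : Module.Finite K (MvPolynomial (Fin 2) K ⧸ I0) := finite_quot I0 N hN0
  let A : MvPolynomial (Fin 2) K →ₐ[K] Module.End K M := (Algebra.lsmul K K M).comp (sg K i j)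
  have hAc : ∀ (f : MvPolynomial (Fin 2) K) (u : M),
      ((A f u : M) : MvPolynomial (Fin n) K ⧸ I) = Ideal.Quotient.mk I (sg K i j f) * u := by
    intro f u
    rw [← hsm]
    rfl
  have hA : ∀ g ∈ I0, A g = 0 := by
    intro g hg
    refine LinearMap.ext fun u => Subtype.ext ?_
    have hg' : Ideal.Quotient.mk I (sg K i j g) = 0 := Ideal.Quotient.eq_zero_iff_mem.2 hg
    rw [hAc, hg', zero_mul]
    rfl
  obtain ⟨α, β, hab, hno⟩ := habs M A hA N hN0 hfinB
  -- the cocycle
  let π : MvPolynomial (Fin n) K →ₗ[K] (MvPolynomial (Fin 2) K ⧸ I0) :=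
    (Ideal.Quotient.mkₐ K I0).toLinearMap ∘ₗ (rh K i j).toLinearMap
  have hπ : ∀ g, π g = Ideal.Quotient.mk I0 (rh K i j g) := fun g => rfl
  have hπI : ∀ g ∈ I, π g = 0 := by
    intro g hg
    rw [hπ, Ideal.Quotient.eq_zero_iff_mem]
    show sg K i j (rh K i j g) ∈ I
    rw [sg_rh w i j hw]
    exact hI g hg 0
  let Dt : Fin n → MvPolynomial (Fin n) K →ₗ[K] MvPolynomial (Fin n) K ⧸ I := fun a =>
    if a = i then (M.subtype.restrictScalars K) ∘ₗ α ∘ₗ π
    else if a = j then (M.subtype.restrictScalars K) ∘ₗ β ∘ₗ π else 0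
  have hDi : ∀ g, Dt i g = (α (π g) : M) := by
    intro g
    show (if i = i then (M.subtype.restrictScalars K) ∘ₗ α ∘ₗ π
      else if i = j then (M.subtype.restrictScalars K) ∘ₗ β ∘ₗ π else 0) g = _
    rw [if_pos rfl]
    rfl
  have hDj : ∀ g, Dt j g = (β (π g) : M) := by
    intro g
    show (if j = i then (M.subtype.restrictScalars K) ∘ₗ α ∘ₗ π
      else if j = j then (M.subtype.restrictScalars K) ∘ₗ β ∘ₗ π else 0) g = _
    rw [if_neg hij.symm, if_pos rfl]
    rfl
  have hDk : ∀ k, k ≠ i → k ≠ j → ∀ g, Dt k g = 0 := by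
    intro k hki hkj g
    show (if k = i then (M.subtype.restrictScalars K) ∘ₗ α ∘ₗ π
      else if k = j then (M.subtype.restrictScalars K) ∘ₗ β ∘ₗ π else 0) g = _
    rw [if_neg hki, if_neg hkj]
    rfl
  have hρi : ∀ g, π (X i * g) = Ideal.Quotient.mk I0 (X 0 * rh K i j g) := by
    intro g
    rw [hπ, map_mul, rh, aeval_X, if_pos rfl]
  have hρj : ∀ g, π (X j * g) = Ideal.Quotient.mk I0 (X 1 * rh K i j g) := by
    intro g
    rw [hπ, map_mul, rh, aeval_X, if_neg hij.symm, if_pos rfl]
  have hρk : ∀ k, k ≠ i → k ≠ j → ∀ g, π (X k * g) = 0 := by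
    intro k hki hkj g
    rw [hπ, map_mul, rh, aeval_X, if_neg hki, if_neg hkj, zero_mul, map_zero]
  have hmain : ∀ g, Ideal.Quotient.mk I (X i) * Dt j g + Dt i (X j * g) =
      Ideal.Quotient.mk I (X j) * Dt i g + Dt j (X i * g) := by
    intro g
    have h3 := congrArg Subtype.val (hab (rh K i j g))
    rw [Submodule.coe_add, Submodule.coe_add, hAc, hAc, sg_X0, sg_X1] at h3
    rw [hDi, hDj, hDi, hDj, hρi, hρj]
    exact h3
  have hc : ∀ a b f, Ideal.Quotient.mk I (X a) * Dt b f + Dt a (X b * f) =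
      Ideal.Quotient.mk I (X b) * Dt a f + Dt b (X a * f) := by
    intro a b g
    by_cases hai : a = i
    · subst hai
      by_cases hba : b = a
      · rw [hba]
      · by_cases hbj : b = j
        · subst hbj
          exact hmain g
        · rw [hDk b hba hbj, hDk b hba hbj, mul_zero, zero_add, add_zero, hDi, hDi,
            hρk b hba hbj, map_zero, hXM b hba hbj _ (α (π g)).2]
          rfl
    · by_cases haj : a = j
      · subst haj
        by_cases hba : b = a
        · rw [hba]
        · by_cases hbi : b = i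
          · subst hbi
            exact (hmain g).symm
          · rw [hDk b hbi hba, hDk b hbi hba, mul_zero, zero_add, add_zero, hDj, hDj,
              hρk b hbi hba, map_zero, hXM b hbi hba _ (β (π g)).2]
            rfl
      · rw [hDk a hai haj, hDk a hai haj, mul_zero, add_zero, zero_add]
        by_cases hbi : b = i
        · subst hbi
          rw [hDi, hDi, hρk a hai haj, map_zero, hXM a hai haj _ (α (π g)).2]
          rfl
        · by_cases hbj : b = j
          · subst hbj
            rw [hDj, hDj, hρk a hai haj, map_zero, hXM a hai haj _ (β (π g)).2]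
            rfl
          · rw [hDk b hbi hbj, hDk b hbi hbj, mul_zero]
  obtain ⟨Ψ, hΨ1, hΨ⟩ := Pool.Agent.H12.Rig.exists_Psi I Dt hc
  have hDtM : ∀ a g, Dt a g ∈ M := by
    intro a g
    by_cases hai : a = i
    · subst hai
      rw [hDi]
      exact (α (π g)).2
    · by_cases haj : a = j
      · subst haj
        rw [hDj]
        exact (β (π g)).2
      · rw [hDk a hai haj]
        exact M.zero_mem
  have hDtI : ∀ a, ∀ g ∈ I, Dt a g = 0 := by
    intro a g hg
    by_cases hai : a = i
    · subst hai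
      rw [hDi, hπI g hg, map_zero]
      rfl
    · by_cases haj : a = j
      · subst haj
        rw [hDj, hπI g hg, map_zero]
        rfl
      · rw [hDk a hai haj]
  have hΨM : ∀ g, Ψ g ∈ M := by
    intro g
    induction g using MvPolynomial.induction_on with
    | C c =>
      have h3 : (C c : MvPolynomial (Fin n) K) = c • 1 := by
        rw [MvPolynomial.smul_eq_C_mul, mul_one]
      rw [h3, map_smul, hΨ1, smul_zero]
      exact M.zero_mem
    | add p q hp hq =>
      rw [map_add]
      exact M.add_mem hp hq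
    | mul_X p a hp =>
      rw [mul_comm, hΨ, ← hsm]
      exact M.add_mem (M.smul_mem _ hp) (hDtM a p)
  have hΨI : ∀ (p g : MvPolynomial (Fin n) K), g ∈ I → Ψ (p * g) = Ideal.Quotient.mk I p * Ψ g := by
    intro p
    induction p using MvPolynomial.induction_on with
    | C c =>
      intro g _
      rw [← MvPolynomial.smul_eq_C_mul, map_smul, ← hsm]
      rw [MvPolynomial.C_eq_smul_one, smul_assoc, one_smul]
    | add p q hp hq =>
      intro g hg
      rw [add_mul, map_add, map_add, add_mul, hp g hg, hq g hg]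
    | mul_X p a hp =>
      intro g hg
      rw [mul_assoc, hp _ (I.mul_mem_left _ hg), hΨ, hDtI a g hg, add_zero, map_mul, mul_assoc]
  let φ : I →ₗ[MvPolynomial (Fin n) K] (MvPolynomial (Fin n) K ⧸ I) :=
    { toFun := fun g => Ψ g
      map_add' := fun g h => map_add Ψ _ _
      map_smul' := fun c g => by
        rw [RingHom.id_apply, hsm]
        exact hΨI c g g.2 }
  refine ⟨φ, ?_⟩
  rintro ⟨a, ha⟩
  choose b hb using fun k => Ideal.Quotient.mk_surjective (a k)
  apply hno
  let u : M := ⟨Ideal.Quotient.mk I (weightedHomogeneousComponent w e (b i)),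
    weightedHomogeneousComponent w e (b i), weightedHomogeneousComponent_isWeightedHomogeneous e _,
    rfl⟩
  let v : M := ⟨Ideal.Quotient.mk I (weightedHomogeneousComponent w e (b j)),
    weightedHomogeneousComponent w e (b j), weightedHomogeneousComponent_isWeightedHomogeneous e _,
    rfl⟩
  have hkey : ∀ g ∈ I0, Ψ (sg K i j g) =
      Ideal.Quotient.mk I (sg K i j (pderiv 0 g)) * (u : MvPolynomial (Fin n) K ⧸ I) +
      Ideal.Quotient.mk I (sg K i j (pderiv 1 g)) * (v : MvPolynomial (Fin n) K ⧸ I) := by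
    intro g hg
    obtain ⟨pd1, pd2, pd3⟩ := pd_sg (K := K) i j hij g
    have h3 : Ψ (sg K i j g) = ∑ k, Ideal.Quotient.mk I (pderiv k (sg K i j g)) * a k :=
      ha ⟨sg K i j g, hg⟩
    rw [Finset.sum_eq_add i j hij (fun k _ hk => by rw [pd3 k hk.1 hk.2, map_zero, zero_mul])
      (fun h => absurd (Finset.mem_univ _) h) (fun h => absurd (Finset.mem_univ _) h),
      pd1, pd2, ← hb i, ← hb j, ← map_mul, ← map_mul, ← map_add] at h3
    obtain ⟨h, hh, hhe⟩ := (hMmem _).1 (hΨM (sg K i j g))
    rw [← hhe, Ideal.Quotient.mk_eq_mk_iff_sub_mem] at h3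
    have h4 := hI _ h3 e
    rw [map_sub, map_add, weightedHomogeneousComponent_eq_self hh,
      Pool.Agent.H12.Rig.wcomp_mul (sg_wh w i j hij hw _) rfl,
      Pool.Agent.H12.Rig.wcomp_mul (sg_wh w i j hij hw _) rfl] at h4
    rw [← hhe]
    show Ideal.Quotient.mk I h = Ideal.Quotient.mk I (sg K i j (pderiv 0 g)) *
      Ideal.Quotient.mk I (weightedHomogeneousComponent w e (b i)) +
      Ideal.Quotient.mk I (sg K i j (pderiv 1 g)) *
      Ideal.Quotient.mk I (weightedHomogeneousComponent w e (b j))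
    rw [← map_mul, ← map_mul, ← map_add, Ideal.Quotient.mk_eq_mk_iff_sub_mem]
    exact h4
  let Ψ0 : MvPolynomial (Fin 2) K →ₗ[K] M :=
    { toFun := fun g => ⟨Ψ (sg K i j g), hΨM _⟩
      map_add' := fun g h => Subtype.ext (by
        show Ψ (sg K i j (g + h)) = Ψ (sg K i j g) + Ψ (sg K i j h)
        rw [map_add, map_add])
      map_smul' := fun c g => Subtype.ext (by
        show Ψ (sg K i j (c • g)) = c • Ψ (sg K i j g)
        rw [map_smul, map_smul]) }
  let D : MvPolynomial (Fin 2) K →ₗ[K] M :=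
    Ψ0 - (A.toLinearMap.flip u ∘ₗ (pderiv 0).toLinearMap) -
      (A.toLinearMap.flip v ∘ₗ (pderiv 1).toLinearMap)
  have hD : ∀ g, D g = Ψ0 g - A (pderiv 0 g) u - A (pderiv 1 g) v := fun g => rfl
  obtain ⟨ψ, hψ⟩ := exists_lift I0 D (by
    intro g hg
    rw [hD]
    refine Subtype.ext ?_
    rw [Submodule.coe_sub, Submodule.coe_sub, hAc, hAc]
    show Ψ (sg K i j g) - _ - _ = 0
    rw [hkey g hg, sub_sub, sub_self])
  have hrs : ∀ r, π (sg K i j r) = Ideal.Quotient.mk I0 r := by
    intro r
    rw [hπ, rh_sg i j hij]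
  have h0 : ∀ r, Ψ0 (X 0 * r) = A (X 0) (Ψ0 r) + α (Ideal.Quotient.mk I0 r) := by
    intro r
    refine Subtype.ext ?_
    rw [Submodule.coe_add, hAc, sg_X0]
    show Ψ (sg K i j (X 0 * r)) = Ideal.Quotient.mk I (X i) * Ψ (sg K i j r) + _
    rw [map_mul, sg_X0, hΨ, hDi, hrs]
  have h1 : ∀ r, Ψ0 (X 1 * r) = A (X 1) (Ψ0 r) + β (Ideal.Quotient.mk I0 r) := by
    intro r
    refine Subtype.ext ?_
    rw [Submodule.coe_add, hAc, sg_X1]
    show Ψ (sg K i j (X 1 * r)) = Ideal.Quotient.mk I (X j) * Ψ (sg K i j r) + _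
    rw [map_mul, sg_X1, hΨ, hDj, hrs]
  refine ⟨ψ, u, v, fun r => ⟨?_, ?_⟩⟩
  · rw [hψ, hψ, hD, hD, h0, pd_self, pd_ne 1 0 (by decide)]
    simp only [map_mul, map_add, map_sub, LinearMap.add_apply, Module.End.mul_apply]
    abel
  · rw [hψ, hψ, hD, hD, h1, pd_self, pd_ne 0 1 (by decide)]
    simp only [map_mul, map_add, map_sub, LinearMap.add_apply, Module.End.mul_apply]
    abel

end Pool.Agent.H66.Rig.Two
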