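import Mathlib
import Pool.Agent.H66.Rig.TwoQ

/-!
# Ideals in two variables with two quadrics: the degenerate case (MP_562323_ag)
-/

set_option autoImplicit false

namespace Pool.Agent.H66.Rig.Two

open Module MvPolynomial

variable {K : Type*} [Field K]

theorem mul_mem_of (I0 : Ideal (MvPolynomial (Fin 2) K)) (s z : MvPolynomial (Fin 2) K)
    (hz : z ∈ mm K 2) (h0 : X 0 * s ∈ I0) (h1 : X 1 * s ∈ I0) : z * s ∈ I0 := by
  rw [mm_pair, Ideal.mem_span_pair] at hz
  obtain ⟨a, b, rfl⟩ := hz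
  have := I0.add_mem (I0.mul_mem_left a h0) (I0.mul_mem_left b h1)
  convert this using 1
  ring

theorem deg (I0 : Ideal (MvPolynomial (Fin 2) K)) (N : ℕ) (hN : mm K 2 ^ N ≤ I0)
    (h2 : I0 ≤ mm K 2 ^ 2) (l z : MvPolynomial (Fin 2) K) (hl : l ∈ mm K 2) (hz : z ∈ mm K 2)
    (hlz : mm K 2 ≤ Ideal.span {l, z})
    (hll : l * l ∈ I0 ⊔ mm K 2 ^ 3) (hlz' : l * z ∈ I0 ⊔ mm K 2 ^ 3)
    (hzz : ∀ c : K, C c * (z * z) ∈ I0 ⊔ mm K 2 ^ 3 → c = 0)
    (s t : MvPolynomial (Fin 2) K)
    (hs : X 0 * s ∈ I0) (hs' : X 1 * s ∈ I0) (ht : X 0 * t ∈ I0) (ht' : X 1 * t ∈ I0)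
    (hind : ∀ a b : K, C a * s + C b * t ∈ I0 → a = 0 ∧ b = 0) :
    ∃ r ∈ mm K 2 ^ 2, (l + r) * X 0 ∈ I0 ∧ (l + r) * X 1 ∈ I0 := by
  have hz2 : z * z ∈ mm K 2 ^ 2 := by
    rw [pow_two]
    exact Ideal.mul_mem_mul hz hz
  have hz3 : z * z * z ∈ mm K 2 ^ 3 := by
    rw [pow_succ]
    exact Ideal.mul_mem_mul hz2 hz
  -- the second power
  have hm2 : mm K 2 ^ 2 ≤ I0 ⊔ Ideal.span {z * z} := by
    refine nak I0 _ N 2 hN le_sup_left ?_
    have h1 : I0 ⊔ mm K 2 ^ 3 ≤ I0 ⊔ Ideal.span {z * z} ⊔ mm K 2 ^ (2 + 1) :=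
      sup_le (le_sup_left.trans le_sup_left) le_sup_right
    rw [pow_two]
    refine (Ideal.mul_mono hlz hlz).trans ?_
    rw [Ideal.span_pair_mul_span_pair, Ideal.span_le]
    rintro _ (rfl | rfl | rfl | rfl)
    · exact h1 hll
    · exact h1 hlz'
    · show z * l ∈ _
      have h3 : z * l = l * z := mul_comm _ _
      rw [h3]
      exact h1 hlz'
    · exact Ideal.mem_sup_left (Ideal.mem_sup_right (Ideal.mem_span_singleton_self _))
  have hm3 : mm K 2 ^ 3 ≤ I0 ⊔ Ideal.span {z * z * z} := by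
    refine nak I0 _ N 3 hN le_sup_left ?_
    have h1 : mm K 2 ^ 3 = mm K 2 * mm K 2 ^ 2 := by rw [← pow_succ']
    rw [h1]
    refine (Ideal.mul_mono hlz hm2).trans ?_
    rw [Ideal.mul_sup]
    refine sup_le (Ideal.mul_le_right.trans (le_sup_left.trans le_sup_left)) ?_
    rw [Ideal.span_mul_span', Ideal.span_le]
    rintro _ ⟨a, ha, b, hb, rfl⟩
    rw [Set.mem_singleton_iff] at hb
    subst hb
    rcases ha with rfl | ha
    · have h3 : ∀ f ∈ I0 ⊔ mm K 2 ^ 3, z * f ∈ I0 ⊔ Ideal.span {z * z * z} ⊔ mm K 2 ^ (3 + 1) := by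
        intro f hf
        obtain ⟨f1, hf1, f2, hf2, rfl⟩ := Submodule.mem_sup.1 hf
        rw [mul_add]
        refine Ideal.add_mem _ (Ideal.mem_sup_left (Ideal.mem_sup_left (I0.mul_mem_left _ hf1))) ?_
        refine Ideal.mem_sup_right ?_
        rw [pow_succ']
        exact Ideal.mul_mem_mul hz hf2
      have h4 := h3 _ hlz'
      have h5 : a * (z * z) = z * (a * z) := by ring
      show a * (z * z) ∈ I0 ⊔ Ideal.span {z * z * z} ⊔ mm K 2 ^ (3 + 1)
      rw [h5]
      exact h4
    · rw [Set.mem_singleton_iff] at ha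
      subst ha
      show a * (a * a) ∈ _
      rw [← mul_assoc]
      exact Ideal.mem_sup_left (Ideal.mem_sup_right (Ideal.mem_span_singleton_self _))
  have hP3 : I0 ⊔ mm K 2 ^ 3 ≤ I0 ⊔ Ideal.span {z * z * z} := sup_le le_sup_left hm3
  obtain ⟨i1, hi1, j1, hj1, e1⟩ := Submodule.mem_sup.1 (hP3 hlz')
  obtain ⟨h, rfl⟩ := Ideal.mem_span_singleton'.1 hj1
  set L : MvPolynomial (Fin 2) K := l - z * z * h with hL
  have hLz : L * z ∈ I0 := by
    convert hi1 using 1
    rw [hL]
    linear_combination -e1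
  have hLm : z * z * h ∈ mm K 2 ^ 2 := Ideal.mul_mem_right _ _ hz2
  by_cases hu : L * l ∈ I0
  · refine ⟨-(z * z * h), neg_mem hLm, ?_⟩
    have h3 : ∀ f ∈ mm K 2, (l + -(z * z * h)) * f ∈ I0 := by
      intro f hf
      have hf' := hlz hf
      rw [Ideal.mem_span_pair] at hf'
      obtain ⟨a, b, rfl⟩ := hf'
      have := I0.add_mem (I0.mul_mem_left a hu) (I0.mul_mem_left b hLz)
      convert this using 1
      rw [hL]
      ring
    exact ⟨h3 _ (X_mem 0), h3 _ (X_mem 1)⟩
  · exfalso
    have hzu : z * (L * l) ∈ I0 := by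
      have := I0.mul_mem_left l hLz
      convert this using 1
      ring
    -- the shape of socle elements
    have claimA : ∀ s : MvPolynomial (Fin 2) K, X 0 * s ∈ I0 → X 1 * s ∈ I0 →
        ∃ h3, s - z * z * h3 ∈ I0 := by
      intro s hs hs'
      have hsm : s ∈ mm K 2 := mem_mm_of s (h2 hs)
      have hzs := mul_mem_of I0 s z hz hs hs'
      have hls := mul_mem_of I0 s l hl hs hs'
      have hsp := hlz hsm
      rw [Ideal.mem_span_pair] at hsp
      obtain ⟨p, q, hpq⟩ := hsp
      have hs2 : s - C (coeff 0 p) * L - C (coeff 0 q) * z ∈ mm K 2 ^ 2 := by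
        have h5 : (p - C (coeff 0 p)) * l ∈ mm K 2 ^ 2 := by
          rw [pow_two]
          exact Ideal.mul_mem_mul (sub_C_mem p) hl
        have h6 : (q - C (coeff 0 q)) * z ∈ mm K 2 ^ 2 := by
          rw [pow_two]
          exact Ideal.mul_mem_mul (sub_C_mem q) hz
        have h7 := Ideal.add_mem _ (Ideal.add_mem _ h5 h6) (Ideal.mul_mem_left _ (C (coeff 0 p)) hLm)
        convert h7 using 1
        rw [hL, ← hpq]
        ring
      set p0 := coeff 0 p
      set q0 := coeff 0 q
      have hq0 : q0 = 0 := by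
        apply hzz
        have h5 : z * (s - C p0 * L - C q0 * z) ∈ I0 ⊔ mm K 2 ^ 3 := by
          refine Ideal.mem_sup_right ?_
          rw [pow_succ']
          exact Ideal.mul_mem_mul hz hs2
        have h6 : z * s - C p0 * (L * z) ∈ I0 ⊔ mm K 2 ^ 3 :=
          Ideal.mem_sup_left (I0.sub_mem hzs (I0.mul_mem_left _ hLz))
        have h7 := Ideal.sub_mem _ h6 h5
        convert h7 using 1
        ring
      rw [hq0, C_0, zero_mul, sub_zero] at hs2
      obtain ⟨i, hi, j, hj, e⟩ := Submodule.mem_sup.1 (hm2 hs2)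
      obtain ⟨h3, rfl⟩ := Ideal.mem_span_singleton'.1 hj
      -- `s = p0 L + i + h3 z^2`
      have hz3h : z * z * z * h3 ∈ I0 := by
        have h5 := I0.sub_mem (I0.sub_mem hzs (I0.mul_mem_left (C p0) hLz)) (I0.mul_mem_left z hi)
        convert h5 using 1
        linear_combination z * e
      have hp0 : p0 = 0 := by
        by_contra hp0
        apply hu
        have h5 : C p0 * (L * l) ∈ I0 := by
          -- `l s = p0 L l + l i + h3 z (l z)`
          have h6 := I0.sub_mem (I0.sub_mem hls (I0.mul_mem_left l hi))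
            (I0.add_mem (I0.mul_mem_left (h3 * z) hi1) (I0.mul_mem_left (z * h) hz3h))
          convert h6 using 1
          linear_combination l * e + (h3 * z) * e1
        have h6 := I0.mul_mem_left (C p0⁻¹) h5
        rwa [← mul_assoc, ← C_mul, inv_mul_cancel₀ hp0, C_1, one_mul] at h6
      refine ⟨h3, ?_⟩
      rw [hp0, C_0, zero_mul, sub_zero] at e
      rw [← e]
      convert hi using 1
      ring
    -- the last power of `z`
    have hex : ∃ d, z ^ d ∈ I0 := ⟨N, hN (Ideal.pow_mem_pow hz N)⟩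
    classical
    obtain ⟨d, hd, hdmin⟩ : ∃ d, z ^ d ∈ I0 ∧ ∀ k, k < d → z ^ k ∉ I0 :=
      ⟨Nat.find hex, Nat.find_spec hex, fun k hk => Nat.find_min hex hk⟩
    have hd3 : 3 ≤ d := by
      by_contra hcon
      have h5 : z ^ 2 ∈ I0 := by
        have : z ^ 2 = z ^ (2 - d) * z ^ d := by
          rw [← pow_add]
          congr 1
          omega
        rw [this]
        exact I0.mul_mem_left _ hd
      have := hzz 1 (Ideal.mem_sup_left (by rwa [C_1, one_mul, ← pow_two]))
      exact one_ne_zero this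
    have claimB : ∀ v : MvPolynomial (Fin 2) K, z * v ∈ I0 → (∃ h3, v - z * z * h3 ∈ I0) →
        ∃ c : K, v - C c * z ^ (d - 1) ∈ I0 := by
      intro v hv hv2
      have hstep : ∀ k, ∀ g : MvPolynomial (Fin 2) K, ∃ (c : K) (g' : MvPolynomial (Fin 2) K),
          z ^ (k + 2) * g - (C c * z ^ (k + 2) + z ^ (k + 3) * g') ∈ I0 := by
        intro k g
        have h5 := hlz (sub_C_mem g)
        rw [Ideal.mem_span_pair] at h5
        obtain ⟨p, q, hpq⟩ := h5
        refine ⟨coeff 0 g, z * h * p + q, ?_⟩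
        have h6 := I0.mul_mem_left (p * z ^ (k + 1)) hi1
        convert h6 using 1
        linear_combination (-z ^ (k + 2)) * hpq - p * z ^ (k + 1) * e1
      have hind' : ∀ k, k + 2 ≤ d - 1 → ∃ g, v - z ^ (k + 2) * g ∈ I0 := by
        intro k
        induction k with
        | zero =>
          intro _
          obtain ⟨h3, hh3⟩ := hv2
          refine ⟨h3, ?_⟩
          convert hh3 using 2
          ring
        | succ k ih =>
          intro hk
          obtain ⟨g, hg⟩ := ih (by omega)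
          obtain ⟨c, g', hg'⟩ := hstep k g
          have h5 : v - (C c * z ^ (k + 2) + z ^ (k + 3) * g') ∈ I0 := by
            have := I0.add_mem hg hg'
            convert this using 1
            ring
          have hc : c = 0 := by
            by_contra hc
            apply hdmin (d - 1) (by omega)
            obtain ⟨m, hm⟩ : ∃ m, d - 1 = m + (k + 3) := ⟨d - 1 - (k + 3), by omega⟩
            have hdm : d = m + (k + 3) + 1 := by omega
            have h6 := I0.sub_mem (I0.sub_mem (I0.mul_mem_left (z ^ m) hv)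
              (I0.mul_mem_left (z ^ m * z) h5)) (I0.mul_mem_left g' hd)
            have h7 : C c * z ^ (d - 1) ∈ I0 := by
              convert h6 using 1
              rw [hm, hdm]
              ring
            have h8 := I0.mul_mem_left (C c⁻¹) h7
            rwa [← mul_assoc, ← C_mul, inv_mul_cancel₀ hc, C_1, one_mul] at h8
          refine ⟨g', ?_⟩
          rw [hc, C_0, zero_mul, zero_add] at h5
          exact h5
      obtain ⟨k, hk⟩ : ∃ k, d - 1 = k + 2 := ⟨d - 3, by omega⟩
      obtain ⟨g, hg⟩ := hind' k (by omega)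
      obtain ⟨c, g', hg'⟩ := hstep k g
      refine ⟨c, ?_⟩
      have h5 := I0.add_mem (I0.add_mem hg hg') (I0.mul_mem_left g' hd)
      convert h5 using 1
      have hdk : d = k + 3 := by omega
      rw [hdk, show k + 3 - 1 = k + 2 by omega]
      ring
    obtain ⟨c, hc⟩ := claimB s (mul_mem_of I0 s z hz hs hs') (claimA s hs hs')
    obtain ⟨c', hc'⟩ := claimB t (mul_mem_of I0 t z hz ht ht') (claimA t ht ht')
    have h5 := hind c' (-c) (by
      have h6 := I0.sub_mem (I0.mul_mem_left (C c') hc) (I0.mul_mem_left (C c) hc')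
      convert h6 using 1
      rw [C_neg]
      ring)
    have hc0 : c = 0 := by simpa using h5.2
    rw [hc0, C_0, zero_mul, sub_zero] at hc
    have h6 := hind 1 0 (by rwa [C_1, one_mul, C_0, zero_mul, add_zero])
    exact one_ne_zero h6.1

end Pool.Agent.H66.Rig.Two
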