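import Mathlib
import Pool.Agent.H66.Rig.TwoR

/-!
# Ideals in two variables with two quadrics (MP_562323_ag)
-/

set_option autoImplicit false

namespace Pool.Agent.H66.Rig.Two

open Module MvPolynomial

variable {K : Type*} [Field K]

/-- two quadratic parts which are not proportional -/
theorem exists_nu (I0 : Ideal (MvPolynomial (Fin 2) K)) (h2 : I0 ≤ mm K 2 ^ 2)
    (hq : ¬ ∃ f ∈ I0, ∀ g ∈ I0, ∃ c : K, g - C c * f ∈ mm K 2 ^ 3) :
    ∃ n0 n1 n2 : K, ¬ (n0 = 0 ∧ n1 = 0 ∧ n2 = 0) ∧
      C n1 * X 0 * X 0 - C n0 * X 0 * X 1 ∈ I0 ⊔ mm K 2 ^ 3 ∧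
      C n2 * X 0 * X 0 - C n0 * X 1 * X 1 ∈ I0 ⊔ mm K 2 ^ 3 ∧
      C n2 * X 0 * X 1 - C n1 * X 1 * X 1 ∈ I0 ⊔ mm K 2 ^ 3 := by
  push Not at hq
  obtain ⟨g, hg, hg'⟩ := hq 0 I0.zero_mem
  obtain ⟨h, hh, hh'⟩ := hq g hg
  obtain ⟨a, b, c, h3⟩ := quad g (h2 hg)
  obtain ⟨a', b', c', h3'⟩ := quad h (h2 hh)
  have hG : C a * X 0 * X 0 + C b * X 0 * X 1 + C c * X 1 * X 1 ∈ I0 ⊔ mm K 2 ^ 3 := by
    have := Ideal.sub_mem _ (Ideal.mem_sup_left hg : g ∈ I0 ⊔ mm K 2 ^ 3)
      (Ideal.mem_sup_right h3)
    rwa [sub_sub_cancel] at this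
  have hH : C a' * X 0 * X 0 + C b' * X 0 * X 1 + C c' * X 1 * X 1 ∈ I0 ⊔ mm K 2 ^ 3 := by
    have := Ideal.sub_mem _ (Ideal.mem_sup_left hh : h ∈ I0 ⊔ mm K 2 ^ 3)
      (Ideal.mem_sup_right h3')
    rwa [sub_sub_cancel] at this
  refine ⟨b * c' - c * b', c * a' - a * c', a * b' - b * a', ?_, ?_, ?_, ?_⟩
  · rintro ⟨m0, m1, m2⟩
    have key : ∀ k : K, a' = k * a → b' = k * b → c' = k * c → False := by
      intro k e1 e2 e3
      apply hh' k
      have := Ideal.sub_mem _ h3' (Ideal.mul_mem_left _ (C k) h3)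
      convert this using 1
      rw [e1, e2, e3]
      simp only [C_mul]
      ring
    by_cases ha : a = 0
    · by_cases hb : b = 0
      · by_cases hc : c = 0
        · apply hg' 0
          rw [mul_zero, sub_zero]
          rw [ha, hb, hc] at h3
          simpa using h3
        · refine key (c' / c) ?_ ?_ ?_
          · rw [ha] at m1 ⊢
            have : c * a' = 0 := by linear_combination m1
            rw [(mul_eq_zero.1 this).resolve_left hc, mul_zero]
          · rw [hb] at m0 ⊢
            have : c * b' = 0 := by linear_combination -m0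
            rw [(mul_eq_zero.1 this).resolve_left hc, mul_zero]
          · field_simp
      · refine key (b' / b) ?_ ?_ ?_
        · rw [ha] at m2 ⊢
          have : b * a' = 0 := by linear_combination -m2
          rw [(mul_eq_zero.1 this).resolve_left hb, mul_zero]
        · field_simp
        · field_simp
          linear_combination m0
    · refine key (a' / a) ?_ ?_ ?_
      · field_simp
      · field_simp
        linear_combination m2
      · field_simp
        linear_combination -m1
  · have := Ideal.sub_mem _ (Ideal.mul_mem_left _ (C c) hH) (Ideal.mul_mem_left _ (C c') hG)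
    convert this using 1
    simp only [C_sub, C_mul]
    ring
  · have := Ideal.sub_mem _ (Ideal.mul_mem_left _ (C b') hG) (Ideal.mul_mem_left _ (C b) hH)
    convert this using 1
    simp only [C_sub, C_mul]
    ring
  · have := Ideal.sub_mem _ (Ideal.mul_mem_left _ (C a) hH) (Ideal.mul_mem_left _ (C a') hG)
    convert this using 1
    simp only [C_sub, C_mul]
    ring

theorem nu_mon (n0 n1 n2 a b c : K) : nu n0 n1 n2 (C a * (X 0 * X 0) + C b * (X 0 * X 1) +
    C c * (X 1 * X 1)) = n0 * a + n1 * b + n2 * c := by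
  rw [← nu_quad n0 n1 n2 a b c]
  congr 1
  ring

/-- An ideal `I0 ≤ (x, y)^2` of `K[x, y]`, containing a power of `(x, y)`, whose quadratic parts are not
all proportional and such that `K[x, y] / I0` has a socle of dimension at least two contains `l x` and
`l y` for some `l` of order one. -/
theorem exists_lin' (I0 : Ideal (MvPolynomial (Fin 2) K)) (N : ℕ) (hN : mm K 2 ^ N ≤ I0)
    (h2 : I0 ≤ mm K 2 ^ 2)
    (hq : ¬ ∃ f ∈ I0, ∀ g ∈ I0, ∃ c : K, g - C c * f ∈ mm K 2 ^ 3)
    (s t : MvPolynomial (Fin 2) K)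
    (hs : X 0 * s ∈ I0) (hs' : X 1 * s ∈ I0) (ht : X 0 * t ∈ I0) (ht' : X 1 * t ∈ I0)
    (hind : ∀ a b : K, C a * s + C b * t ∈ I0 → a = 0 ∧ b = 0) :
    ∃ a b : K, (a ≠ 0 ∨ b ≠ 0) ∧ ∃ r ∈ mm K 2 ^ 2,
      (C a * X 0 + C b * X 1 + r) * X 0 ∈ I0 ∧ (C a * X 0 + C b * X 1 + r) * X 1 ∈ I0 := by
  obtain ⟨n0, n1, n2, hn, E1, E2, E3⟩ := exists_nu I0 h2 hq
  have hF1 := F1 n0 n1 n2 hn (I0 ⊔ mm K 2 ^ 3) le_sup_right E1 E2 E3
  by_cases h3 : ∃ f ∈ I0, nu n0 n1 n2 f ≠ 0
  · obtain ⟨f, hf, hf0⟩ := h3
    have hm2 : mm K 2 ^ 2 ≤ I0 := by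
      refine nak I0 I0 N 2 hN le_rfl ?_
      intro g hg
      have h4 := hF1 (C (nu n0 n1 n2 f) * g - C (nu n0 n1 n2 g) * f)
        (Ideal.sub_mem _ (Ideal.mul_mem_left _ _ hg) (Ideal.mul_mem_left _ _ (h2 hf)))
        (by rw [map_sub, nu_C, nu_C]; ring)
      have h5 := Ideal.add_mem _ h4 (Ideal.mul_mem_left _ (C (nu n0 n1 n2 g))
        (Ideal.mem_sup_left hf : f ∈ I0 ⊔ mm K 2 ^ 3))
      rw [sub_add_cancel] at h5
      have h6 := Ideal.mul_mem_left _ (C (nu n0 n1 n2 f)⁻¹) h5
      rwa [← mul_assoc, ← C_mul, inv_mul_cancel₀ hf0, C_1, one_mul] at h6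
    refine ⟨1, 0, Or.inl one_ne_zero, 0, Ideal.zero_mem _, ?_, ?_⟩
    · apply hm2
      rw [C_1, C_0, one_mul, zero_mul, add_zero, add_zero, pow_two]
      exact Ideal.mul_mem_mul (X_mem 0) (X_mem 0)
    · apply hm2
      rw [C_1, C_0, one_mul, zero_mul, add_zero, add_zero, pow_two]
      exact Ideal.mul_mem_mul (X_mem 0) (X_mem 1)
  · push Not at h3
    have hF2 : ∀ f ∈ I0 ⊔ mm K 2 ^ 3, nu n0 n1 n2 f = 0 := by
      intro f hf
      obtain ⟨f1, hf1, f2, hf2, rfl⟩ := Submodule.mem_sup.1 hf
      rw [map_add, h3 f1 hf1, nu_three _ _ _ f2 hf2, add_zero]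
    by_cases hdet : n0 * n2 - n1 * n1 = 0
    · -- degenerate
      by_cases hn0 : n0 = 0
      · have hn1 : n1 = 0 := by
          rw [hn0] at hdet
          have : n1 * n1 = 0 := by linear_combination -hdet
          exact mul_self_eq_zero.1 this
        have hn2 : n2 ≠ 0 := fun h => hn ⟨hn0, hn1, h⟩
        obtain ⟨r, hr, hr0, hr1⟩ := deg I0 N hN h2 (X 0) (X 1) (X_mem 0) (X_mem 1)
          (by rw [mm_pair])
          (hF1 _ (by rw [pow_two]; exact Ideal.mul_mem_mul (X_mem 0) (X_mem 0)) (by
            have := nu_mon n0 n1 n2 1 0 0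
            rw [C_1, C_0, one_mul, zero_mul, zero_mul, add_zero, add_zero] at this
            rw [this, hn0]; ring))
          (hF1 _ (by rw [pow_two]; exact Ideal.mul_mem_mul (X_mem 0) (X_mem 1)) (by
            have := nu_mon n0 n1 n2 0 1 0
            rw [C_1, C_0, one_mul, zero_mul, zero_mul, add_zero, zero_add] at this
            rw [this, hn1]; ring))
          (by
            intro c hc
            have h4 := hF2 _ hc
            have := nu_mon n0 n1 n2 0 0 1
            rw [C_1, C_0, one_mul, zero_mul, zero_mul, add_zero, zero_add] at this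
            rw [nu_C, this] at h4
            have h5 : c * n2 = 0 := by linear_combination h4
            exact (mul_eq_zero.1 h5).resolve_right hn2)
          s t hs hs' ht ht' hind
        refine ⟨1, 0, Or.inl one_ne_zero, r, hr, ?_, ?_⟩
        · rwa [C_1, C_0, one_mul, zero_mul, add_zero]
        · rwa [C_1, C_0, one_mul, zero_mul, add_zero]
      · obtain ⟨r, hr, hr0, hr1⟩ := deg I0 N hN h2 (C n1 * X 0 + C (-n0) * X 1) (X 0)
          (Ideal.add_mem _ (Ideal.mul_mem_left _ _ (X_mem 0)) (Ideal.mul_mem_left _ _ (X_mem 1)))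
          (X_mem 0)
          (by
            rw [mm_pair, Ideal.span_le]
            rintro _ (rfl | rfl)
            · exact Ideal.subset_span (by simp)
            · show X 1 ∈ Ideal.span _
              rw [Ideal.mem_span_pair]
              refine ⟨C (-n0⁻¹), C (n0⁻¹ * n1), ?_⟩
              have h4 : (C (n0⁻¹) * C n0 : MvPolynomial (Fin 2) K) = 1 := by
                rw [← C_mul, inv_mul_cancel₀ hn0, C_1]
              simp only [C_neg, C_mul]
              linear_combination (X 1) * h4)
          (hF1 _ (by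
              rw [pow_two]
              exact Ideal.mul_mem_mul
                (Ideal.add_mem _ (Ideal.mul_mem_left _ _ (X_mem 0)) (Ideal.mul_mem_left _ _ (X_mem 1)))
                (Ideal.add_mem _ (Ideal.mul_mem_left _ _ (X_mem 0)) (Ideal.mul_mem_left _ _ (X_mem 1))))
            (by
              have := nu_mon n0 n1 n2 (n1 * n1) (-(2 * n1 * n0)) (n0 * n0)
              have h4 : ((C n1 * X 0 + C (-n0) * X 1) * (C n1 * X 0 + C (-n0) * X 1) :
                  MvPolynomial (Fin 2) K) =
                  C (n1 * n1) * (X 0 * X 0) + C (-(2 * n1 * n0)) * (X 0 * X 1) +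
                    C (n0 * n0) * (X 1 * X 1) := by
                simp only [C_neg, C_mul, map_ofNat]
                ring
              rw [h4, this]
              linear_combination n0 * hdet))
          (hF1 _ (by
              rw [pow_two]
              exact Ideal.mul_mem_mul
                (Ideal.add_mem _ (Ideal.mul_mem_left _ _ (X_mem 0)) (Ideal.mul_mem_left _ _ (X_mem 1)))
                (X_mem 0))
            (by
              have := nu_mon n0 n1 n2 n1 (-n0) 0
              have h4 : ((C n1 * X 0 + C (-n0) * X 1) * X 0 : MvPolynomial (Fin 2) K) =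
                  C n1 * (X 0 * X 0) + C (-n0) * (X 0 * X 1) + C 0 * (X 1 * X 1) := by
                rw [C_0]
                ring
              rw [h4, this]
              ring))
          (by
            intro c hc
            have h4 := hF2 _ hc
            have := nu_mon n0 n1 n2 1 0 0
            rw [C_1, C_0, one_mul, zero_mul, zero_mul, add_zero, add_zero] at this
            rw [nu_C, this] at h4
            have h5 : c * n0 = 0 := by linear_combination h4
            exact (mul_eq_zero.1 h5).resolve_right hn0)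
          s t hs hs' ht ht' hind
        exact ⟨n1, -n0, Or.inr (neg_ne_zero.2 hn0), r, hr, hr0, hr1⟩
    · -- nondegenerate
      exfalso
      have hmul : ∀ f ∈ I0 ⊔ mm K 2 ^ 3, ∀ z ∈ mm K 2, z * f ∈ I0 ⊔ mm K 2 ^ (3 + 1) := by
        intro f hf z hz
        obtain ⟨f1, hf1, f2, hf2, rfl⟩ := Submodule.mem_sup.1 hf
        rw [mul_add]
        refine Ideal.add_mem _ (Ideal.mem_sup_left (I0.mul_mem_left _ hf1)) ?_
        refine Ideal.mem_sup_right ?_
        rw [pow_succ']
        exact Ideal.mul_mem_mul hz hf2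
      have x1 := hmul _ E1 _ (X_mem 0)
      have y1 := hmul _ E1 _ (X_mem 1)
      have x2 := hmul _ E2 _ (X_mem 0)
      have y2 := hmul _ E2 _ (X_mem 1)
      have x3 := hmul _ E3 _ (X_mem 0)
      have y3 := hmul _ E3 _ (X_mem 1)
      have hdiv : ∀ (c : K) (f : MvPolynomial (Fin 2) K), c ≠ 0 →
          C c * f ∈ I0 ⊔ mm K 2 ^ (3 + 1) → f ∈ I0 ⊔ mm K 2 ^ (3 + 1) := by
        intro c f hc h6
        have h7 := Ideal.mul_mem_left _ (C c⁻¹) h6
        rwa [← mul_assoc, ← C_mul, inv_mul_cancel₀ hc, C_1, one_mul] at h7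
      have c21 : (X 0 * X 0 * X 1 : MvPolynomial (Fin 2) K) ∈ I0 ⊔ mm K 2 ^ (3 + 1) := by
        apply hdiv _ _ hdet
        have := Ideal.sub_mem _ (Ideal.mul_mem_left _ (C n0) x3) (Ideal.mul_mem_left _ (C n1) y1)
        convert this using 1
        simp only [C_sub, C_mul]
        ring
      have c12 : (X 0 * X 1 * X 1 : MvPolynomial (Fin 2) K) ∈ I0 ⊔ mm K 2 ^ (3 + 1) := by
        apply hdiv _ _ hdet
        have := Ideal.sub_mem _ (Ideal.mul_mem_left _ (C n1) x3) (Ideal.mul_mem_left _ (C n2) y1)
        convert this using 1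
        simp only [C_sub, C_mul]
        ring
      have c30 : (X 0 * X 0 * X 0 : MvPolynomial (Fin 2) K) ∈ I0 ⊔ mm K 2 ^ (3 + 1) := by
        by_cases hn1 : n1 = 0
        · have hn2 : n2 ≠ 0 := by
            rintro h
            apply hdet
            rw [hn1, h]
            ring
          apply hdiv n2 _ hn2
          have := Ideal.add_mem _ x2 (Ideal.mul_mem_left _ (C n0) c12)
          convert this using 1
          ring
        · apply hdiv n1 _ hn1
          have := Ideal.add_mem _ x1 (Ideal.mul_mem_left _ (C n0) c21)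
          convert this using 1
          ring
      have c03 : (X 1 * X 1 * X 1 : MvPolynomial (Fin 2) K) ∈ I0 ⊔ mm K 2 ^ (3 + 1) := by
        by_cases hn1 : n1 = 0
        · have hn0 : n0 ≠ 0 := by
            rintro h
            apply hdet
            rw [hn1, h]
            ring
          apply hdiv n0 _ hn0
          have := Ideal.sub_mem _ (Ideal.mul_mem_left _ (C n2) c21) y2
          convert this using 1
          ring
        · apply hdiv n1 _ hn1
          have := Ideal.sub_mem _ (Ideal.mul_mem_left _ (C n2) c12) y3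
          convert this using 1
          ring
      have hm3 : mm K 2 ^ 3 ≤ I0 := by
        refine nak I0 I0 N 3 hN le_rfl ?_
        have h1 : mm K 2 ^ 3 = mm K 2 * (mm K 2 * mm K 2) := by ring
        rw [h1, mm_pair, Ideal.span_pair_mul_span_pair, Ideal.span_mul_span', Ideal.span_le]
        rintro _ ⟨a, ha, b, hb, rfl⟩
        show a * b ∈ I0 ⊔ Ideal.span {X 0, X 1} ^ (3 + 1)
        rw [← mm_pair]
        rcases ha with rfl | rfl <;> rcases hb with rfl | rfl | rfl | rfl
        · convert c30 using 1; ring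
        · convert c21 using 1; ring
        · convert c21 using 1; ring
        · convert c12 using 1; ring
        · convert c21 using 1; ring
        · convert c12 using 1; ring
        · convert c12 using 1; ring
        · convert c03 using 1; ring
      have hF : ∀ f ∈ mm K 2 ^ 2, nu n0 n1 n2 f = 0 → f ∈ I0 := by
        intro f hf hf0
        exact sup_le le_rfl hm3 (hF1 f hf hf0)
      -- socle elements lie in `mm ^ 2`
      have hsoc : ∀ s : MvPolynomial (Fin 2) K, X 0 * s ∈ I0 → X 1 * s ∈ I0 → s ∈ mm K 2 ^ 2 := by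
        intro s hs hs'
        have hsm : s ∈ mm K 2 := mem_mm_of s (h2 hs)
        obtain ⟨α, β, hαβ⟩ := lin s hsm
        have h4 : nu n0 n1 n2 (X 0 * (s - (C α * X 0 + C β * X 1))) = 0 := by
          apply nu_three
          rw [pow_succ']
          exact Ideal.mul_mem_mul (X_mem 0) hαβ
        have h5 : nu n0 n1 n2 (X 1 * (s - (C α * X 0 + C β * X 1))) = 0 := by
          apply nu_three
          rw [pow_succ']
          exact Ideal.mul_mem_mul (X_mem 1) hαβ
        have e4 : X 0 * (s - (C α * X 0 + C β * X 1)) = X 0 * s - (C α * (X 0 * X 0) +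
            C β * (X 0 * X 1) + C 0 * (X 1 * X 1)) := by
          rw [C_0]
          ring
        have e5 : X 1 * (s - (C α * X 0 + C β * X 1)) = X 1 * s - (C 0 * (X 0 * X 0) +
            C α * (X 0 * X 1) + C β * (X 1 * X 1)) := by
          rw [C_0]
          ring
        rw [e4, map_sub, nu_mon, h3 _ hs] at h4
        rw [e5, map_sub, nu_mon, h3 _ hs'] at h5
        have hα : α = 0 := by
          have : (n0 * n2 - n1 * n1) * α = 0 := by linear_combination -n2 * h4 + n1 * h5
          exact (mul_eq_zero.1 this).resolve_left hdet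
        have hβ : β = 0 := by
          have : (n0 * n2 - n1 * n1) * β = 0 := by linear_combination n1 * h4 - n0 * h5
          exact (mul_eq_zero.1 this).resolve_left hdet
        rw [hα, hβ, C_0, zero_mul, zero_mul, add_zero, sub_zero] at hαβ
        exact hαβ
      have s2 := hsoc s hs hs'
      have t2 := hsoc t ht ht'
      have h4 := hF (C (nu n0 n1 n2 t) * s - C (nu n0 n1 n2 s) * t)
        (Ideal.sub_mem _ (Ideal.mul_mem_left _ _ s2) (Ideal.mul_mem_left _ _ t2))
        (by rw [map_sub, nu_C, nu_C]; ring)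
      have h5 := hind (nu n0 n1 n2 t) (-nu n0 n1 n2 s) (by
        convert h4 using 1
        rw [C_neg]
        ring)
      have h6 := hF s s2 (neg_eq_zero.1 h5.2)
      have h7 := hind 1 0 (by rwa [C_1, one_mul, C_0, zero_mul, add_zero])
      exact one_ne_zero h7.1

end Pool.Agent.H66.Rig.Two
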