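import Mathlib
import Pool.Agent.H66.Rig.TwoP
import Pool.Agent.H66.Rig.TwoS

/-!
# Nonnegatively graded algebras whose degree zero part has embedding dimension two (MP_562323_ag)
-/

set_option autoImplicit false

namespace Pool.Agent.H66.Rig.Two

open Module MvPolynomial

section good

variable {K M : Type*} [Field K] [AddCommGroup M] [Module K M]

theorem good_all (A : MvPolynomial (Fin 2) K →ₐ[K] Module.End K M)
    (I0 : Ideal (MvPolynomial (Fin 2) K))
    [FiniteDimensional K M] [FiniteDimensional K (MvPolynomial (Fin 2) K ⧸ I0)] [Nontrivial M]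
    (N : ℕ) (hN : mm K 2 ^ N ≤ I0) (hA : ∀ g ∈ I0, A g = 0) (h2 : I0 ≤ mm K 2 ^ 2)
    (p q : K) (hp : p ≠ 0) (hq : q ≠ 0)
    (hE : ∀ g ∈ I0, C p * X 0 * pderiv 0 g + C q * X 1 * pderiv 1 g ∈ I0) : Good A I0 := by
  by_cases hquad : ∃ f ∈ I0, ∀ g ∈ I0, ∃ c : K, g - C c * f ∈ mm K 2 ^ 3
  · obtain ⟨f, hfI, hf⟩ := hquad
    exact abs A I0 hA N hN h2 p q hp hq hE f hfI hf
  · have h1 : I0 ≠ ⊤ := by
      rintro rfl
      have h3 : A 1 = 0 := hA 1 trivial
      rw [map_one] at h3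
      exact one_ne_zero h3
    obtain ⟨s, hs, hs0, hs1⟩ := exists_socle I0 h1 N hN
    by_cases hsoc : ∀ t, X 0 * t ∈ I0 → X 1 * t ∈ I0 → ∃ c : K, t - C c * s ∈ I0
    · exact good_gor A I0 N hN hA h2 s hs hsoc
    · push Not at hsoc
      obtain ⟨t, ht0, ht1, ht⟩ := hsoc
      have hind : ∀ a b : K, C a * s + C b * t ∈ I0 → a = 0 ∧ b = 0 := by
        intro a b hab
        have hb : b = 0 := by
          by_contra hb
          apply ht (-(b⁻¹ * a))
          have h3 := I0.mul_mem_left (C b⁻¹) hab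
          convert h3 using 1
          have h4 : (C b⁻¹ * C b : MvPolynomial (Fin 2) K) = 1 := by
            rw [← C_mul, inv_mul_cancel₀ hb, C_1]
          simp only [C_neg, C_mul]
          linear_combination (-t) * h4
        refine ⟨?_, hb⟩
        by_contra ha
        apply hs
        rw [hb, C_0, zero_mul, add_zero] at hab
        have h3 := I0.mul_mem_left (C a⁻¹) hab
        rwa [← mul_assoc, ← C_mul, inv_mul_cancel₀ ha, C_1, one_mul] at h3
      obtain ⟨a, b, hab, r, hr, hl0, hl1⟩ := exists_lin' I0 N hN h2 hquad s t hs0 hs1 ht0 ht1 hind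
      exact good_soc A I0 N hN hA h2 p q hp hq hE s t hs0 hs1 ht0 ht1 hind a b hab r hr hl0 hl1

end good

/-- the Euler derivation of a quasi-homogeneous ideal -/
theorem euler {K : Type*} [Field K] (I0 : Ideal (MvPolynomial (Fin 2) K)) (v : Fin 2 → ℕ)
    (hv : ∀ g ∈ I0, ∀ k, weightedHomogeneousComponent v k g ∈ I0) (g : MvPolynomial (Fin 2) K)
    (hg : g ∈ I0) :
    C (v 0 : K) * X 0 * pderiv 0 g + C (v 1 : K) * X 1 * pderiv 1 g ∈ I0 := by
  classical
  let E : MvPolynomial (Fin 2) K →+ MvPolynomial (Fin 2) K :=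
    (AddMonoidHom.mulLeft (C (v 0 : K) * X 0)).comp (pderiv (R := K) (0 : Fin 2)).toLinearMap.toAddMonoidHom +
    (AddMonoidHom.mulLeft (C (v 1 : K) * X 1)).comp (pderiv (R := K) (1 : Fin 2)).toLinearMap.toAddMonoidHom
  have hE : ∀ g, E g = C (v 0 : K) * X 0 * pderiv 0 g + C (v 1 : K) * X 1 * pderiv 1 g := fun _ => rfl
  rw [← hE, ← sum_weightedHomogeneousComponent v g,
    AddMonoidHom.map_finsum E (weightedHomogeneousComponent_finsupp g)]
  refine finsum_induction (fun u => u ∈ I0) I0.zero_mem (fun _ _ => I0.add_mem) ?_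
  intro k
  rw [hE]
  have h1 := (weightedHomogeneousComponent_isWeightedHomogeneous (w := v) k g).sum_weight_X_mul_pderiv
  rw [Fin.sum_univ_two] at h1
  have h2 : C (v 0 : K) * X 0 * pderiv 0 (weightedHomogeneousComponent v k g) +
      C (v 1 : K) * X 1 * pderiv 1 (weightedHomogeneousComponent v k g) =
      k • weightedHomogeneousComponent v k g := by
    rw [← h1]
    simp only [nsmul_eq_mul, map_natCast]
    ring
  rw [h2]
  exact I0.nsmul_mem (hv g hg k) k

/-- **The theorem.** -/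
theorem main {K : Type*} [Field K] {n : ℕ} (w : Fin n → ℕ) (I : Ideal (MvPolynomial (Fin n) K))
    (hI1 : I ≠ ⊤)
    (hI : ∀ f ∈ I, ∀ k, weightedHomogeneousComponent w k f ∈ I)
    (hN : ∃ N : ℕ, mm K n ^ N ≤ I)
    (i j : Fin n) (hij : i ≠ j) (hw : ∀ k, w k = 0 ↔ k = i ∨ k = j)
    (h2 : I.comap (sg K i j) ≤ mm K 2 ^ 2)
    (v : Fin 2 → ℕ) (hv0 : (v 0 : K) ≠ 0) (hv1 : (v 1 : K) ≠ 0)
    (hv : ∀ g ∈ I.comap (sg K i j), ∀ k, weightedHomogeneousComponent v k g ∈ I.comap (sg K i j)) :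
    NotRigid I := by
  refine two' w I hI1 hI hN i j hij hw ?_
  intro M _ _ _ _ A hA N hN' hfin
  exact good_all A _ N hN' hA h2 (v 0 : K) (v 1 : K) hv0 hv1 (euler _ v hv)

end Pool.Agent.H66.Rig.Two
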