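import Mathlib
import Pool.Agent.H66.Rig.GenB
import Pool.Agent.H66.Rig.TwoM
import Pool.Agent.H66.Rig.CiC
import Pool.Agent.H66.Rig.CiD

/-!
# Nonnegatively graded algebras whose degree zero part is a flat base change: the theorem (MP_562323_ag)
-/

set_option autoImplicit false

namespace Pool.Agent.H66.Rig.Two

open Module MvPolynomial

/-- a proper ideal which contains a power of `mm` is contained in `mm` -/
theorem le_mm_of {K : Type*} [Field K] (I0 : Ideal (MvPolynomial (Fin 2) K)) (N : ℕ)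
    (hN : mm K 2 ^ N ≤ I0) (h1 : I0 ≠ ⊤) : I0 ≤ mm K 2 := by
  intro g hg
  have h2 := sub_C_mem g
  set c := coeff 0 g
  by_cases hc : c = 0
  · rwa [hc, C_0, sub_zero] at h2
  · exfalso
    apply h1
    have h3 : C c - (-(g - C c)) ∣ (C c) ^ N - (-(g - C c)) ^ N := sub_dvd_pow_sub_pow _ _ N
    have h4 : C c - (-(g - C c)) = g := by ring
    rw [h4] at h3
    have h5 : (C c) ^ N - (-(g - C c)) ^ N ∈ I0 := Ideal.mem_of_dvd _ h3 hg
    have h6 : (-(g - C c)) ^ N ∈ I0 := hN (Ideal.pow_mem_pow (neg_mem h2) N)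
    have h7 := I0.add_mem h5 h6
    rw [sub_add_cancel, ← C_pow] at h7
    have h8 := I0.mul_mem_left (C (c ^ N)⁻¹) h7
    rw [← C_mul, inv_mul_cancel₀ (pow_ne_zero N hc), C_1] at h8
    exact (Ideal.eq_top_iff_one I0).2 h8

/-- **The theorem.** -/
theorem mainG {K : Type*} [Field K] {n : ℕ} (w : Fin n → ℕ) (I : Ideal (MvPolynomial (Fin n) K))
    (hI1 : I ≠ ⊤)
    (hI : ∀ f ∈ I, ∀ k, weightedHomogeneousComponent w k f ∈ I)
    (hN : ∃ N : ℕ, mm K n ^ N ≤ I)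
    (θ : MvPolynomial (Fin 2) K →ₐ[K] MvPolynomial (Fin n) K)
    (hθ : ∀ a, θ (X a) ∈ supported K {k | w k = 0} ∧ θ (X a) ∈ mm K n)
    {R : Type*} [CommRing R] (κ : MvPolynomial (Fin n) K →+* R)
    (ρ : R →+* (MvPolynomial (Fin n) K ⧸ I)) (hρ : ρ.comp κ = Ideal.Quotient.mk I)
    (hflat : (κ.comp θ.toRingHom).Flat)
    (hT : ∀ g ∈ I, g ∈ supported K {k | w k = 0} → κ g ∈ (I.comap θ).map (κ.comp θ.toRingHom))
    (v : Fin 2 → ℕ) (hv0 : (v 0 : K) ≠ 0) (hv1 : (v 1 : K) ≠ 0)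
    (hv : ∀ p ∈ I.comap θ, ∀ k, weightedHomogeneousComponent v k p ∈ I.comap θ)
    (p : MvPolynomial (Fin 2) K) (hp : p ∈ I.comap θ) (hp' : p ∉ mm K 2 * I.comap θ)
    (hp2 : θ p ∈ mm K n ^ 2) : NotRigid I := by
  refine genFl w I hI1 hI hN θ (fun a => (supp_iff w _).1 (hθ a).1) (fun a => (hθ a).2) κ ρ hρ hflat
    (fun g hg hg0 => hT g hg ((supp_iff w g).2 hg0)) p hp hp2 ?_
  intro M _ _ _ _ A hA N hN' hfin U hU
  by_cases h2 : I.comap θ ≤ mm K 2 ^ 2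
  · obtain ⟨Ψ, h3, h4⟩ := good_map A _
      (good_all A _ N hN' hA h2 (v 0 : K) (v 1 : K) hv0 hv1 (euler _ v hv))
    refine ⟨Ψ, h3, ?_⟩
    rintro ⟨u, v, h5, -⟩
    exact h4 ⟨u, v, h5⟩
  · have h1 : I.comap θ ≤ mm K 2 := by
      refine le_mm_of _ N hN' ?_
      intro h
      apply hI1
      rw [Ideal.eq_top_iff_one] at h ⊢
      have h3 : θ 1 ∈ I := h
      rwa [map_one] at h3
    obtain ⟨s, hs, hsoc⟩ := ci_socle _ N hN' h1 h2
    obtain ⟨g', hg', hgen⟩ := ci_gen _ N hN' h1 h2 p hp hp'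
    obtain ⟨Ψ, h3, h4⟩ := ci_map A _ N hN' hA s hs hsoc p g' hp hg' hgen U hU
    refine ⟨Ψ, h3, ?_⟩
    rintro ⟨u, v, -, h5⟩
    exact h4 h5

end Pool.Agent.H66.Rig.Two
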