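import Mathlib
import Pool.Agent.H66.Rig.Graded

/-!
# The case of one variable of weight zero (MP_562323_ag)

`torus'` is the statement of helper12's `TorusObstruction`, obtained from `graded`.
-/

set_option autoImplicit false

namespace Pool.Agent.H66.Rig

open MvPolynomial

variable {K : Type*} [Field K] {n : ℕ}

theorem torus' (w : Fin n → ℕ) (i0 : Fin n) (hw0 : w i0 = 0) (hw : ∀ j, j ≠ i0 → 0 < w j)
    (I : Ideal (MvPolynomial (Fin n) K))
    (hI : ∀ f ∈ I, ∀ k, weightedHomogeneousComponent w k f ∈ I)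
    (hN : ∃ N : ℕ, mm K n ^ N ≤ I) (hx : (X i0 : MvPolynomial (Fin n) K) ∉ I) : NotRigid I := by
  classical
  have hN' := hN
  obtain ⟨N, hN1⟩ := hN
  have hone : (1 : MvPolynomial (Fin n) K) ∉ I := by
    intro h
    apply hx
    have := I.mul_mem_left (X i0) h
    rwa [mul_one] at this
  have hexq : ∃ k, (X i0 : MvPolynomial (Fin n) K) ^ k ∈ I :=
    ⟨N, hN1 (Ideal.pow_mem_pow (X_mem i0) N)⟩
  obtain ⟨q, hq, hqm⟩ : ∃ q, (X i0 : MvPolynomial (Fin n) K) ^ q ∈ I ∧
      ∀ j, j < q → (X i0 : MvPolynomial (Fin n) K) ^ j ∉ I :=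
    ⟨Nat.find hexq, Nat.find_spec hexq, fun j hj => Nat.find_min hexq hj⟩
  have hq2 : 2 ≤ q := by
    by_contra hcon
    have h1 : q = 0 ∨ q = 1 := by omega
    rcases h1 with rfl | rfl
    · rw [pow_zero] at hq
      exact hone hq
    · rw [pow_one] at hq
      exact hx hq
  have hXs : ∀ k, (X i0 ^ k : MvPolynomial (Fin n) K) ∈ supported K {i | w i = 0} := by
    intro k
    have h1 : (X i0 : MvPolynomial (Fin n) K) ∈ supported K {i | w i = 0} :=
      (supp_iff w _).2 (by
        have := isWeightedHomogeneous_X K w i0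
        rwa [hw0] at this)
    exact Subalgebra.pow_mem _ h1 k
  refine graded w I (fun h => hone (h ▸ Submodule.mem_top)) hI hN' ⊥ ⟨X i0 ^ q, hXs q⟩
    (Ideal.pow_le_pow_right hq2 (Ideal.pow_mem_pow (X_mem i0) q)) ?_ ?_
  · rw [bot_sup_eq]
    apply le_antisymm
    · intro g hg
      rw [Ideal.mem_comap] at hg
      have hg' : (g : MvPolynomial (Fin n) K) ∈ I := hg
      have hgw := (supp_iff w _).1 g.2
      have hsupp : ∀ d ∈ (g : MvPolynomial (Fin n) K).support, d = Finsupp.single i0 (d i0) ∧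
          q ≤ d i0 := by
        intro d hd
        have h1 := MvPolynomial.mem_support_iff.1 hd
        have h2 := Pool.Agent.H12.Rig.weight_zero_eq hw (hgw h1)
        refine ⟨h2, ?_⟩
        by_contra hcon
        rw [h2] at h1
        exact h1 (Pool.Agent.H12.Rig.low_coeff hw0 hw hI hq hqm hg' _ (by omega))
      have hh : ∑ d ∈ (g : MvPolynomial (Fin n) K).support,
          C (coeff d (g : MvPolynomial (Fin n) K)) * X i0 ^ (d i0 - q) ∈
          supported K {i | w i = 0} := by
        refine Subalgebra.sum_mem _ fun d _ => Subalgebra.mul_mem _ ?_ (hXs _)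
        exact Subalgebra.algebraMap_mem _ _
      rw [Ideal.mem_span_singleton']
      refine ⟨⟨_, hh⟩, ?_⟩
      ext1
      show (∑ d ∈ (g : MvPolynomial (Fin n) K).support,
          C (coeff d (g : MvPolynomial (Fin n) K)) * X i0 ^ (d i0 - q)) * X i0 ^ q =
          (g : MvPolynomial (Fin n) K)
      conv_rhs => rw [(g : MvPolynomial (Fin n) K).as_sum]
      rw [Finset.sum_mul]
      refine Finset.sum_congr rfl fun d hd => ?_
      obtain ⟨h1, h2⟩ := hsupp d hd
      rw [mul_assoc, ← pow_add, Nat.sub_add_cancel h2]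
      conv_rhs => rw [h1]
      rw [X_pow_eq_monomial, C_mul_monomial, mul_one, ← h1]
    · rw [Ideal.span_le]
      rintro _ rfl
      exact hq
  · intro h hh
    rw [Ideal.mem_bot] at hh
    rcases mul_eq_zero.1 hh with h1 | h1
    · rw [h1]
      exact I.zero_mem
    · exfalso
      have h2 := congrArg Subtype.val h1
      exact pow_ne_zero q (X_ne_zero i0) h2

end Pool.Agent.H66.Rig
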