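import Mathlib
import Pool.Agent.H66.Rig.TwoD

/-!
# Homogeneous ideals in two variables with two quadrics (MP_562323_ag)
-/

set_option autoImplicit false

namespace Pool.Agent.H66.Rig.Two

open Module MvPolynomial

variable {K : Type*} [Field K]

/-- the quadratic form -/
private noncomputable def qq (a b c : K) : MvPolynomial (Fin 2) K :=
  C a * X 0 * X 0 + C b * X 0 * X 1 + C c * X 1 * X 1

private theorem qq_add (a b c a' b' c' : K) :
    qq a b c + qq a' b' c' = qq (a + a') (b + b') (c + c') := by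
  unfold qq
  rw [C_add, C_add, C_add]
  ring

private theorem qq_smul (d a b c : K) : C d * qq a b c = qq (d * a) (d * b) (d * c) := by
  unfold qq
  rw [C_mul, C_mul, C_mul]
  ring

private theorem qq_l0 (a b : K) : (C a * X 0 + C b * X 1) * X 0 = qq a b 0 := by
  unfold qq
  rw [C_0]
  ring

private theorem qq_l1 (a b : K) : (C a * X 0 + C b * X 1) * X 1 = qq 0 a b := by
  unfold qq
  rw [C_0]
  ring

private theorem unit_mem (I0 : Ideal (MvPolynomial (Fin 2) K)) {d : K} (hd : d ≠ 0)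
    {f : MvPolynomial (Fin 2) K} (h : C d * f ∈ I0) : f ∈ I0 := by
  have h1 := I0.mul_mem_left (C d⁻¹) h
  rwa [← mul_assoc, ← C_mul, inv_mul_cancel₀ hd, C_1, one_mul] at h1

private theorem hom_qq (a b c : K) : homogeneousComponent 2 (qq a b c) = qq a b c := by
  apply homogeneousComponent_eq_self
  unfold qq
  have h0 : (X 0 : MvPolynomial (Fin 2) K).IsHomogeneous 1 := isHomogeneous_X K 0
  have h1 : (X 1 : MvPolynomial (Fin 2) K).IsHomogeneous 1 := isHomogeneous_X K 1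
  have hC : ∀ x : K, (C x : MvPolynomial (Fin 2) K).IsHomogeneous 0 :=
    fun x => isHomogeneous_C (Fin 2) x
  refine IsHomogeneous.add (IsHomogeneous.add ?_ ?_) ?_
  · exact ((hC a).mul h0).mul h0
  · exact ((hC b).mul h0).mul h1
  · exact ((hC c).mul h1).mul h1

/-- the quadratic part is in the ideal -/
private theorem quad_mem (I0 : Ideal (MvPolynomial (Fin 2) K))
    (hI : ∀ f ∈ I0, ∀ k, homogeneousComponent k f ∈ I0) {g : MvPolynomial (Fin 2) K}
    (hg : g ∈ I0) {a b c : K} (h : g - qq a b c ∈ mm K 2 ^ 3) : qq a b c ∈ I0 := by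
  have h1 := hI g hg 2
  have h2 : homogeneousComponent 2 (g - qq a b c) = 0 := by
    apply homogeneousComponent_eq_zero'
    intro d hd
    have h3 := (mem_pow_idealOfVars_iff (σ := Fin 2) (R := K) 3 _).1 h d hd
    omega
  rw [map_sub, hom_qq, sub_eq_zero] at h2
  rwa [h2] at h1

/-- coefficients of `X i * s` -/
private theorem low (s : MvPolynomial (Fin 2) K) (h0 : coeff 0 s = 0) :
    s - (C (coeff (Finsupp.single 0 1) s) * X 0 + C (coeff (Finsupp.single 1 1) s) * X 1) ∈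
      mm K 2 ^ 2 := by
  classical
  apply (mem_pow_idealOfVars_iff' (σ := Fin 2) (R := K) 2 _).2
  intro d hd
  have hdeg : d.degree = d 0 + d 1 := by
    rw [Finsupp.degree_eq_sum, Fin.sum_univ_two]
  rw [coeff_sub, coeff_add, coeff_C_mul, coeff_C_mul, coeff_X, coeff_X]
  have key : ∀ u v : ℕ, Finsupp.single (0 : Fin 2) u + Finsupp.single 1 v = d ↔ d 0 = u ∧ d 1 = v := by
    intro u v
    constructor
    · rintro rfl
      constructor
      · simp
      · simp
    · rintro ⟨h0, h1⟩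
      ext i
      fin_cases i
      · simp [h0]
      · simp [h1]
  have k1 : Finsupp.single (0 : Fin 2) 1 = d ↔ d 0 = 1 ∧ d 1 = 0 := by
    have := key 1 0
    rwa [Finsupp.single_zero, add_zero] at this
  have k2 : Finsupp.single (1 : Fin 2) 1 = d ↔ d 0 = 0 ∧ d 1 = 1 := by
    have := key 0 1
    rwa [Finsupp.single_zero, zero_add] at this
  have k3 : (0 : Fin 2 →₀ ℕ) = d ↔ d 0 = 0 ∧ d 1 = 0 := by
    have := key 0 0
    rwa [Finsupp.single_zero, Finsupp.single_zero, add_zero] at this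
  by_cases h1 : Finsupp.single (0 : Fin 2) 1 = d
  · rw [if_pos h1, if_neg (fun h => by have := k1.1 h1; have := k2.1 h; omega), h1, mul_one,
      mul_zero, add_zero, sub_self]
  · by_cases h2 : Finsupp.single (1 : Fin 2) 1 = d
    · rw [if_neg h1, if_pos h2, h2, mul_zero, mul_one, zero_add, sub_self]
    · rw [if_neg h1, if_neg h2, mul_zero, mul_zero, add_zero, sub_zero]
      have h3 : (0 : Fin 2 →₀ ℕ) = d := by
        rw [k3]
        rw [k1] at h1
        rw [k2] at h2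
        omega
      rw [← h3]
      exact h0

/-- A homogeneous ideal `I0 ≤ (x, y)^2` of `K[x, y]` whose quadratic parts are not all proportional and
such that `K[x, y] / I0` has a socle of dimension at least two contains `l x` and `l y` for some nonzero
linear form `l`. -/
theorem exists_lin (I0 : Ideal (MvPolynomial (Fin 2) K))
    (hI : ∀ f ∈ I0, ∀ k, homogeneousComponent k f ∈ I0) (h2 : I0 ≤ mm K 2 ^ 2)
    (hq : ¬ ∃ f ∈ I0, ∀ g ∈ I0, ∃ c : K, g - C c * f ∈ mm K 2 ^ 3)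
    (s t : MvPolynomial (Fin 2) K)
    (hs : X 0 * s ∈ I0) (hs' : X 1 * s ∈ I0) (ht : X 0 * t ∈ I0) (ht' : X 1 * t ∈ I0)
    (hind : ∀ a b : K, C a * s + C b * t ∈ I0 → a = 0 ∧ b = 0) :
    ∃ a b : K, (a ≠ 0 ∨ b ≠ 0) ∧ (C a * X 0 + C b * X 1) * X 0 ∈ I0 ∧
      (C a * X 0 + C b * X 1) * X 1 ∈ I0 := by
  classical
  push Not at hq
  -- two quadrics
  obtain ⟨g1, hg1, hg1'⟩ := hq 0 I0.zero_mem
  obtain ⟨a1, b1, c1, hq1⟩ := quad g1 (h2 hg1)
  have hQ1 : qq a1 b1 c1 ∈ I0 := quad_mem I0 hI hg1 hq1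
  obtain ⟨g2, hg2, hg2'⟩ := hq (qq a1 b1 c1) hQ1
  obtain ⟨a2, b2, c2, hq2⟩ := quad g2 (h2 hg2)
  have hQ2 : qq a2 b2 c2 ∈ I0 := quad_mem I0 hI hg2 hq2
  have hz1 : ¬ (a1 = 0 ∧ b1 = 0 ∧ c1 = 0) := by
    rintro ⟨h3, h4, h5⟩
    apply hg1' 0
    rw [h3, h4, h5] at hq1
    simpa using hq1
  have hz2 : ∀ x : K, ¬ (a2 = x * a1 ∧ b2 = x * b1 ∧ c2 = x * c1) := by
    rintro x ⟨h3, h4, h5⟩
    apply hg2' x
    rw [qq_smul, ← h3, ← h4, ← h5]
    exact hq2
  obtain ⟨n0, hn0⟩ : ∃ n0 : K, n0 = b1 * c2 - c1 * b2 := ⟨_, rfl⟩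
  obtain ⟨n1, hn1⟩ : ∃ n1 : K, n1 = c1 * a2 - a1 * c2 := ⟨_, rfl⟩
  obtain ⟨n2, hn2⟩ : ∃ n2 : K, n2 = a1 * b2 - b1 * a2 := ⟨_, rfl⟩
  have hn : ¬ (n0 = 0 ∧ n1 = 0 ∧ n2 = 0) := by
    rintro ⟨h3, h4, h5⟩
    rw [hn0] at h3
    rw [hn1] at h4
    rw [hn2] at h5
    by_cases ha : a1 = 0
    · by_cases hb : b1 = 0
      · have hc : c1 ≠ 0 := fun hc => hz1 ⟨ha, hb, hc⟩
        refine hz2 (c2 / c1) ⟨?_, ?_, ?_⟩
        · field_simp
          linear_combination h4
        · field_simp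
          linear_combination -h3
        · field_simp
      · refine hz2 (b2 / b1) ⟨?_, ?_, ?_⟩
        · field_simp
          linear_combination -h5
        · field_simp
        · field_simp
          linear_combination h3
    · refine hz2 (a2 / a1) ⟨?_, ?_, ?_⟩
      · field_simp
      · field_simp
        linear_combination h5
      · field_simp
        linear_combination -h4
  -- the functional
  have hν : ∀ a b c : K, n0 * a + n1 * b + n2 * c = 0 → qq a b c ∈ I0 := by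
    intro a b c h
    have comb : ∀ x y : K, C x * qq a1 b1 c1 + C y * qq a2 b2 c2 ∈ I0 := fun x y =>
      I0.add_mem (I0.mul_mem_left _ hQ1) (I0.mul_mem_left _ hQ2)
    by_cases h0 : n0 = 0
    · by_cases h1 : n1 = 0
      · have h3 : n2 ≠ 0 := fun h3 => hn ⟨h0, h1, h3⟩
        refine unit_mem I0 h3 ?_
        have h4 := comb (a * b2 - b * a2) (a1 * b - b1 * a)
        rw [qq_smul, qq_smul, qq_add] at h4
        rw [qq_smul]
        have e1 : n2 * a = (a * b2 - b * a2) * a1 + (a1 * b - b1 * a) * a2 := by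
          rw [hn2]; ring
        have e2 : n2 * b = (a * b2 - b * a2) * b1 + (a1 * b - b1 * a) * b2 := by
          rw [hn2]; ring
        have e3 : n2 * c = (a * b2 - b * a2) * c1 + (a1 * b - b1 * a) * c2 := by
          have h5 : n2 * c = - n0 * a - n1 * b := by linear_combination h
          rw [h5, hn0, hn1]; ring
        rw [e1, e2, e3]
        exact h4
      · refine unit_mem I0 h1 ?_
        have h4 := comb (c * a2 - a * c2) (c1 * a - a1 * c)
        rw [qq_smul, qq_smul, qq_add] at h4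
        rw [qq_smul]
        have e1 : n1 * a = (c * a2 - a * c2) * a1 + (c1 * a - a1 * c) * a2 := by
          rw [hn1]; ring
        have e2 : n1 * b = (c * a2 - a * c2) * b1 + (c1 * a - a1 * c) * b2 := by
          have h5 : n1 * b = - n0 * a - n2 * c := by linear_combination h
          rw [h5, hn0, hn2]; ring
        have e3 : n1 * c = (c * a2 - a * c2) * c1 + (c1 * a - a1 * c) * c2 := by
          rw [hn1]; ring
        rw [e1, e2, e3]
        exact h4
    · refine unit_mem I0 h0 ?_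
      have h4 := comb (b * c2 - c * b2) (b1 * c - c1 * b)
      rw [qq_smul, qq_smul, qq_add] at h4
      rw [qq_smul]
      have e1 : n0 * a = (b * c2 - c * b2) * a1 + (b1 * c - c1 * b) * a2 := by
        have h5 : n0 * a = - n1 * b - n2 * c := by linear_combination h
        rw [h5, hn1, hn2]; ring
      have e2 : n0 * b = (b * c2 - c * b2) * b1 + (b1 * c - c1 * b) * b2 := by
        rw [hn0]; ring
      have e3 : n0 * c = (b * c2 - c * b2) * c1 + (b1 * c - c1 * b) * c2 := by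
        rw [hn0]; ring
      rw [e1, e2, e3]
      exact h4
  -- the degenerate case
  by_cases hD : n1 * n1 - n0 * n2 = 0
  · by_cases h3 : n1 = 0 ∧ n0 = 0
    · refine ⟨1, 0, Or.inl one_ne_zero, ?_, ?_⟩
      · rw [qq_l0]
        exact hν _ _ _ (by rw [h3.1, h3.2]; ring)
      · rw [qq_l1]
        exact hν _ _ _ (by rw [h3.1]; ring)
    · refine ⟨n1, -n0, ?_, ?_, ?_⟩
      · by_contra hcon
        push Not at hcon
        exact h3 ⟨hcon.1, neg_eq_zero.1 hcon.2⟩
      · rw [qq_l0]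
        exact hν _ _ _ (by ring)
      · rw [qq_l1]
        exact hν _ _ _ (by linear_combination hD)
  -- all quadrics in the ideal
  by_cases hall : ∀ a b c : K, qq a b c ∈ I0
  · exact ⟨1, 0, Or.inl one_ne_zero, by rw [qq_l0]; exact hall _ _ _,
      by rw [qq_l1]; exact hall _ _ _⟩
  exfalso
  push Not at hall
  obtain ⟨a0, b0, c0, hQ0⟩ := hall
  have hν' : ∀ a b c : K, qq a b c ∈ I0 → n0 * a + n1 * b + n2 * c = 0 := by
    intro a b c h
    by_contra hne
    apply hQ0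
    refine unit_mem I0 hne ?_
    have h3 := hν ((n0 * a + n1 * b + n2 * c) * a0 + -(n0 * a0 + n1 * b0 + n2 * c0) * a)
      ((n0 * a + n1 * b + n2 * c) * b0 + -(n0 * a0 + n1 * b0 + n2 * c0) * b)
      ((n0 * a + n1 * b + n2 * c) * c0 + -(n0 * a0 + n1 * b0 + n2 * c0) * c) (by ring)
    rw [← qq_add, ← qq_smul, ← qq_smul] at h3
    have h4 := I0.mul_mem_left (C (-(n0 * a0 + n1 * b0 + n2 * c0))) h
    have h5 := I0.sub_mem h3 h4
    rwa [add_sub_cancel_right] at h5
  -- cubics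
  have hX0 : ∀ a b c : K, qq a b c * X 0 ∈ I0 := by
    intro a b c
    refine unit_mem I0 hD ?_
    have h3 := hν ((n1 * n1 - n0 * n2) * a + -(n0 * a + n1 * b + n2 * c) * 0)
      ((n1 * n1 - n0 * n2) * b + -(n0 * a + n1 * b + n2 * c) * n1)
      ((n1 * n1 - n0 * n2) * c + -(n0 * a + n1 * b + n2 * c) * (-n0)) (by ring)
    rw [← qq_add, ← qq_smul, ← qq_smul, ← qq_l1] at h3
    have h4 : qq n1 (-n0) 0 ∈ I0 := hν _ _ _ (by ring)
    rw [← qq_l0] at h4
    have h5 := I0.mul_mem_left (C (-(n0 * a + n1 * b + n2 * c)) * X 1) h4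
    have h6 := I0.mul_mem_right (X 0) h3
    have h7 := I0.sub_mem h6 h5
    have e : (C (n1 * n1 - n0 * n2) * qq a b c + C (-(n0 * a + n1 * b + n2 * c)) *
        ((C n1 * X 0 + C (-n0) * X 1) * X 1)) * X 0 - C (-(n0 * a + n1 * b + n2 * c)) * X 1 *
        ((C n1 * X 0 + C (-n0) * X 1) * X 0) = C (n1 * n1 - n0 * n2) * (qq a b c * X 0) := by
      ring
    rwa [e] at h7
  have hX1 : ∀ a b c : K, qq a b c * X 1 ∈ I0 := by
    intro a b c
    refine unit_mem I0 hD ?_
    have h3 := hν ((n1 * n1 - n0 * n2) * a + (n0 * a + n1 * b + n2 * c) * n2)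
      ((n1 * n1 - n0 * n2) * b + (n0 * a + n1 * b + n2 * c) * (-n1))
      ((n1 * n1 - n0 * n2) * c + (n0 * a + n1 * b + n2 * c) * 0) (by ring)
    rw [← qq_add, ← qq_smul, ← qq_smul, ← qq_l0] at h3
    have h4 : qq 0 n2 (-n1) ∈ I0 := hν _ _ _ (by ring)
    rw [← qq_l1] at h4
    have h5 := I0.mul_mem_left (C (n0 * a + n1 * b + n2 * c) * X 0) h4
    have h6 := I0.mul_mem_right (X 1) h3
    have h7 := I0.sub_mem h6 h5
    have e : (C (n1 * n1 - n0 * n2) * qq a b c + C (n0 * a + n1 * b + n2 * c) *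
        ((C n2 * X 0 + C (-n1) * X 1) * X 0)) * X 1 - C (n0 * a + n1 * b + n2 * c) * X 0 *
        ((C n2 * X 0 + C (-n1) * X 1) * X 1) = C (n1 * n1 - n0 * n2) * (qq a b c * X 1) := by
      ring
    rwa [e] at h7
  have hij : ∀ i j : Fin 2, ∃ a b c : K, (X i * X j : MvPolynomial (Fin 2) K) = qq a b c := by
    intro i j
    fin_cases i <;> fin_cases j
    · exact ⟨1, 0, 0, by simp [qq]⟩
    · exact ⟨0, 1, 0, by simp [qq]⟩
    · exact ⟨0, 1, 0, by simp [qq, mul_comm]⟩
    · exact ⟨0, 0, 1, by simp [qq]⟩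
  have hcub : mm K 2 ^ 3 ≤ I0 := by
    have e : mm K 2 ^ 3 = mm K 2 * mm K 2 * mm K 2 := by
      rw [pow_succ, pow_succ, pow_one]
    rw [e]
    unfold mm
    rw [Ideal.span_mul_span', Ideal.span_mul_span', Ideal.span_le]
    intro x hx
    obtain ⟨y, hy, z, ⟨k, rfl⟩, rfl⟩ := Set.mem_mul.1 hx
    obtain ⟨u, ⟨i, rfl⟩, v, ⟨j, rfl⟩, rfl⟩ := Set.mem_mul.1 hy
    obtain ⟨a, b, c, he⟩ := hij i j
    show X i * X j * X k ∈ I0
    rw [he]
    fin_cases k
    · exact hX0 a b c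
    · exact hX1 a b c
  -- the socle elements
  have hsoc : ∀ s : MvPolynomial (Fin 2) K, X 0 * s ∈ I0 → X 1 * s ∈ I0 →
      ∃ a b c : K, s - qq a b c ∈ I0 := by
    intro s h3 h4
    have hk : coeff 0 s = 0 := by
      have h5 := (mem_pow_idealOfVars_iff' (σ := Fin 2) (R := K) 2 _).1 (h2 h3)
        (Finsupp.single 0 1) (by rw [Finsupp.degree_single]; norm_num)
      have h6 := coeff_X_mul (R := K) (0 : Fin 2 →₀ ℕ) (0 : Fin 2) s
      rw [add_zero] at h6
      rw [← h6]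
      exact h5
    have hl := low s hk
    obtain ⟨u0, hu0⟩ : ∃ u0 : K, u0 = coeff (Finsupp.single 0 1) s := ⟨_, rfl⟩
    obtain ⟨u1, hu1⟩ : ∃ u1 : K, u1 = coeff (Finsupp.single 1 1) s := ⟨_, rfl⟩
    rw [← hu0, ← hu1] at hl
    have hX : ∀ i : Fin 2, (X i : MvPolynomial (Fin 2) K) ∈ mm K 2 := fun i =>
      Ideal.subset_span ⟨i, rfl⟩
    have q0 : qq u0 u1 0 ∈ I0 := by
      refine quad_mem I0 hI h3 ?_
      have e : X 0 * s - qq u0 u1 0 = (s - (C u0 * X 0 + C u1 * X 1)) * X 0 := by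
        rw [← qq_l0]
        ring
      rw [e, pow_succ]
      exact Ideal.mul_mem_mul hl (hX 0)
    have q1 : qq 0 u0 u1 ∈ I0 := by
      refine quad_mem I0 hI h4 ?_
      have e : X 1 * s - qq 0 u0 u1 = (s - (C u0 * X 0 + C u1 * X 1)) * X 1 := by
        rw [← qq_l1]
        ring
      rw [e, pow_succ]
      exact Ideal.mul_mem_mul hl (hX 1)
    have e0 := hν' _ _ _ q0
    have e1 := hν' _ _ _ q1
    have z0 : u0 = 0 := by
      have : (n1 * n1 - n0 * n2) * u0 = 0 := by linear_combination n1 * e1 - n2 * e0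
      exact (mul_eq_zero.1 this).resolve_left hD
    have z1 : u1 = 0 := by
      have : (n1 * n1 - n0 * n2) * u1 = 0 := by linear_combination n1 * e0 - n0 * e1
      exact (mul_eq_zero.1 this).resolve_left hD
    rw [z0, z1, C_0, zero_mul, zero_mul, add_zero, sub_zero] at hl
    obtain ⟨a, b, c, h5⟩ := quad s hl
    exact ⟨a, b, c, hcub h5⟩
  obtain ⟨sa, sb, sc, hsq⟩ := hsoc s hs hs'
  obtain ⟨ta, tb, tc, htq⟩ := hsoc t ht ht'
  obtain ⟨σ, hσ⟩ : ∃ σ : K, σ = n0 * sa + n1 * sb + n2 * sc := ⟨_, rfl⟩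
  obtain ⟨τ, hτ⟩ : ∃ τ : K, τ = n0 * ta + n1 * tb + n2 * tc := ⟨_, rfl⟩
  have hcomb : ∀ x y : K, x * σ + y * τ = 0 → C x * s + C y * t ∈ I0 := by
    intro x y h
    have h3 := hν (x * sa + y * ta) (x * sb + y * tb) (x * sc + y * tc) (by
      rw [hσ, hτ] at h
      linear_combination h)
    rw [← qq_add, ← qq_smul, ← qq_smul] at h3
    have h4 := I0.mul_mem_left (C x) hsq
    have h5 := I0.mul_mem_left (C y) htq
    have h6 := I0.add_mem (I0.add_mem h4 h5) h3
    have e : C x * (s - qq sa sb sc) + C y * (t - qq ta tb tc) +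
        (C x * qq sa sb sc + C y * qq ta tb tc) = C x * s + C y * t := by ring
    rwa [e] at h6
  obtain ⟨h3, h4⟩ := hind τ (-σ) (hcomb _ _ (by ring))
  have h5 : σ = 0 := neg_eq_zero.1 h4
  obtain ⟨h6, -⟩ := hind 1 0 (hcomb _ _ (by rw [h5]; ring))
  exact one_ne_zero h6

end Pool.Agent.H66.Rig.Two
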