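import Mathlib
import Pool.Agent.H66.Rig.TwoE

/-!
# Extension of linear maps from polynomials in two variables (MP_562323_ag)
-/

set_option autoImplicit false

namespace Pool.Agent.H66.Rig.Two

open Module MvPolynomial

variable {K : Type*} [Field K] {n : ℕ}

/-- set the two variables equal to one -/
noncomputable def rest (K : Type*) [Field K] (i j : Fin n) :
    MvPolynomial (Fin n) K →ₐ[K] MvPolynomial (Fin n) K :=
  aeval fun k => if k = i ∨ k = j then 1 else X k

/-- set the other variables equal to one -/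
noncomputable def rr (K : Type*) [Field K] (i j : Fin n) :
    MvPolynomial (Fin n) K →ₐ[K] MvPolynomial (Fin 2) K :=
  aeval fun k => if k = i then X 0 else if k = j then X 1 else 1

theorem mono_smul (d : Fin n →₀ ℕ) (c : K) : (monomial d c : MvPolynomial (Fin n) K) =
    c • monomial d 1 := by
  rw [smul_monomial, smul_eq_mul, mul_one]

theorem X_mul_mono (k : Fin n) (d : Fin n →₀ ℕ) : (X k * monomial d 1 : MvPolynomial (Fin n) K) =
    monomial (Finsupp.single k 1 + d) 1 := by
  rw [X, monomial_mul, one_mul]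

variable {Q : Type*} [CommRing Q] [Algebra K Q]

/-- the extension -/
noncomputable def Ext (i j : Fin n) (μ : MvPolynomial (Fin n) K →ₐ[K] Q)
    (γ : MvPolynomial (Fin 2) K →ₗ[K] Q) : MvPolynomial (Fin n) K →ₗ[K] Q :=
  (basisMonomials (Fin n) K).constr K fun d =>
    μ (rest K i j (monomial d 1)) * γ (rr K i j (monomial d 1))

variable (i j : Fin n) (μ : MvPolynomial (Fin n) K →ₐ[K] Q) (γ : MvPolynomial (Fin 2) K →ₗ[K] Q)

theorem Ext_mono (d : Fin n →₀ ℕ) : Ext i j μ γ (monomial d 1) =
    μ (rest K i j (monomial d 1)) * γ (rr K i j (monomial d 1)) := by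
  have h := (basisMonomials (Fin n) K).constr_basis K
    (fun d => μ (rest K i j (monomial d 1)) * γ (rr K i j (monomial d 1))) d
  rwa [coe_basisMonomials] at h

theorem Ext_L (hij : i ≠ j) (f : MvPolynomial (Fin 2) K) : ∀ d : Fin n →₀ ℕ,
    Ext i j μ γ (sg K i j f * monomial d 1) =
      μ (rest K i j (monomial d 1)) * γ (f * rr K i j (monomial d 1)) := by
  have r1 : rest K i j (X i) = 1 := by rw [rest, aeval_X, if_pos (Or.inl rfl)]
  have r2 : rest K i j (X j) = 1 := by rw [rest, aeval_X, if_pos (Or.inr rfl)]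
  have s1 : rr K i j (X i) = X 0 := by rw [rr, aeval_X, if_pos rfl]
  have s2 : rr K i j (X j) = X 1 := by rw [rr, aeval_X, if_neg hij.symm, if_pos rfl]
  induction f using MvPolynomial.induction_on with
  | C c =>
    intro d
    have h1 : sg K i j (C c) = C c := AlgHom.commutes _ c
    rw [h1, ← MvPolynomial.smul_eq_C_mul, ← MvPolynomial.smul_eq_C_mul, map_smul, map_smul, Ext_mono,
      mul_smul_comm]
  | add p q hp hq =>
    intro d
    rw [map_add, add_mul, map_add, hp, hq, add_mul, map_add, mul_add]
  | mul_X p a hp =>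
    intro d
    have key : ∀ k : Fin n, ∀ a : Fin 2, sg K i j (X a) = X k → rest K i j (X k) = 1 →
        rr K i j (X k) = X a → Ext i j μ γ (sg K i j (p * X a) * monomial d 1) =
      μ (rest K i j (monomial d 1)) * γ (p * X a * rr K i j (monomial d 1)) := by
      intro k a e1 e2 e3
      rw [map_mul (sg K i j), e1, mul_assoc, X_mul_mono, hp, ← X_mul_mono, map_mul (rest K i j),
        map_mul (rr K i j), e2, e3, one_mul, mul_assoc]
    fin_cases a
    · exact key i 0 (sg_X0 i j) r1 s1
    · exact key j 1 (sg_X1 i j) r2 s2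

theorem Ext_X (k : Fin n) (hki : k ≠ i) (hkj : k ≠ j) (f : MvPolynomial (Fin n) K) :
    Ext i j μ γ (X k * f) = μ (X k) * Ext i j μ γ f := by
  have r1 : rest K i j (X k) = X k := by
    rw [rest, aeval_X, if_neg]
    rintro (h | h)
    · exact hki h
    · exact hkj h
  have s1 : rr K i j (X k) = 1 := by rw [rr, aeval_X, if_neg hki, if_neg hkj]
  induction f using MvPolynomial.induction_on' with
  | monomial d c =>
    rw [mono_smul, mul_smul_comm, map_smul, map_smul, X_mul_mono, Ext_mono, Ext_mono, ← X_mul_mono,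
      map_mul, map_mul, map_mul, r1, s1, one_mul, mul_smul_comm, mul_assoc]
  | add p q hp hq => rw [mul_add, map_add, hp, hq, map_add, mul_add]

theorem Ext_main (hij : i ≠ j) (γ' : MvPolynomial (Fin 2) K →ₗ[K] Q)
    (h : ∀ r, μ (X i) * γ' r + γ (X 1 * r) = μ (X j) * γ r + γ' (X 0 * r))
    (f : MvPolynomial (Fin n) K) :
    μ (X i) * Ext i j μ γ' f + Ext i j μ γ (X j * f) =
      μ (X j) * Ext i j μ γ f + Ext i j μ γ' (X i * f) := by
  induction f using MvPolynomial.induction_on' with
  | monomial d c =>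
    have e1 := Ext_L i j μ γ hij (X 1) d
    have e2 := Ext_L i j μ γ' hij (X 0) d
    rw [sg_X1] at e1
    rw [sg_X0] at e2
    rw [mono_smul, mul_smul_comm, mul_smul_comm, map_smul, map_smul, map_smul, map_smul, e1, e2,
      Ext_mono, Ext_mono, mul_smul_comm, mul_smul_comm, ← smul_add, ← smul_add]
    congr 1
    linear_combination μ (rest K i j (monomial d 1)) * h (rr K i j (monomial d 1))
  | add p q hp hq =>
    rw [mul_add, mul_add, map_add, map_add, map_add, map_add, mul_add, mul_add]
    linear_combination hp + hq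

theorem Ext_sg (hij : i ≠ j) (f : MvPolynomial (Fin 2) K) : Ext i j μ γ (sg K i j f) = γ f := by
  have h := Ext_L i j μ γ hij f 0
  have h1 : (monomial 0 1 : MvPolynomial (Fin n) K) = 1 := rfl
  rwa [h1, mul_one, map_one, map_one, one_mul, map_one, mul_one] at h

theorem sg_wh' (w : Fin n → ℕ) (hi : w i = 0) (hj : w j = 0) (f : MvPolynomial (Fin 2) K) :
    IsWeightedHomogeneous w (sg K i j f) 0 := by
  induction f using MvPolynomial.induction_on with
  | C c =>
    have h1 : sg K i j (C c) = C c := AlgHom.commutes _ c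
    rw [h1]
    exact isWeightedHomogeneous_C w c
  | add p q hp hq =>
    rw [map_add]
    exact hp.add hq
  | mul_X p a hp =>
    rw [map_mul]
    fin_cases a
    · show IsWeightedHomogeneous w (sg K i j p * sg K i j (X 0)) 0
      rw [sg_X0]
      have := hp.mul (isWeightedHomogeneous_X K w i)
      rwa [hi] at this
    · show IsWeightedHomogeneous w (sg K i j p * sg K i j (X 1)) 0
      rw [sg_X1]
      have := hp.mul (isWeightedHomogeneous_X K w j)
      rwa [hj] at this

theorem exists_sg (p : MvPolynomial (Fin n) K) (hp : p ∈ supported K ({i, j} : Set (Fin n))) :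
    ∃ f, sg K i j f = p := by
  have h : supported K ({i, j} : Set (Fin n)) ≤ (sg K i j).range := by
    rw [supported, Algebra.adjoin_le_iff]
    rintro _ ⟨k, hk, rfl⟩
    rcases hk with rfl | rfl
    · exact ⟨X 0, sg_X0 _ j⟩
    · exact ⟨X 1, sg_X1 i _⟩
  exact h hp

theorem Ext_supp (s : Set (Fin n)) (hs : ∀ k ∈ s, k ≠ i ∧ k ≠ j) (h : MvPolynomial (Fin n) K)
    (hh : h ∈ supported K s) : ∀ c : MvPolynomial (Fin n) K,
    Ext i j μ γ (h * c) = μ h * Ext i j μ γ c := by
  rw [supported] at hh
  induction hh using Algebra.adjoin_induction with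
  | mem x hx =>
    obtain ⟨k, hk, rfl⟩ := hx
    intro c
    exact Ext_X i j μ γ k (hs k hk).1 (hs k hk).2 c
  | algebraMap r =>
    intro c
    rw [← Algebra.smul_def, map_smul, AlgHom.commutes, ← Algebra.smul_def]
  | add x y _ _ hx hy =>
    intro c
    rw [add_mul, map_add, hx, hy, map_add, add_mul]
  | mul x y _ _ hx hy =>
    intro c
    rw [mul_assoc, hx, hy, map_mul, mul_assoc]

end Pool.Agent.H66.Rig.Two
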