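import Mathlib
import Pool.Agent.H66.Rig.TwoT
import Pool.Agent.H66.Rig.TwoL

/-!
# Nonnegatively graded algebras with a degree zero part in two variables: the reduction (MP_562323_ag)
-/

set_option autoImplicit false

namespace Pool.Agent.H66.Rig.Two

open Module MvPolynomial

universe u

/-- If every nonzero module of finite length over `B = K[x, y] / I0` has a cocycle as in `Good`, and the
degree zero part of `K[x_1, ..., x_n] / I` is a tensor product with factor `B`, the algebra
`K[x_1, ..., x_n] / I` is not rigid. -/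
theorem twoT {K : Type u} [Field K] {n : ℕ} (w : Fin n → ℕ) (I : Ideal (MvPolynomial (Fin n) K))
    (hI1 : I ≠ ⊤)
    (hI : ∀ f ∈ I, ∀ k, weightedHomogeneousComponent w k f ∈ I)
    (hN : ∃ N : ℕ, mm K n ^ N ≤ I)
    (i j : Fin n) (hij : i ≠ j) (hwi : w i = 0) (hwj : w j = 0)
    (hT : ∀ g ∈ I, g ∈ supported K {k | w k = 0} → g ∈ Ideal.span
      ({p | p ∈ I ∧ p ∈ supported K ({i, j} : Set (Fin n))} ∪
        {p | p ∈ I ∧ p ∈ supported K {k | w k = 0 ∧ k ≠ i ∧ k ≠ j}}))
    (habs : ∀ (M : Type u) [AddCommGroup M] [Module K M] [FiniteDimensional K M] [Nontrivial M]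
      (A : MvPolynomial (Fin 2) K →ₐ[K] Module.End K M),
      (∀ g ∈ I.comap (sg K i j), A g = 0) → ∀ N : ℕ, mm K 2 ^ N ≤ I.comap (sg K i j) →
      FiniteDimensional K (MvPolynomial (Fin 2) K ⧸ I.comap (sg K i j)) →
      Good A (I.comap (sg K i j))) : NotRigid I := by
  classical
  obtain ⟨N, hN⟩ := hN
  have hone : (1 : MvPolynomial (Fin n) K) ∉ I := fun h => hI1 ((Ideal.eq_top_iff_one I).2 h)
  -- the top weight
  have hbig : ∀ k, (∑ i, w i) * N < k → ∀ g : MvPolynomial (Fin n) K,
      IsWeightedHomogeneous w g k → g ∈ I := by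
    intro k hk g hg
    apply hN
    apply (mem_pow_idealOfVars_iff (σ := Fin n) (R := K) N g).2
    intro d hd
    rw [MvPolynomial.mem_support_iff] at hd
    have h1 := hg hd
    have h2 := Pool.Agent.H12.Rig.weight_le w d
    by_contra hcon
    have h3 : (∑ i, w i) * d.degree ≤ (∑ i, w i) * N := Nat.mul_le_mul_left _ (by omega)
    omega
  obtain ⟨e, ⟨g0, hg0, hg0I⟩, hemax⟩ : ∃ e, (∃ g : MvPolynomial (Fin n) K,
      IsWeightedHomogeneous w g e ∧ g ∉ I) ∧
      ∀ k, e < k → ∀ g : MvPolynomial (Fin n) K, IsWeightedHomogeneous w g k → g ∈ I := by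
    let P : ℕ → Prop := fun k => ∃ g : MvPolynomial (Fin n) K, IsWeightedHomogeneous w g k ∧ g ∉ I
    have hP0 : P 0 := ⟨1, isWeightedHomogeneous_one K w, hone⟩
    refine ⟨Nat.findGreatest P ((∑ i, w i) * N), Nat.findGreatest_spec (P := P) (Nat.zero_le _) hP0,
      ?_⟩
    intro k hk g hg
    by_contra hgI
    by_cases hkt : k ≤ (∑ i, w i) * N
    · exact Nat.findGreatest_is_greatest hk hkt ⟨g, hg, hgI⟩
    · exact hgI (hbig k (by omega) g hg)
  -- multiplication on the top weight
  have htop : ∀ (p u : MvPolynomial (Fin n) K), IsWeightedHomogeneous w u e →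
      p * u - weightedHomogeneousComponent w 0 p * u ∈ I := by
    intro p u hu
    induction p using MvPolynomial.induction_on' with
    | monomial d c =>
      have h1 : IsWeightedHomogeneous w (monomial d c : MvPolynomial (Fin n) K)
          (Finsupp.weight w d) := isWeightedHomogeneous_monomial w d c rfl
      by_cases hd : Finsupp.weight w d = 0
      · rw [hd] at h1
        rw [weightedHomogeneousComponent_eq_self h1, sub_self]
        exact I.zero_mem
      · rw [weightedHomogeneousComponent_of_mem h1, if_neg (fun h => hd h.symm), zero_mul, sub_zero]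
        exact hemax _ (by omega) _ (h1.mul hu)
    | add p q hp hq =>
      have h1 := I.add_mem hp hq
      have h2 : (p + q) * u - weightedHomogeneousComponent w 0 (p + q) * u =
          (p * u - weightedHomogeneousComponent w 0 p * u) +
          (q * u - weightedHomogeneousComponent w 0 q * u) := by
        rw [map_add]
        ring
      rwa [h2]
  -- the top graded piece
  let M : Submodule (MvPolynomial (Fin n) K) (MvPolynomial (Fin n) K ⧸ I) :=
    { carrier := {u | ∃ g, IsWeightedHomogeneous w g e ∧ Ideal.Quotient.mk I g = u}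
      add_mem' := by
        rintro _ _ ⟨g, hg, rfl⟩ ⟨h, hh, rfl⟩
        exact ⟨g + h, hg.add hh, map_add _ _ _⟩
      zero_mem' := ⟨0, isWeightedHomogeneous_zero K w e, map_zero _⟩
      smul_mem' := by
        rintro c _ ⟨g, hg, rfl⟩
        refine ⟨weightedHomogeneousComponent w 0 c * g, ?_, ?_⟩
        · have := (weightedHomogeneousComponent_isWeightedHomogeneous (w := w) 0 c).mul hg
          rwa [zero_add] at this
        · show _ = Ideal.Quotient.mk I (c * g)
          exact ((Ideal.Quotient.mk_eq_mk_iff_sub_mem _ _).2 (htop c g hg)).symm }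
  have hMmem : ∀ u : MvPolynomial (Fin n) K ⧸ I, u ∈ M ↔
      ∃ g, IsWeightedHomogeneous w g e ∧ Ideal.Quotient.mk I g = u := fun u => Iff.rfl
  have hsm : ∀ (c : MvPolynomial (Fin n) K) (u : MvPolynomial (Fin n) K ⧸ I),
      c • u = Ideal.Quotient.mk I c * u := by
    intro c u
    obtain ⟨g, rfl⟩ := Ideal.Quotient.mk_surjective u
    rw [← map_mul]
    rfl
  have hXM : ∀ k, w k ≠ 0 → ∀ u ∈ M, Ideal.Quotient.mk I (X k) * u = 0 := by
    rintro k hk _ ⟨g, hg, rfl⟩
    rw [← map_mul, Ideal.Quotient.eq_zero_iff_mem]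
    exact hemax _ (by omega) _ ((isWeightedHomogeneous_X K w k).mul hg)
  have hfinQ : Module.Finite K (MvPolynomial (Fin n) K ⧸ I) := finite_quot I N hN
  have hfinM : Module.Finite K M :=
    Module.Finite.of_injective (M.subtype.restrictScalars K) Subtype.coe_injective
  have hntM : Nontrivial M := by
    refine ⟨⟨⟨Ideal.Quotient.mk I g0, g0, hg0, rfl⟩, 0, fun h => hg0I ?_⟩⟩
    exact Ideal.Quotient.eq_zero_iff_mem.1 (congrArg Subtype.val h)
  set I0 : Ideal (MvPolynomial (Fin 2) K) := I.comap (sg K i j) with hI0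
  have hN0 : mm K 2 ^ N ≤ I0 := by
    have h1 : mm K 2 ≤ (mm K n).comap (sg K i j) := by
      rw [mm, Ideal.span_le]
      rintro _ ⟨a, rfl⟩
      fin_cases a
      · show sg K i j (X 0) ∈ mm K n
        rw [sg_X0]
        exact X_mem i
      · show sg K i j (X 1) ∈ mm K n
        rw [sg_X1]
        exact X_mem j
    exact (Ideal.pow_right_mono h1 N).trans ((Ideal.le_comap_pow _ N).trans (Ideal.comap_mono hN))
  have hfinB : Module.Finite K (MvPolynomial (Fin 2) K ⧸ I0) := finite_quot I0 N hN0
  let A : MvPolynomial (Fin 2) K →ₐ[K] Module.End K M := (Algebra.lsmul K K M).comp (sg K i j)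
  have hAc : ∀ (f : MvPolynomial (Fin 2) K) (u : M),
      ((A f u : M) : MvPolynomial (Fin n) K ⧸ I) = Ideal.Quotient.mk I (sg K i j f) * u := by
    intro f u
    rw [← hsm]
    rfl
  have hA : ∀ g ∈ I0, A g = 0 := by
    intro g hg
    refine LinearMap.ext fun u => Subtype.ext ?_
    have hg' : Ideal.Quotient.mk I (sg K i j g) = 0 := Ideal.Quotient.eq_zero_iff_mem.2 hg
    rw [hAc, hg', zero_mul]
    rfl
  obtain ⟨α, β, hab, hno⟩ := habs M A hA N hN0 hfinB
  -- the cocycle
  let γ : ((MvPolynomial (Fin 2) K ⧸ I0) →ₗ[K] M) → MvPolynomial (Fin 2) K →ₗ[K]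
      (MvPolynomial (Fin n) K ⧸ I) := fun α =>
    (M.subtype.restrictScalars K) ∘ₗ α ∘ₗ (Ideal.Quotient.mkₐ K I0).toLinearMap
  have hγ : ∀ α f, γ α f = (α (Ideal.Quotient.mk I0 f) : M) := fun _ _ => rfl
  let E : ((MvPolynomial (Fin 2) K ⧸ I0) →ₗ[K] M) → MvPolynomial (Fin n) K →ₗ[K]
      (MvPolynomial (Fin n) K ⧸ I) := fun α => Ext i j (Ideal.Quotient.mkₐ K I) (γ α)
  have hEM : ∀ α g, E α g ∈ M := by
    intro α g
    induction g using MvPolynomial.induction_on' with
    | monomial d c =>
      rw [mono_smul, map_smul]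
      refine Submodule.smul_of_tower_mem M c ?_
      show Ext i j (Ideal.Quotient.mkₐ K I) (γ α) (monomial d 1) ∈ M
      rw [Ext_mono]
      show Ideal.Quotient.mk I (rest K i j (monomial d 1)) * _ ∈ M
      rw [hγ, ← hsm]
      exact M.smul_mem _ (α _).2
    | add p q hp hq =>
      rw [map_add]
      exact M.add_mem hp hq
  have hEX : ∀ α k, k ≠ i → k ≠ j → ∀ f, E α (X k * f) = Ideal.Quotient.mk I (X k) * E α f :=
    fun α k hki hkj f => Ext_X i j _ (γ α) k hki hkj f
  -- the positive weights
  have hEpos : ∀ α (d : Fin n →₀ ℕ), Finsupp.weight w d ≠ 0 → E α (monomial d 1) = 0 := by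
    intro α d hd
    obtain ⟨k, hk, hdk⟩ : ∃ k, w k ≠ 0 ∧ d k ≠ 0 := by
      by_contra hcon
      push Not at hcon
      apply hd
      rw [Finsupp.weight_apply, Finsupp.sum]
      refine Finset.sum_eq_zero fun k _ => ?_
      by_cases h : w k = 0
      · rw [h, smul_zero]
      · rw [hcon k h, zero_smul]
    have h1 : d = Finsupp.single k 1 + (d - Finsupp.single k 1) := by
      rw [add_tsub_cancel_of_le]
      rw [Finsupp.single_le_iff]
      omega
    have hki : k ≠ i := fun h => hk (h ▸ hwi)
    have hkj : k ≠ j := fun h => hk (h ▸ hwj)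
    rw [h1, ← X_mul_mono, hEX α k hki hkj]
    exact hXM k hk _ (hEM α _)
  have hE0 : ∀ α g, E α g = E α (weightedHomogeneousComponent w 0 g) := by
    intro α g
    induction g using MvPolynomial.induction_on' with
    | monomial d c =>
      by_cases hd : Finsupp.weight w d = 0
      · have h1 : IsWeightedHomogeneous w (monomial d c : MvPolynomial (Fin n) K) 0 :=
          isWeightedHomogeneous_monomial w d c hd
        rw [weightedHomogeneousComponent_eq_self h1]
      · rw [weightedHomogeneousComponent_of_mem (isWeightedHomogeneous_monomial w d c rfl),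
          if_neg (fun h => hd h.symm), map_zero, mono_smul, map_smul, hEpos α d hd, smul_zero]
    | add p q hp hq => rw [map_add, map_add, map_add, hp, hq]
  have hEI : ∀ α, ∀ g ∈ I, E α g = 0 := by
    intro α g hg
    rw [hE0]
    have h1 := hT _ (hI g hg 0) ((supp_iff w _).2 (weightedHomogeneousComponent_isWeightedHomogeneous 0 g))
    have h2 : ∀ p ∈ Ideal.span
      ({p | p ∈ I ∧ p ∈ supported K ({i, j} : Set (Fin n))} ∪
        {p | p ∈ I ∧ p ∈ supported K {k | w k = 0 ∧ k ≠ i ∧ k ≠ j}}), ∀ c, E α (p * c) = 0 := by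
      intro p hp
      refine Submodule.span_induction ?_ ?_ ?_ ?_ hp
      · rintro x (⟨hx, hx'⟩ | ⟨hx, hx'⟩) c
        · obtain ⟨f, rfl⟩ := exists_sg i j x hx'
          induction c using MvPolynomial.induction_on' with
          | monomial d c =>
            rw [mono_smul, mul_smul_comm, map_smul]
            have h3 := Ext_L i j (Ideal.Quotient.mkₐ K I) (γ α) hij f d
            have h4 : Ideal.Quotient.mk I0 (f * rr K i j (monomial d 1)) = 0 :=
              Ideal.Quotient.eq_zero_iff_mem.2 (I0.mul_mem_right _ hx)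
            rw [hγ, h4, map_zero] at h3
            have h5 : E α (sg K i j f * monomial d 1) = 0 := h3.trans (mul_zero _)
            rw [h5, smul_zero]
          | add p q hp hq => rw [mul_add, map_add, hp, hq, add_zero]
        · have h3 := Ext_supp i j (Ideal.Quotient.mkₐ K I) (γ α)
            {k | w k = 0 ∧ k ≠ i ∧ k ≠ j} (fun k hk => hk.2) x hx' c
          have h4 : Ideal.Quotient.mkₐ K I x = 0 := Ideal.Quotient.eq_zero_iff_mem.2 hx
          rw [h4, zero_mul] at h3
          exact h3
      · intro c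
        rw [zero_mul, map_zero]
      · intro x y _ _ hx hy c
        rw [add_mul, map_add, hx, hy, add_zero]
      · intro a x _ hx c
        rw [smul_eq_mul, mul_comm a x, mul_assoc, hx]
    have h3 := h2 _ h1 1
    rwa [mul_one] at h3
  let Dt : Fin n → MvPolynomial (Fin n) K →ₗ[K] MvPolynomial (Fin n) K ⧸ I := fun a =>
    if a = i then E α else if a = j then E β else 0
  have hDi : Dt i = E α := if_pos rfl
  have hDj : Dt j = E β := by
    show (if j = i then E α else if j = j then E β else 0) = _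
    rw [if_neg hij.symm, if_pos rfl]
  have hDk : ∀ k, k ≠ i → k ≠ j → Dt k = 0 := by
    intro k hki hkj
    show (if k = i then E α else if k = j then E β else 0) = _
    rw [if_neg hki, if_neg hkj]
  have hmain : ∀ g, Ideal.Quotient.mk I (X i) * Dt j g + Dt i (X j * g) =
      Ideal.Quotient.mk I (X j) * Dt i g + Dt j (X i * g) := by
    intro g
    rw [hDi, hDj]
    refine Ext_main i j (Ideal.Quotient.mkₐ K I) (γ α) hij (γ β) ?_ g
    intro r
    have h3 := congrArg Subtype.val (hab r)
    rw [Submodule.coe_add, Submodule.coe_add, hAc, hAc, sg_X0, sg_X1] at h3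
    exact h3
  have hDX : ∀ a k, k ≠ i → k ≠ j → ∀ f, Dt a (X k * f) = Ideal.Quotient.mk I (X k) * Dt a f := by
    intro a k hki hkj f
    by_cases hai : a = i
    · rw [hai, hDi]
      exact hEX α k hki hkj f
    · by_cases haj : a = j
      · rw [haj, hDj]
        exact hEX β k hki hkj f
      · rw [hDk a hai haj, LinearMap.zero_apply, LinearMap.zero_apply, mul_zero]
  have hc : ∀ a b f, Ideal.Quotient.mk I (X a) * Dt b f + Dt a (X b * f) =
      Ideal.Quotient.mk I (X b) * Dt a f + Dt b (X a * f) := by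
    intro a b g
    by_cases ha : a ≠ i ∧ a ≠ j
    · rw [hDX b a ha.1 ha.2, hDk a ha.1 ha.2, LinearMap.zero_apply, LinearMap.zero_apply, mul_zero,
        add_zero, zero_add]
    · by_cases hb : b ≠ i ∧ b ≠ j
      · rw [hDX a b hb.1 hb.2, hDk b hb.1 hb.2, LinearMap.zero_apply, LinearMap.zero_apply, mul_zero,
          add_zero, zero_add]
      · have ha' : a = i ∨ a = j := by
          by_contra h
          push Not at h
          exact ha h
        have hb' : b = i ∨ b = j := by
          by_contra h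
          push Not at h
          exact hb h
        rcases ha' with rfl | rfl <;> rcases hb' with rfl | rfl
        · rfl
        · exact hmain g
        · exact (hmain g).symm
        · rfl
  obtain ⟨Ψ, hΨ1, hΨ⟩ := Pool.Agent.H12.Rig.exists_Psi I Dt hc
  have hDtM : ∀ a g, Dt a g ∈ M := by
    intro a g
    by_cases hai : a = i
    · rw [hai, hDi]
      exact hEM α g
    · by_cases haj : a = j
      · rw [haj, hDj]
        exact hEM β g
      · rw [hDk a hai haj]
        exact M.zero_mem
  have hDtI : ∀ a, ∀ g ∈ I, Dt a g = 0 := by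
    intro a g hg
    by_cases hai : a = i
    · rw [hai, hDi]
      exact hEI α g hg
    · by_cases haj : a = j
      · rw [haj, hDj]
        exact hEI β g hg
      · rw [hDk a hai haj]
        rfl
  have hΨM : ∀ g, Ψ g ∈ M := by
    intro g
    induction g using MvPolynomial.induction_on with
    | C c =>
      have h3 : (C c : MvPolynomial (Fin n) K) = c • 1 := by
        rw [MvPolynomial.smul_eq_C_mul, mul_one]
      rw [h3, map_smul, hΨ1, smul_zero]
      exact M.zero_mem
    | add p q hp hq =>
      rw [map_add]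
      exact M.add_mem hp hq
    | mul_X p a hp =>
      rw [mul_comm, hΨ, ← hsm]
      exact M.add_mem (M.smul_mem _ hp) (hDtM a p)
  have hΨI : ∀ (p g : MvPolynomial (Fin n) K), g ∈ I → Ψ (p * g) = Ideal.Quotient.mk I p * Ψ g := by
    intro p
    induction p using MvPolynomial.induction_on with
    | C c =>
      intro g _
      rw [← MvPolynomial.smul_eq_C_mul, map_smul, ← hsm]
      rw [MvPolynomial.C_eq_smul_one, smul_assoc, one_smul]
    | add p q hp hq =>
      intro g hg
      rw [add_mul, map_add, map_add, add_mul, hp g hg, hq g hg]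
    | mul_X p a hp =>
      intro g hg
      rw [mul_assoc, hp _ (I.mul_mem_left _ hg), hΨ, hDtI a g hg, add_zero, map_mul, mul_assoc]
  let φ : I →ₗ[MvPolynomial (Fin n) K] (MvPolynomial (Fin n) K ⧸ I) :=
    { toFun := fun g => Ψ g
      map_add' := fun g h => map_add Ψ _ _
      map_smul' := fun c g => by
        rw [RingHom.id_apply, hsm]
        exact hΨI c g g.2 }
  refine ⟨φ, ?_⟩
  rintro ⟨a, ha⟩
  choose b hb using fun k => Ideal.Quotient.mk_surjective (a k)
  apply hno
  let u : M := ⟨Ideal.Quotient.mk I (weightedHomogeneousComponent w e (b i)),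
    weightedHomogeneousComponent w e (b i), weightedHomogeneousComponent_isWeightedHomogeneous e _,
    rfl⟩
  let v : M := ⟨Ideal.Quotient.mk I (weightedHomogeneousComponent w e (b j)),
    weightedHomogeneousComponent w e (b j), weightedHomogeneousComponent_isWeightedHomogeneous e _,
    rfl⟩
  have hkey : ∀ g ∈ I0, Ψ (sg K i j g) =
      Ideal.Quotient.mk I (sg K i j (pderiv 0 g)) * (u : MvPolynomial (Fin n) K ⧸ I) +
      Ideal.Quotient.mk I (sg K i j (pderiv 1 g)) * (v : MvPolynomial (Fin n) K ⧸ I) := by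
    intro g hg
    obtain ⟨pd1, pd2, pd3⟩ := pd_sg (K := K) i j hij g
    have h3 : Ψ (sg K i j g) = ∑ k, Ideal.Quotient.mk I (pderiv k (sg K i j g)) * a k :=
      ha ⟨sg K i j g, hg⟩
    rw [Finset.sum_eq_add i j hij (fun k _ hk => by rw [pd3 k hk.1 hk.2, map_zero, zero_mul])
      (fun h => absurd (Finset.mem_univ _) h) (fun h => absurd (Finset.mem_univ _) h),
      pd1, pd2, ← hb i, ← hb j, ← map_mul, ← map_mul, ← map_add] at h3
    obtain ⟨h, hh, hhe⟩ := (hMmem _).1 (hΨM (sg K i j g))
    rw [← hhe, Ideal.Quotient.mk_eq_mk_iff_sub_mem] at h3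
    have h4 := hI _ h3 e
    rw [map_sub, map_add, weightedHomogeneousComponent_eq_self hh,
      Pool.Agent.H12.Rig.wcomp_mul (sg_wh' i j w hwi hwj _) rfl,
      Pool.Agent.H12.Rig.wcomp_mul (sg_wh' i j w hwi hwj _) rfl] at h4
    rw [← hhe]
    show Ideal.Quotient.mk I h = Ideal.Quotient.mk I (sg K i j (pderiv 0 g)) *
      Ideal.Quotient.mk I (weightedHomogeneousComponent w e (b i)) +
      Ideal.Quotient.mk I (sg K i j (pderiv 1 g)) *
      Ideal.Quotient.mk I (weightedHomogeneousComponent w e (b j))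
    rw [← map_mul, ← map_mul, ← map_add, Ideal.Quotient.mk_eq_mk_iff_sub_mem]
    exact h4
  let Ψ0 : MvPolynomial (Fin 2) K →ₗ[K] M :=
    { toFun := fun g => ⟨Ψ (sg K i j g), hΨM _⟩
      map_add' := fun g h => Subtype.ext (by
        show Ψ (sg K i j (g + h)) = Ψ (sg K i j g) + Ψ (sg K i j h)
        rw [map_add, map_add])
      map_smul' := fun c g => Subtype.ext (by
        show Ψ (sg K i j (c • g)) = c • Ψ (sg K i j g)
        rw [map_smul, map_smul]) }
  let D : MvPolynomial (Fin 2) K →ₗ[K] M :=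
    Ψ0 - (A.toLinearMap.flip u ∘ₗ (pderiv 0).toLinearMap) -
      (A.toLinearMap.flip v ∘ₗ (pderiv 1).toLinearMap)
  have hD : ∀ g, D g = Ψ0 g - A (pderiv 0 g) u - A (pderiv 1 g) v := fun g => rfl
  obtain ⟨ψ, hψ⟩ := exists_lift I0 D (by
    intro g hg
    rw [hD]
    refine Subtype.ext ?_
    rw [Submodule.coe_sub, Submodule.coe_sub, hAc, hAc]
    show Ψ (sg K i j g) - _ - _ = 0
    rw [hkey g hg, sub_sub, sub_self])
  have hri : ∀ r, Dt i (sg K i j r) = (α (Ideal.Quotient.mk I0 r) : M) := by
    intro r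
    rw [hDi]
    exact Ext_sg i j (Ideal.Quotient.mkₐ K I) (γ α) hij r
  have hrj : ∀ r, Dt j (sg K i j r) = (β (Ideal.Quotient.mk I0 r) : M) := by
    intro r
    rw [hDj]
    exact Ext_sg i j (Ideal.Quotient.mkₐ K I) (γ β) hij r
  have h0 : ∀ r, Ψ0 (X 0 * r) = A (X 0) (Ψ0 r) + α (Ideal.Quotient.mk I0 r) := by
    intro r
    refine Subtype.ext ?_
    rw [Submodule.coe_add, hAc, sg_X0]
    show Ψ (sg K i j (X 0 * r)) = Ideal.Quotient.mk I (X i) * Ψ (sg K i j r) + _
    rw [map_mul, sg_X0, hΨ, hri]
  have h1 : ∀ r, Ψ0 (X 1 * r) = A (X 1) (Ψ0 r) + β (Ideal.Quotient.mk I0 r) := by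
    intro r
    refine Subtype.ext ?_
    rw [Submodule.coe_add, hAc, sg_X1]
    show Ψ (sg K i j (X 1 * r)) = Ideal.Quotient.mk I (X j) * Ψ (sg K i j r) + _
    rw [map_mul, sg_X1, hΨ, hrj]
  refine ⟨ψ, u, v, fun r => ⟨?_, ?_⟩⟩
  · rw [hψ, hψ, hD, hD, h0, pd_self, pd_ne 1 0 (by decide)]
    simp only [map_mul, map_add, map_sub, LinearMap.add_apply, Module.End.mul_apply]
    abel
  · rw [hψ, hψ, hD, hD, h1, pd_self, pd_ne 0 1 (by decide)]
    simp only [map_mul, map_add, map_sub, LinearMap.add_apply, Module.End.mul_apply]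
    abel

end Pool.Agent.H66.Rig.Two
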