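import Mathlib
import Pool.Agent.H66.Rig.TwoU
import Pool.Agent.H66.Rig.TwoM

/-!
# Nonnegatively graded algebras whose degree zero part is a tensor product (MP_562323_ag)
-/

set_option autoImplicit false

namespace Pool.Agent.H66.Rig.Two

open Module MvPolynomial

/-- **The theorem.** -/
theorem mainT {K : Type*} [Field K] {n : ℕ} (w : Fin n → ℕ) (I : Ideal (MvPolynomial (Fin n) K))
    (hI1 : I ≠ ⊤)
    (hI : ∀ f ∈ I, ∀ k, weightedHomogeneousComponent w k f ∈ I)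
    (hN : ∃ N : ℕ, mm K n ^ N ≤ I)
    (i j : Fin n) (hij : i ≠ j) (hwi : w i = 0) (hwj : w j = 0)
    (hT : ∀ g ∈ I, g ∈ supported K {k | w k = 0} → g ∈ Ideal.span
      ({p | p ∈ I ∧ p ∈ supported K ({i, j} : Set (Fin n))} ∪
        {p | p ∈ I ∧ p ∈ supported K {k | w k = 0 ∧ k ≠ i ∧ k ≠ j}}))
    (h2 : I.comap (sg K i j) ≤ mm K 2 ^ 2)
    (v : Fin 2 → ℕ) (hv0 : (v 0 : K) ≠ 0) (hv1 : (v 1 : K) ≠ 0)
    (hv : ∀ g ∈ I.comap (sg K i j), ∀ k, weightedHomogeneousComponent v k g ∈ I.comap (sg K i j)) :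
    NotRigid I := by
  refine twoT w I hI1 hI hN i j hij hwi hwj hT ?_
  intro M _ _ _ _ A hA N hN' hfin
  exact good_all A _ N hN' hA h2 (v 0 : K) (v 1 : K) hv0 hv1 (euler _ v hv)

end Pool.Agent.H66.Rig.Two
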