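import Mathlib
import Pool.Agent.H66.Rig.TwoY
import Pool.Agent.H66.Rig.TwoM

/-!
# Nonnegatively graded algebras whose degree zero part is a flat base change (MP_562323_ag)
-/

set_option autoImplicit false

namespace Pool.Agent.H66.Rig.Two

open Module MvPolynomial

/-- **The theorem.** -/
theorem mainFl {K : Type*} [Field K] {n : ℕ} (w : Fin n → ℕ) (I : Ideal (MvPolynomial (Fin n) K))
    (hI1 : I ≠ ⊤)
    (hI : ∀ f ∈ I, ∀ k, weightedHomogeneousComponent w k f ∈ I)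
    (hN : ∃ N : ℕ, mm K n ^ N ≤ I)
    (i j : Fin n) (hij : i ≠ j) (hwi : w i = 0) (hwj : w j = 0)
    {R : Type*} [CommRing R] (κ : MvPolynomial (Fin n) K →+* R)
    (ρ : R →+* (MvPolynomial (Fin n) K ⧸ I)) (hρ : ρ.comp κ = Ideal.Quotient.mk I)
    (hflat : (κ.comp (sg K i j).toRingHom).Flat)
    (hT : ∀ g ∈ I, g ∈ supported K {k | w k = 0} →
      κ g ∈ (I.comap (sg K i j)).map (κ.comp (sg K i j).toRingHom))
    (h2 : I.comap (sg K i j) ≤ mm K 2 ^ 2)
    (v : Fin 2 → ℕ) (hv0 : (v 0 : K) ≠ 0) (hv1 : (v 1 : K) ≠ 0)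
    (hv : ∀ g ∈ I.comap (sg K i j), ∀ k, weightedHomogeneousComponent v k g ∈ I.comap (sg K i j)) :
    NotRigid I := by
  refine twoFl w I hI1 hI hN i j hij hwi hwj κ ρ hρ hflat
    (fun g hg hg0 => hT g hg ((supp_iff w g).2 hg0)) ?_
  intro M _ _ _ _ A hA N hN' hfin
  exact good_all A _ N hN' hA h2 (v 0 : K) (v 1 : K) hv0 hv1 (euler _ v hv)

end Pool.Agent.H66.Rig.Two
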